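import Mathlib

set_option autoImplicit false

/-!
Primitive integral solutions (copy of `RZ/PRIM.lean` with the middle term).
-/

namespace Pool.Agent.NCM

theorem prim_sol {d a c : ℤ} (h : ∃ N M e : ℚ, (M ≠ 0 ∨ e ≠ 0) ∧
      N ^ 2 = d * M ^ 4 + a * M ^ 2 * e ^ 2 + c * e ^ 4) :
    ∃ N M e : ℤ, IsCoprime M e ∧ N ^ 2 = d * M ^ 4 + a * M ^ 2 * e ^ 2 + c * e ^ 4 := by
  obtain ⟨N, M, e, h0, h1⟩ := h
  have hMd : (M.den : ℚ) ≠ 0 := by exact_mod_cast M.den_nz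
  have hed : (e.den : ℚ) ≠ 0 := by exact_mod_cast e.den_nz
  set M1 : ℤ := M.num * e.den with hM1
  set e1 : ℤ := e.num * M.den with he1
  have eM : (M1 : ℚ) = M * (M.den * e.den) := by
    rw [hM1]; push_cast
    conv_rhs => rw [← Rat.num_div_den M]
    field_simp
    rw [Rat.num_div_den]
  have ee : (e1 : ℚ) = e * (M.den * e.den) := by
    rw [he1]; push_cast
    conv_rhs => rw [← Rat.num_div_den e]
    field_simp
    rw [Rat.num_div_den]
  have hK : ((d * M1 ^ 4 + a * M1 ^ 2 * e1 ^ 2 + c * e1 ^ 4 : ℤ) : ℚ) = (N * (M.den * e.den) ^ 2) * (N * (M.den * e.den) ^ 2) := by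
    push_cast
    rw [eM, ee]
    linear_combination (-(M.den * e.den : ℚ) ^ 4) * h1
  have hsq : IsSquare (d * M1 ^ 4 + a * M1 ^ 2 * e1 ^ 2 + c * e1 ^ 4) := by
    rw [← Rat.isSquare_intCast_iff]
    exact ⟨_, hK⟩
  obtain ⟨N1, hN1⟩ := hsq
  have hne : M1 ≠ 0 ∨ e1 ≠ 0 := by
    rcases h0 with h | h
    · left
      intro h'
      apply h
      have : (M1 : ℚ) = 0 := by exact_mod_cast h'
      rw [eM] at this
      rcases mul_eq_zero.mp this with h2 | h2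
      · exact h2
      · exact absurd h2 (mul_ne_zero hMd hed)
    · right
      intro h'
      apply h
      have : (e1 : ℚ) = 0 := by exact_mod_cast h'
      rw [ee] at this
      rcases mul_eq_zero.mp this with h2 | h2
      · exact h2
      · exact absurd h2 (mul_ne_zero hMd hed)
  have hg : (Int.gcd M1 e1 : ℤ) ≠ 0 := by
    intro h
    have h' : Int.gcd M1 e1 = 0 := by exact_mod_cast h
    rw [Int.gcd_eq_zero_iff] at h'
    rcases hne with h2 | h2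
    · exact h2 h'.1
    · exact h2 h'.2
  set g : ℤ := (Int.gcd M1 e1 : ℤ) with hgdef
  obtain ⟨M2, hM2⟩ : g ∣ M1 := Int.gcd_dvd_left ..
  obtain ⟨e2, he2⟩ : g ∣ e1 := Int.gcd_dvd_right ..
  have hcop : IsCoprime M2 e2 := by
    obtain ⟨u, v, huv⟩ : ∃ u v : ℤ, g = M1 * u + e1 * v := ⟨_, _, Int.gcd_eq_gcd_ab M1 e1⟩
    refine ⟨u, v, ?_⟩
    apply mul_left_cancel₀ hg
    rw [mul_one]
    calc g * (u * M2 + v * e2) = (g * M2) * u + (g * e2) * v := by ring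
      _ = M1 * u + e1 * v := by rw [← hM2, ← he2]
      _ = g := huv.symm
  have h4 : N1 ^ 2 = g ^ 4 * (d * M2 ^ 4 + a * M2 ^ 2 * e2 ^ 2 + c * e2 ^ 4) := by
    have : N1 ^ 2 = d * M1 ^ 4 + a * M1 ^ 2 * e1 ^ 2 + c * e1 ^ 4 := by rw [hN1]; ring
    rw [this, hM2, he2]
    ring
  have h5 : (g ^ 2) ^ 2 ∣ N1 ^ 2 := ⟨d * M2 ^ 4 + a * M2 ^ 2 * e2 ^ 2 + c * e2 ^ 4, by rw [h4]; ring⟩
  have h6 : g ^ 2 ∣ N1 := (Int.pow_dvd_pow_iff two_ne_zero).1 h5
  obtain ⟨N2, hN2⟩ := h6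
  refine ⟨N2, M2, e2, hcop, ?_⟩
  apply mul_left_cancel₀ (pow_ne_zero 4 hg)
  rw [← h4, hN2]
  ring

end Pool.Agent.NCM
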