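import Pool.Agent.NCM.BAS
import Pool.Agent.H35.Local
import Pool.Agent.H23.Selmer

set_option autoImplicit false

/-!
Local conditions for the classes of the curve (necessary).

Proofs. `loc_out`: `RZ.SL1_a` with a middle term divisible by `p`. `loc_in`: `RZ.SL1_b` with
`b (b + a t^2 + c t^4) = (b - A t^2)(b - B t^2)`, `a = -(A+B)`, `bc = AB`.
`loc_q`: `norm_form`; first form `n^2 = qu + a t^2 + q^(2j+1) w t^4`: `t` unit gives `a` a square modulo `q`; `q | t`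
gives valuation one on the right. Second form, `n^2 = qu t^4 + a t^2 + q^(2j+1) w`, `q | t`: induction on `j`:
`q | n`, `t = q t1`, `n = q n1`; `j = 0` gives `q | w`; `j > 0` gives
`n1^2 = q (u q^2) t1^4 + a t1^2 + q^(2j-1) w`; if `q | t1` continue (replace `u` by `u q^2`: do the
induction for arbitrary `u`); if `q ∤ t1`, `a` is a square modulo `q`.
-/

namespace Pool.Agent.NCM

open Pool.Agent.RZ (jac_one)

private theorem loc1_dvd {p : ℕ} {x : ℤ} (h : (x : ZMod p) = 0) : (p : ℤ) ∣ x :=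
  (ZMod.intCast_zmod_eq_zero_iff_dvd x p).mp h

private theorem loc1_lift {p : ℕ} (x : ZMod p) : ∃ n : ℤ, (n : ZMod p) = x :=
  ZMod.intCast_surjective x

theorem loc_out {p : ℕ} [hp : Fact p.Prime] {a b c k : ℤ} (hb : ¬ (p : ℤ) ∣ b)
    (hk : ¬ (p : ℤ) ∣ k) (hbc : b * c = -((p : ℤ) * k) ^ 2)
    (h : ∃ N M e : ℚ_[p], (M ≠ 0 ∨ e ≠ 0) ∧
      N ^ 2 = (b : ℚ_[p]) * M ^ 4 + (((p : ℤ) * a : ℤ) : ℚ_[p]) * M ^ 2 * e ^ 2
        + (c : ℚ_[p]) * e ^ 4) :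
    jacobiSym b p = 1 ∨ jacobiSym (-b) p = 1 := by
  have hpr : Prime (p : ℤ) := Nat.prime_iff_prime_int.mp hp.out
  have hpp : Prime (p : ℤ_[p]) := PadicInt.prime_p
  have hp0 : (p : ℤ_[p]) ≠ 0 := hpp.ne_zero
  have hc1 : (p : ℤ) ^ 2 ∣ c := by
    have hcop : IsCoprime ((p : ℤ) ^ 2) b := (hpr.coprime_iff_not_dvd.mpr hb).pow_left
    apply hcop.dvd_of_dvd_mul_left
    rw [hbc]
    exact ⟨-k ^ 2, by ring⟩
  obtain ⟨c', rfl⟩ := hc1
  have hbc' : b * c' = -k ^ 2 := by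
    have h2 : ((p : ℤ) ^ 2) * (b * c') = (p : ℤ) ^ 2 * (-k ^ 2) := by linear_combination hbc
    exact mul_left_cancel₀ (pow_ne_zero 2 hpr.ne_zero) h2
  obtain ⟨N, M, e, h0, h1⟩ := h
  rcases Pool.Agent.H35.norm_form h0 h1 with ⟨t, n, h3⟩ | ⟨t, n, ht, h3⟩
  · left
    have h4 := congrArg (PadicInt.toZMod (p := p)) h3
    simp only [map_pow, map_add, map_mul, map_intCast] at h4
    obtain ⟨n', hn'⟩ := loc1_lift (PadicInt.toZMod n)
    have h5 : ((b * 1 ^ 2 - n' ^ 2 : ℤ) : ZMod p) = 0 := by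
      push_cast at h4 ⊢
      rw [hn', h4]
      rw [CharP.cast_eq_zero (ZMod p) p]
      ring
    have h6 := loc1_dvd h5
    refine jac_one hp.out (y := 1) (z := n') ?_ h6
    intro hn
    apply hb
    have h7 : (p : ℤ) ∣ (b * 1 ^ 2 - n' ^ 2) + n' ^ 2 := dvd_add h6 (dvd_pow hn two_ne_zero)
    simpa using h7
  · right
    obtain ⟨u, rfl⟩ := ht
    have hn : (p : ℤ_[p]) ∣ n := by
      apply hpp.dvd_of_dvd_pow (n := 2)
      rw [h3]
      refine ⟨(b : ℤ_[p]) * p ^ 3 * u ^ 4 + (a : ℤ_[p]) * p ^ 2 * u ^ 2 + (c' : ℤ_[p]) * p, ?_⟩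
      push_cast
      ring
    obtain ⟨n1, rfl⟩ := hn
    have h4 : n1 ^ 2 = (b : ℤ_[p]) * p ^ 2 * u ^ 4 + (a : ℤ_[p]) * p * u ^ 2 + (c' : ℤ_[p]) := by
      apply mul_left_cancel₀ (pow_ne_zero 2 hp0)
      push_cast at h3
      linear_combination h3
    have h5 := congrArg (PadicInt.toZMod (p := p)) h4
    simp only [map_pow, map_add, map_mul, map_intCast, map_natCast] at h5
    rw [CharP.cast_eq_zero (ZMod p) p] at h5
    obtain ⟨n', hn'⟩ := loc1_lift (PadicInt.toZMod n1)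
    have h6 : (((-b) * n' ^ 2 - k ^ 2 : ℤ) : ZMod p) = 0 := by
      have h7 : ((b * c' : ℤ) : ZMod p) = ((-k ^ 2 : ℤ) : ZMod p) := by rw [hbc']
      push_cast at h7 ⊢
      rw [hn', h5]
      linear_combination (-1 : ZMod p) * h7
    exact jac_one hp.out (y := n') (z := k) hk (loc1_dvd h6)

theorem loc_in {p : ℕ} [hp : Fact p.Prime] {b c A B : ℤ} (hb : ¬ (p : ℤ) ∣ b)
    (hA : ¬ (p : ℤ) ∣ A) (hB : ¬ (p : ℤ) ∣ B) (hbc : b * c = A * B)
    (h : ∃ N M e : ℚ_[p], (M ≠ 0 ∨ e ≠ 0) ∧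
      N ^ 2 = (((p : ℤ) * b : ℤ) : ℚ_[p]) * M ^ 4 + (((p : ℤ) * -(A + B) : ℤ) : ℚ_[p]) * M ^ 2 * e ^ 2
        + (((p : ℤ) * c : ℤ) : ℚ_[p]) * e ^ 4) :
    jacobiSym (b * A) p = 1 ∨ jacobiSym (b * B) p = 1 := by
  have hpr : Prime (p : ℤ) := Nat.prime_iff_prime_int.mp hp.out
  have hpp : Prime (p : ℤ_[p]) := PadicInt.prime_p
  have hp0 : (p : ℤ_[p]) ≠ 0 := hpp.ne_zero
  have hc : ¬ (p : ℤ) ∣ c := by
    intro hc
    have h2 : (p : ℤ) ∣ A * B := by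
      rw [← hbc]
      exact Dvd.dvd.mul_left hc b
    rcases hpr.dvd_or_dvd h2 with h3 | h3
    · exact hA h3
    · exact hB h3
  obtain ⟨N, M, e, h0, h1⟩ := h
  rcases Pool.Agent.H35.norm_form h0 h1 with ⟨t, n, h3⟩ | ⟨t, n, ht, h3⟩
  · have hn : (p : ℤ_[p]) ∣ n := by
      apply hpp.dvd_of_dvd_pow (n := 2)
      rw [h3]
      refine ⟨(b : ℤ_[p]) + (-(A + B) : ℤ) * t ^ 2 + (c : ℤ_[p]) * t ^ 4, ?_⟩
      push_cast
      ring
    obtain ⟨n1, rfl⟩ := hn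
    have h4 : (p : ℤ_[p]) * n1 ^ 2
        = (b : ℤ_[p]) - ((A : ℤ_[p]) + (B : ℤ_[p])) * t ^ 2 + (c : ℤ_[p]) * t ^ 4 := by
      apply mul_left_cancel₀ hp0
      push_cast at h3
      linear_combination h3
    have h5 := congrArg (PadicInt.toZMod (p := p)) h4
    simp only [map_pow, map_add, map_sub, map_mul, map_intCast, map_natCast] at h5
    rw [CharP.cast_eq_zero (ZMod p) p, zero_mul] at h5
    obtain ⟨x, hx⟩ := loc1_lift (PadicInt.toZMod t)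
    rw [← hx] at h5
    have h6 : (p : ℤ) ∣ b - (A + B) * x ^ 2 + c * x ^ 4 := by
      apply loc1_dvd
      push_cast
      exact h5.symm
    have h7 : (p : ℤ) ∣ (b - A * x ^ 2) * (b - B * x ^ 2) := by
      have : (b - A * x ^ 2) * (b - B * x ^ 2) = b * (b - (A + B) * x ^ 2 + c * x ^ 4) := by
        linear_combination (-x ^ 4) * hbc
      rw [this]
      exact Dvd.dvd.mul_left h6 b
    have hx0 : ¬ (p : ℤ) ∣ x := by
      intro hx0
      apply hb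
      have h8 : (p : ℤ) ∣ c * x ^ 4 := Dvd.dvd.mul_left (dvd_pow hx0 (by norm_num)) c
      have h9 : (p : ℤ) ∣ (A + B) * x ^ 2 := Dvd.dvd.mul_left (dvd_pow hx0 (by norm_num)) _
      have h10 := dvd_add (dvd_sub h6 h8) h9
      have h11 : b - (A + B) * x ^ 2 + c * x ^ 4 - c * x ^ 4 + (A + B) * x ^ 2 = b := by ring
      rwa [h11] at h10
    rcases hpr.dvd_or_dvd h7 with h8 | h8
    · left
      refine jac_one hp.out (y := 1) (z := A * x) ?_ ?_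
      · intro h9
        rcases hpr.dvd_or_dvd h9 with h9 | h9
        · exact hA h9
        · exact hx0 h9
      have : b * A * 1 ^ 2 - (A * x) ^ 2 = A * (b - A * x ^ 2) := by ring
      rw [this]
      exact Dvd.dvd.mul_left h8 A
    · right
      refine jac_one hp.out (y := 1) (z := B * x) ?_ ?_
      · intro h9
        rcases hpr.dvd_or_dvd h9 with h9 | h9
        · exact hB h9
        · exact hx0 h9
      have : b * B * 1 ^ 2 - (B * x) ^ 2 = B * (b - B * x ^ 2) := by ring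
      rw [this]
      exact Dvd.dvd.mul_left h8 B
  · exfalso
    obtain ⟨u, rfl⟩ := ht
    have hn : (p : ℤ_[p]) ∣ n := by
      apply hpp.dvd_of_dvd_pow (n := 2)
      rw [h3]
      refine ⟨(b : ℤ_[p]) * (p * u) ^ 4 + (-(A + B) : ℤ) * (p * u) ^ 2 + (c : ℤ_[p]), ?_⟩
      push_cast
      ring
    obtain ⟨n1, rfl⟩ := hn
    have h4 : (p : ℤ_[p]) * n1 ^ 2
        = (b : ℤ_[p]) * (p * u) ^ 4 - ((A : ℤ_[p]) + (B : ℤ_[p])) * (p * u) ^ 2 + (c : ℤ_[p]) := by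
      apply mul_left_cancel₀ hp0
      push_cast at h3
      linear_combination h3
    apply hc
    rw [← Pool.Agent.H35.dvd_int_iff (p := p)]
    refine ⟨n1 ^ 2 - (b : ℤ_[p]) * p ^ 3 * u ^ 4 + ((A : ℤ_[p]) + (B : ℤ_[p])) * p * u ^ 2, ?_⟩
    linear_combination (-1 : ℤ_[p]) * h4

/-- `n^2 = a t^2` modulo `q` with `a` a non-square forces `q ∣ t` -/
private theorem loc1_ns {q : ℕ} [hq : Fact q.Prime] {a : ℤ} (ha : jacobiSym a q = -1)
    {t n : ℤ_[q]} (h : (PadicInt.toZMod n) ^ 2 = (a : ZMod q) * (PadicInt.toZMod t) ^ 2) :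
    (q : ℤ_[q]) ∣ t := by
  rw [← Pool.Agent.H35.toZMod_eq_zero]
  by_contra ht
  rw [← jacobiSym.legendreSym.to_jacobiSym, legendreSym.eq_neg_one_iff] at ha
  apply ha
  refine ⟨PadicInt.toZMod n / PadicInt.toZMod t, ?_⟩
  rw [div_mul_div_comm, eq_div_iff (mul_ne_zero ht ht)]
  linear_combination -h

private theorem loc1_dvd_n {q : ℕ} [hq : Fact q.Prime] {a : ℤ}
    {t n : ℤ_[q]} (h : (PadicInt.toZMod n) ^ 2 = (a : ZMod q) * (PadicInt.toZMod t) ^ 2)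
    (ht : (q : ℤ_[q]) ∣ t) : (q : ℤ_[q]) ∣ n := by
  rw [← Pool.Agent.H35.toZMod_eq_zero] at ht ⊢
  rw [ht] at h
  have h2 : (PadicInt.toZMod n) ^ 2 = 0 := by rw [h]; ring
  exact pow_eq_zero_iff two_ne_zero |>.1 h2

private theorem loc1_q {q : ℕ} [hq : Fact q.Prime] {a w : ℤ} (ha : jacobiSym a q = -1)
    (hw : ¬ (q : ℤ) ∣ w) (j : ℕ) : ∀ u t n : ℤ_[q],
      n ^ 2 = q * u * t ^ 4 + (a : ℤ_[q]) * t ^ 2 + q ^ (2 * j + 1) * (w : ℤ_[q]) → False := by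
  have hqq : Prime (q : ℤ_[q]) := PadicInt.prime_p
  have hq0 : (q : ℤ_[q]) ≠ 0 := hqq.ne_zero
  induction j with
  | zero =>
    intro u t n h
    have h4 := congrArg (PadicInt.toZMod (p := q)) h
    simp only [map_pow, map_add, map_mul, map_intCast, map_natCast] at h4
    rw [CharP.cast_eq_zero (ZMod q) q] at h4
    have h5 : (PadicInt.toZMod n) ^ 2 = (a : ZMod q) * (PadicInt.toZMod t) ^ 2 := by
      rw [h4]; ring
    have ht := loc1_ns ha h5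
    have hn := loc1_dvd_n h5 ht
    obtain ⟨t1, rfl⟩ := ht
    obtain ⟨n1, rfl⟩ := hn
    apply hw
    rw [← Pool.Agent.H35.dvd_int_iff (p := q)]
    refine ⟨n1 ^ 2 - q ^ 3 * u * t1 ^ 4 - (a : ℤ_[q]) * t1 ^ 2, ?_⟩
    apply mul_left_cancel₀ hq0
    linear_combination (-1 : ℤ_[q]) * h
  | succ j ih =>
    intro u t n h
    have h4 := congrArg (PadicInt.toZMod (p := q)) h
    simp only [map_pow, map_add, map_mul, map_intCast, map_natCast] at h4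
    rw [CharP.cast_eq_zero (ZMod q) q] at h4
    have h5 : (PadicInt.toZMod n) ^ 2 = (a : ZMod q) * (PadicInt.toZMod t) ^ 2 := by
      rw [h4]; ring
    have ht := loc1_ns ha h5
    have hn := loc1_dvd_n h5 ht
    obtain ⟨t1, rfl⟩ := ht
    obtain ⟨n1, rfl⟩ := hn
    refine ih (q ^ 2 * u) t1 n1 ?_
    apply mul_left_cancel₀ (pow_ne_zero 2 hq0)
    linear_combination h

theorem loc_q {q : ℕ} [hq : Fact q.Prime] {a u w : ℤ} (j : ℕ) (ha : jacobiSym a q = -1)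
    (hu : ¬ (q : ℤ) ∣ u) (hw : ¬ (q : ℤ) ∣ w)
    (h : ∃ N M e : ℚ_[q], (M ≠ 0 ∨ e ≠ 0) ∧
      N ^ 2 = (((q : ℤ) * u : ℤ) : ℚ_[q]) * M ^ 4 + (a : ℚ_[q]) * M ^ 2 * e ^ 2
        + (((q : ℤ) ^ (2 * j + 1) * w : ℤ) : ℚ_[q]) * e ^ 4) : False := by
  have hqq : Prime (q : ℤ_[q]) := PadicInt.prime_p
  have hq0 : (q : ℤ_[q]) ≠ 0 := hqq.ne_zero
  obtain ⟨N, M, e, h0, h1⟩ := h
  rcases Pool.Agent.H35.norm_form h0 h1 with ⟨t, n, h3⟩ | ⟨t, n, ht, h3⟩
  · push_cast at h3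
    have h4 := congrArg (PadicInt.toZMod (p := q)) h3
    simp only [map_pow, map_add, map_mul, map_intCast, map_natCast] at h4
    rw [CharP.cast_eq_zero (ZMod q) q] at h4
    have h5 : (PadicInt.toZMod n) ^ 2 = (a : ZMod q) * (PadicInt.toZMod t) ^ 2 := by
      rw [h4]; ring
    have ht := loc1_ns ha h5
    have hn := loc1_dvd_n h5 ht
    obtain ⟨t1, rfl⟩ := ht
    obtain ⟨n1, rfl⟩ := hn
    apply hu
    rw [← Pool.Agent.H35.dvd_int_iff (p := q)]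
    refine ⟨n1 ^ 2 - (a : ℤ_[q]) * t1 ^ 2 - q ^ (2 * j) * q ^ 3 * (w : ℤ_[q]) * t1 ^ 4, ?_⟩
    apply mul_left_cancel₀ hq0
    linear_combination (-1 : ℤ_[q]) * h3
  · push_cast at h3
    exact loc1_q ha hw j (u : ℤ_[q]) t n h3

end Pool.Agent.NCM
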