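import Pool.Agent.NCM.BAS
import Pool.Agent.H35.Local
import Pool.Agent.H23.Selmer

set_option autoImplicit false

/-!
Local conditions for the classes of the isogenous curve (necessary).

Proofs. `loc2_pos`: `b N^2 = (b M^2 - a e^2)^2 + (b k - a^2) e^4`. `loc2_out`: `RZ.SL2_out` with a middle
term divisible by `p`. `loc2_in`: `norm_form`; first form: `p | n`, `u(u - 2a t^2 + w t^4) = 0` modulo `p`
and it equals `(u - a t^2)^2 + (4Dvm)^2 t^4` with `a = Dm(v^2-4)`; `t` unit (else `p | u`), so `-1` is a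
square, `p = 1` modulo `4`, and with `i = (u - a t^2)/(4Dvm t^2)`, `i^2 = -1`: `u = Dm (v + 2i)^2 t^2`. Second form: `p | w`,
excluded. `loc2_two`: `b n^2 = (b - a t^2)^2 + 16 w^2 t^4` or `(b t^2 - a)^2 + 16 w^2`, `2 | t`; `t` odd: `b - a t^2 = 4` modulo `8`,
the right side is `16 (k^2 + l^2)`, `k`, `l` odd, so `b n1^2 = 2` modulo `8`, impossible; `t` even: the right side is `1` modulo
`8`, `n` odd, `b = 1` modulo `8`, excluded. (2-adic integers: reduce modulo `2^k` with `PadicInt.toZModPow` or write a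
2-adic integer as an integer plus a multiple of `32`.)
-/

namespace Pool.Agent.NCM

theorem loc2_pos {b a k : ℤ} (hbk : a ^ 2 < b * k)
    (h : ∃ N M e : ℝ, (M ≠ 0 ∨ e ≠ 0) ∧
      N ^ 2 = (b : ℝ) * M ^ 4 + ((-2 * a : ℤ) : ℝ) * M ^ 2 * e ^ 2 + (k : ℝ) * e ^ 4) : 0 < b := by
  by_contra hb
  have hb0 : b ≠ 0 := by
    rintro rfl
    have := sq_nonneg a
    simp at hbk
    omega
  have hb1 : b < 0 := lt_of_le_of_ne (not_lt.mp hb) hb0
  obtain ⟨N, M, e, h0, h1⟩ := h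
  have hb2 : (b : ℝ) < 0 := by exact_mod_cast hb1
  have hbk' : (a : ℝ) ^ 2 < b * k := by exact_mod_cast hbk
  push_cast at h1
  have key : (b : ℝ) * N ^ 2 = (b * M ^ 2 - a * e ^ 2) ^ 2 + (b * k - a ^ 2) * e ^ 4 := by
    rw [h1]; ring
  have hN : (b : ℝ) * N ^ 2 ≤ 0 := mul_nonpos_of_nonpos_of_nonneg hb2.le (sq_nonneg N)
  have he4 : 0 ≤ (b * k - a ^ 2 : ℝ) * e ^ 4 := by
    apply mul_nonneg
    · linarith
    · positivity
  have hsq := sq_nonneg ((b : ℝ) * M ^ 2 - a * e ^ 2)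
  have h3 : (b * k - a ^ 2 : ℝ) * e ^ 4 = 0 := by linarith
  have h4 : ((b : ℝ) * M ^ 2 - a * e ^ 2) ^ 2 = 0 := by linarith
  have he : e = 0 := by
    rcases mul_eq_zero.1 h3 with h5 | h5
    · linarith
    · exact pow_eq_zero_iff (by norm_num) |>.1 h5
  rw [he] at h4
  have hM : M = 0 := by
    have h5 := pow_eq_zero_iff (two_ne_zero) |>.1 h4
    have h6 : (b : ℝ) * M ^ 2 = 0 := by linarith
    rcases mul_eq_zero.1 h6 with h7 | h7
    · exact absurd h7 hb2.ne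
    · exact pow_eq_zero_iff (two_ne_zero) |>.1 h7
  rcases h0 with h0 | h0
  · exact h0 hM
  · exact h0 he

private theorem loc2_jac {p : ℕ} [Fact p.Prime] {x : ℤ} (hx : (x : ZMod p) ≠ 0)
    (h : IsSquare (x : ZMod p)) : jacobiSym x p = 1 := by
  rw [← jacobiSym.legendreSym.to_jacobiSym]
  exact (legendreSym.eq_one_iff p hx).mpr h

theorem loc2_out {p : ℕ} [Fact p.Prime] {d k l a : ℤ} (hd : ¬ (p : ℤ) ∣ d)
    (hl : ¬ (p : ℤ) ∣ l) (hk : d * k = l ^ 2)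
    (h : ∃ N M e : ℚ_[p], (M ≠ 0 ∨ e ≠ 0) ∧
      N ^ 2 = (d : ℚ_[p]) * M ^ 4 + (((p : ℤ) * a : ℤ) : ℚ_[p]) * M ^ 2 * e ^ 2
        + (((p : ℤ) ^ 2 * k : ℤ) : ℚ_[p]) * e ^ 4) : jacobiSym d p = 1 := by
  have hpp : Prime (p : ℤ_[p]) := PadicInt.prime_p
  have hp0 : (p : ℤ_[p]) ≠ 0 := hpp.ne_zero
  have hd0 : (d : ZMod p) ≠ 0 := by rwa [Ne, ZMod.intCast_zmod_eq_zero_iff_dvd]
  obtain ⟨N, M, e, h0, h1⟩ := h
  apply loc2_jac hd0
  rcases Pool.Agent.H35.norm_form h0 h1 with ⟨t, n, h2⟩ | ⟨t, n, ht, h2⟩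
  · have h3 := congrArg (PadicInt.toZMod (p := p)) h2
    simp only [map_pow, map_add, map_mul, map_intCast] at h3
    push_cast at h3
    rw [CharP.cast_eq_zero (ZMod p) p] at h3
    exact ⟨PadicInt.toZMod n, by rw [← sq, h3]; ring⟩
  · obtain ⟨s, rfl⟩ := ht
    push_cast at h2
    have hn : (p : ℤ_[p]) ∣ n := by
      apply hpp.dvd_of_dvd_pow (n := 2)
      rw [h2]
      exact ⟨d * p ^ 3 * s ^ 4 + a * p ^ 2 * s ^ 2 + p * k, by ring⟩
    obtain ⟨n', rfl⟩ := hn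
    have h3 : n' ^ 2 = (d : ℤ_[p]) * p ^ 2 * s ^ 4 + p * a * s ^ 2 + (k : ℤ_[p]) := by
      apply mul_left_cancel₀ hp0
      apply mul_left_cancel₀ hp0
      linear_combination h2
    have h4 := congrArg (PadicInt.toZMod (p := p)) h3
    simp only [map_pow, map_add, map_mul, map_intCast, map_natCast] at h4
    rw [CharP.cast_eq_zero (ZMod p) p] at h4
    have h5 : (d : ZMod p) * (k : ZMod p) = (l : ZMod p) ^ 2 := by
      exact_mod_cast congrArg (Int.cast : ℤ → ZMod p) hk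
    have hl0 : (l : ZMod p) ≠ 0 := by rwa [Ne, ZMod.intCast_zmod_eq_zero_iff_dvd]
    have hn0 : PadicInt.toZMod n' ≠ 0 := by
      intro h
      rw [h] at h4
      have hk0 : (k : ZMod p) = 0 := by linear_combination -h4
      rw [hk0, mul_zero] at h5
      exact pow_ne_zero 2 hl0 h5.symm
    refine ⟨(l : ZMod p) / PadicInt.toZMod n', ?_⟩
    rw [div_mul_div_comm, eq_div_iff (mul_ne_zero hn0 hn0)]
    linear_combination (d : ZMod p) * h4 + h5

theorem loc2_in {p : ℕ} [Fact p.Prime] (hp8 : p % 8 = 1 ∨ p % 8 = 7) {D v m u w : ℤ}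
    (hDv : D = v ^ 2 + 4) (hu : ¬ (p : ℤ) ∣ u) (hD : ¬ (p : ℤ) ∣ D) (hv : ¬ (p : ℤ) ∣ v)
    (hm : ¬ (p : ℤ) ∣ m) (huw : u * w = (D ^ 2 * m) ^ 2)
    (h : ∃ N M e : ℚ_[p], (M ≠ 0 ∨ e ≠ 0) ∧
      N ^ 2 = (((p : ℤ) * u : ℤ) : ℚ_[p]) * M ^ 4
        + (((p : ℤ) * (-2 * (D * m * (v ^ 2 - 4))) : ℤ) : ℚ_[p]) * M ^ 2 * e ^ 2
        + (((p : ℤ) * w : ℤ) : ℚ_[p]) * e ^ 4) :
    p % 8 = 1 ∧ jacobiSym (u * (D * m)) p = 1 := by
  have hpp : Prime (p : ℤ_[p]) := PadicInt.prime_p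
  have hpz : Prime (p : ℤ) := Nat.prime_iff_prime_int.mp (Fact.out : p.Prime)
  have hp0 : (p : ℤ_[p]) ≠ 0 := hpp.ne_zero
  have hu0 : (u : ZMod p) ≠ 0 := by rwa [Ne, ZMod.intCast_zmod_eq_zero_iff_dvd]
  have hD0 : (D : ZMod p) ≠ 0 := by rwa [Ne, ZMod.intCast_zmod_eq_zero_iff_dvd]
  have hv0 : (v : ZMod p) ≠ 0 := by rwa [Ne, ZMod.intCast_zmod_eq_zero_iff_dvd]
  have hm0 : (m : ZMod p) ≠ 0 := by rwa [Ne, ZMod.intCast_zmod_eq_zero_iff_dvd]
  have hp2 : ¬ (p : ℤ) ∣ 2 := by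
    intro h
    have h' : p ∣ 2 := by exact_mod_cast h
    have : p = 2 := (Nat.prime_dvd_prime_iff_eq Fact.out Nat.prime_two).mp h'
    omega
  have h20 : (2 : ZMod p) ≠ 0 := by
    intro h
    apply hp2
    rw [← ZMod.intCast_zmod_eq_zero_iff_dvd]
    exact_mod_cast h
  have h40 : (4 : ZMod p) ≠ 0 := by
    have : (4 : ZMod p) = 2 * 2 := by norm_num
    rw [this]; exact mul_ne_zero h20 h20
  obtain ⟨N, M, e, h0, h1⟩ := h
  rcases Pool.Agent.H35.norm_form h0 h1 with ⟨t, n, h2⟩ | ⟨t, n, ht, h2⟩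
  · have h2' : n ^ 2 = (p : ℤ_[p]) * ((u : ℤ_[p]) + ((-2 * (D * m * (v ^ 2 - 4)) : ℤ) : ℤ_[p]) * t ^ 2
        + (w : ℤ_[p]) * t ^ 4) := by
      rw [h2]; push_cast; ring
    have hn : (p : ℤ_[p]) ∣ n := by
      apply hpp.dvd_of_dvd_pow (n := 2)
      rw [h2']
      exact ⟨_, rfl⟩
    obtain ⟨n', rfl⟩ := hn
    have h3 : (p : ℤ_[p]) * n' ^ 2 = (u : ℤ_[p]) + ((-2 * (D * m * (v ^ 2 - 4)) : ℤ) : ℤ_[p]) * t ^ 2
        + (w : ℤ_[p]) * t ^ 4 := by
      apply mul_left_cancel₀ hp0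
      linear_combination h2'
    have h4 := congrArg (PadicInt.toZMod (p := p)) h3
    simp only [map_pow, map_add, map_mul, map_intCast, map_natCast] at h4
    rw [CharP.cast_eq_zero (ZMod p) p, zero_mul] at h4
    set T := PadicInt.toZMod t with hT
    push_cast at h4
    have h5 : (u : ZMod p) * (w : ZMod p) = ((D : ZMod p) ^ 2 * m) ^ 2 := by
      exact_mod_cast congrArg (Int.cast : ℤ → ZMod p) huw
    have h6 : (D : ZMod p) = (v : ZMod p) ^ 2 + 4 := by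
      exact_mod_cast congrArg (Int.cast : ℤ → ZMod p) hDv
    have h7 : ((u : ZMod p) - D * m * (v ^ 2 - 4) * T ^ 2) ^ 2 + (4 * D * v * m * T ^ 2) ^ 2 = 0 := by
      have e1 : ((u : ZMod p) - D * m * (v ^ 2 - 4) * T ^ 2) ^ 2 + (4 * D * v * m * T ^ 2) ^ 2
          = u * (u + -2 * (D * m * (v ^ 2 - 4)) * T ^ 2 + w * T ^ 4)
            + T ^ 4 * (((D : ZMod p) ^ 2 * m) ^ 2 - u * w)
            + T ^ 4 * D ^ 2 * m ^ 2 * (((v : ZMod p) ^ 2 + 4) ^ 2 - D ^ 2) := by ring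
      rw [e1, ← h4, h5, h6]
      ring
    have hT0 : T ≠ 0 := by
      intro h
      rw [h] at h4
      apply hu0
      linear_combination -h4
    have hc0 : (4 * D * v * m * T ^ 2 : ZMod p) ≠ 0 :=
      mul_ne_zero (mul_ne_zero (mul_ne_zero (mul_ne_zero h40 hD0) hv0) hm0) (pow_ne_zero 2 hT0)
    obtain ⟨i, hi⟩ : ∃ i : ZMod p, (u : ZMod p) - D * m * (v ^ 2 - 4) * T ^ 2
        = i * (4 * D * v * m * T ^ 2) := ⟨_, (div_mul_cancel₀ _ hc0).symm⟩
    have hi2 : i ^ 2 = -1 := by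
      rw [hi] at h7
      have h8 : (i ^ 2 + 1) * (4 * D * v * m * T ^ 2) ^ 2 = 0 := by linear_combination h7
      have h9 := (mul_eq_zero.mp h8).resolve_right (pow_ne_zero 2 hc0)
      linear_combination h9
    have hp4 : p % 4 ≠ 3 := by
      apply ZMod.exists_sq_eq_neg_one_iff.mp
      exact ⟨i, by rw [← sq, hi2]⟩
    refine ⟨by omega, ?_⟩
    apply loc2_jac
    · push_cast
      exact mul_ne_zero hu0 (mul_ne_zero hD0 hm0)
    · refine ⟨D * m * T * (v + 2 * i), ?_⟩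
      push_cast
      have hu' : (u : ZMod p) = D * m * T ^ 2 * (v ^ 2 - 4 + 4 * v * i) := by
        linear_combination hi
      rw [hu']
      linear_combination (-4 * (D : ZMod p) ^ 2 * m ^ 2 * T ^ 2) * hi2
  · exfalso
    obtain ⟨s, rfl⟩ := ht
    push_cast at h2
    have hn : (p : ℤ_[p]) ∣ n := by
      apply hpp.dvd_of_dvd_pow (n := 2)
      rw [h2]
      exact ⟨u * (p * s) ^ 4 + (-2 * (D * m * (v ^ 2 - 4))) * (p * s) ^ 2 + w, by ring⟩
    obtain ⟨n', rfl⟩ := hn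
    have h3 : (p : ℤ_[p]) * (n' ^ 2 - u * p ^ 3 * s ^ 4 + 2 * (D * m * (v ^ 2 - 4)) * p * s ^ 2)
        = (w : ℤ_[p]) := by
      apply mul_left_cancel₀ hp0
      linear_combination h2
    have h4 : (p : ℤ) ∣ w := (Pool.Agent.H35.dvd_int_iff (p := p)).mp ⟨_, h3.symm⟩
    have h5 : (p : ℤ) ∣ (D ^ 2 * m) ^ 2 := by
      rw [← huw]
      exact h4.mul_left u
    rcases hpz.dvd_or_dvd (hpz.dvd_of_dvd_pow h5) with h6 | h6
    · exact hD (hpz.dvd_of_dvd_pow h6)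
    · exact hm h6

private theorem loc2_z2 : ∀ z : ZMod 2, z = 0 ∨ z = 1 := by decide

theorem loc2_two {b a w c : ℤ} (hb : b % 8 = 5) (ha : a % 8 = 1) (hw : w % 2 = 1)
    (hbc : b * c = a ^ 2 + 16 * w ^ 2)
    (h : ∃ N M e : Padic 2, (M ≠ 0 ∨ e ≠ 0) ∧
      N ^ 2 = (b : Padic 2) * M ^ 4 + ((-2 * a : ℤ) : Padic 2) * M ^ 2 * e ^ 2
        + (c : Padic 2) * e ^ 4) : False := by
  have : Fact (Nat.Prime 2) := ⟨Nat.prime_two⟩
  obtain ⟨N, M, e, h0, h1⟩ := h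
  have hpp : Prime ((2 : ℕ) : ℤ_[2]) := PadicInt.prime_p
  have hp2 : Prime (2 : ℤ_[2]) := by exact_mod_cast hpp
  have h20 : (2 : ℤ_[2]) ≠ 0 := hp2.ne_zero
  have hc : c % 8 = 5 := by
    have h3 : (b * c) % 8 = 1 := by
      rw [hbc]
      have : a ^ 2 % 8 = 1 := by rw [pow_two, Int.mul_emod, ha]; norm_num
      omega
    rw [Int.mul_emod, hb] at h3
    omega
  obtain ⟨b', hb'⟩ : ∃ b', b = 5 + 8 * b' := ⟨b / 8, by omega⟩
  obtain ⟨a', ha'⟩ : ∃ a', a = 1 + 8 * a' := ⟨a / 8, by omega⟩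
  obtain ⟨c', hc'⟩ : ∃ c', c = 5 + 8 * c' := ⟨c / 8, by omega⟩
  obtain ⟨w', hw'⟩ : ∃ w', w = 1 + 2 * w' := ⟨w / 2, by omega⟩
  have h8 : ((8 : ℕ) : ZMod (2 ^ 3)) = 0 := by decide
  have hno5 : ∀ n r : ℤ_[2], n ^ 2 = 5 + 8 * r → False := by
    intro n r hn
    have h3 := congrArg (PadicInt.toZModPow (p := 2) 3) hn
    have e5 : PadicInt.toZModPow 3 (5 : ℤ_[2]) = (5 : ZMod (2 ^ 3)) := by
      have : (5 : ℤ_[2]) = ((5 : ℕ) : ℤ_[2]) := by norm_cast
      rw [this, map_natCast]; norm_cast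
    have e8 : PadicInt.toZModPow 3 (8 : ℤ_[2]) = (0 : ZMod (2 ^ 3)) := by
      have : (8 : ℤ_[2]) = ((8 : ℕ) : ℤ_[2]) := by norm_cast
      rw [this, map_natCast]; exact h8
    rw [map_pow, map_add, map_mul, e5, e8, zero_mul, add_zero] at h3
    revert h3
    generalize PadicInt.toZModPow 3 n = z
    revert z
    decide
  rcases Pool.Agent.H35.norm_form h0 h1 with ⟨t, n, h2⟩ | ⟨t, n, ht, h2⟩
  · have hev : ∀ x : ℤ_[2], (2 : ℤ_[2]) ∣ x ∨ (2 : ℤ_[2]) ∣ x - 1 := by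
      intro x
      have hk : ∀ y : ℤ_[2], PadicInt.toZMod y = 0 → (2 : ℤ_[2]) ∣ y := by
        intro y hy
        rw [← RingHom.mem_ker, PadicInt.ker_toZMod, PadicInt.maximalIdeal_eq_span_p,
          Ideal.mem_span_singleton] at hy
        exact_mod_cast hy
      rcases loc2_z2 (PadicInt.toZMod x) with h3 | h3
      · left; exact hk x h3
      · right
        apply hk
        rw [map_sub, h3, map_one, sub_self]
    rcases hev t with ⟨s, rfl⟩ | ⟨s, hs⟩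
    · refine hno5 n (b' - a * s ^ 2 + 2 * c * s ^ 4) ?_
      rw [h2, hb']
      push_cast
      ring
    · obtain ⟨r, hr⟩ : (2 : ℤ_[2]) ∣ s * (s + 1) := by
        rcases hev s with h3 | h3
        · exact h3.mul_right _
        · refine Dvd.dvd.mul_left ?_ _
          have : s + 1 = (s - 1) + 2 := by ring
          rw [this]
          exact dvd_add h3 dvd_rfl
      have ht : t = 1 + 2 * s := by linear_combination hs
      have ht2 : t ^ 2 = 1 + 8 * r := by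
        rw [ht]; linear_combination 4 * hr
      have key : (b : ℤ_[2]) * n ^ 2 = (b - a * t ^ 2) ^ 2 + 16 * w ^ 2 * t ^ 4 := by
        have hbc' : (b : ℤ_[2]) * c = a ^ 2 + 16 * w ^ 2 := by exact_mod_cast congrArg (Int.cast : ℤ → ℤ_[2]) hbc
        rw [h2]
        push_cast
        linear_combination t ^ 4 * hbc'
      set k : ℤ_[2] := 1 + 2 * (b' - a' - a * r) with hkdef
      have hk : (b : ℤ_[2]) - a * t ^ 2 = 4 * k := by
        rw [ht2, hkdef, hb']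
        have ha'' : (a : ℤ_[2]) = 1 + 8 * a' := by rw [ha']; push_cast; ring
        push_cast
        linear_combination -ha''
      rw [hk] at key
      have hbn : ¬ (2 : ℤ_[2]) ∣ (b : ℤ_[2]) := by
        intro hd
        have := (Pool.Agent.H35.dvd_int_iff (p := 2) (x := b)).mp (by exact_mod_cast hd)
        have : (2 : ℤ) ∣ b := by exact_mod_cast this
        omega
      have hn1 : (2 : ℤ_[2]) ∣ n := by
        have : (2 : ℤ_[2]) ∣ (b : ℤ_[2]) * n ^ 2 := by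
          rw [key]; exact ⟨8 * k ^ 2 + 8 * w ^ 2 * t ^ 4, by ring⟩
        exact hp2.dvd_of_dvd_pow ((hp2.dvd_or_dvd this).resolve_left hbn)
      obtain ⟨n1, rfl⟩ := hn1
      have key1 : (b : ℤ_[2]) * n1 ^ 2 = 4 * (k ^ 2 + w ^ 2 * t ^ 4) := by
        apply mul_left_cancel₀ h20
        apply mul_left_cancel₀ h20
        linear_combination key
      have hn2 : (2 : ℤ_[2]) ∣ n1 := by
        have : (2 : ℤ_[2]) ∣ (b : ℤ_[2]) * n1 ^ 2 := by
          rw [key1]; exact ⟨2 * (k ^ 2 + w ^ 2 * t ^ 4), by ring⟩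
        exact hp2.dvd_of_dvd_pow ((hp2.dvd_or_dvd this).resolve_left hbn)
      obtain ⟨n2, rfl⟩ := hn2
      have key2 : (b : ℤ_[2]) * n2 ^ 2 = k ^ 2 + w ^ 2 * t ^ 4 := by
        apply mul_left_cancel₀ h20
        apply mul_left_cancel₀ h20
        linear_combination key1
      have key3 : 5 * n2 ^ 2 + 8 * (b' * n2 ^ 2) = (1 + 2 * ((b' : ℤ_[2]) - a' - a * r)) ^ 2
          + (1 + 2 * (w' : ℤ_[2])) ^ 2 * (1 + 8 * r) ^ 2 := by
        have e1 : t ^ 4 = (1 + 8 * r) ^ 2 := by rw [← ht2]; ring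
        have e2 : (w : ℤ_[2]) = 1 + 2 * w' := by rw [hw']; push_cast; ring
        have e3 : (b : ℤ_[2]) = 5 + 8 * b' := by rw [hb']; push_cast; ring
        rw [e1, e2, e3] at key2
        linear_combination key2
      have h3 := congrArg (PadicInt.toZModPow (p := 2) 3) key3
      have e5 : PadicInt.toZModPow 3 (5 : ℤ_[2]) = (5 : ZMod (2 ^ 3)) := by
        have : (5 : ℤ_[2]) = ((5 : ℕ) : ℤ_[2]) := by norm_cast
        rw [this, map_natCast]; norm_cast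
      have e2' : PadicInt.toZModPow 3 (2 : ℤ_[2]) = (2 : ZMod (2 ^ 3)) := by
        have : (2 : ℤ_[2]) = ((2 : ℕ) : ℤ_[2]) := by norm_cast
        rw [this, map_natCast]; norm_cast
      have e8 : PadicInt.toZModPow 3 (8 : ℤ_[2]) = (0 : ZMod (2 ^ 3)) := by
        have : (8 : ℤ_[2]) = ((8 : ℕ) : ℤ_[2]) := by norm_cast
        rw [this, map_natCast]; exact h8
      generalize ((b' : ℤ_[2]) - a' - a * r) = k' at h3
      simp only [map_pow, map_add, map_mul, map_one, e5, e8, e2', zero_mul, add_zero, map_intCast,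
        one_pow, mul_one] at h3
      revert h3
      generalize PadicInt.toZModPow 3 n2 = z1
      generalize PadicInt.toZModPow 3 k' = z2
      generalize ((w' : ℤ) : ZMod (2 ^ 3)) = z3
      revert z1 z2 z3
      decide +kernel
  · obtain ⟨s, rfl⟩ : (2 : ℤ_[2]) ∣ t := by exact_mod_cast ht
    refine hno5 n (2 * b * s ^ 4 - a * s ^ 2 + c') ?_
    rw [h2, hc']
    push_cast
    ring

end Pool.Agent.NCM
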