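import Pool.Agent.NCM.BAS
import Pool.Agent.H23.Selmer
import Pool.Agent.ShF.LOC
import Pool.Agent.ShF.QALPHA

set_option autoImplicit false

/-!
The everywhere locally soluble classes of the isogenous curve, other inclusion.

Proof. Real: `d > 0`, `M = 1`, `e = 0`. `p = 2`, `p = D`, `p | v`: `d = 1` modulo `8` is a square in `ℚ_p` (`padic_two_sq`;
`jac_D_dvd`, `jac_q_dvd`, `padic_sq`). `p | m`, `p ∤ d`: `(d/p) = 1`. `p | d`: `p = 1` modulo `8`, `i^2 = -1` in `ℚ_p`; solution
with `N = 0`, `e = 1`: `d M^2 = Dm (v + 2i)^2`, i.e. `M^2 = D (m/d) (v+2i)^2`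
(`x^2 - 2a x + D^4 m^2` has the roots `Dm(v ± 2i)^2`). `p ∤ 2Dvm`: if `(d/p) = 1` clear; else `ShF.exists_nonres` with
`a := -2 aE`, `b := D^4 m^2` (discriminant `16 bE ≠ 0`): a nonresidue `x0` with `x0 (x0^2 - 2a x0 + D^4m^2)` a square; if it
is not zero, `x0 = d M^2` and lift; if it is zero, `-1` is a square `i^2` (`(x0 - a)^2 + (4Dvm)^2 = 0`) and
`x0 = Dm(v + 2i)^2`, so `D m` is a nonresidue, `D m d` is a square: solution with `N = 0`. Template `RZ/SL2S.lean`.
-/

namespace Pool.Agent.NCM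

open Pool.Agent.H23 Pool.Agent.ShF

section
variable {K : Type*} [Field K]

private lemma s2n_gen {a c b : ℤ} (hdb : b ∣ c) (hb : (b : K) ≠ 0) {M N : K}
    (h : (b : K) * N ^ 2 = (b * M ^ 2) ^ 2 + a * (b * M ^ 2) + c) : QSol K a c b := by
  obtain ⟨c', hc⟩ := hdb
  have hb0 : b ≠ 0 := by rintro rfl; simp at hb
  have h1 : c / b = c' := by rw [hc, Int.mul_ediv_cancel_left _ hb0]
  have h2 : (c : K) = b * c' := by exact_mod_cast congrArg (fun z : ℤ => (z : K)) hc
  refine ⟨N, M, 1, Or.inr one_ne_zero, ?_⟩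
  rw [h1]
  apply mul_left_cancel₀ hb
  rw [h]
  linear_combination h2

end

private lemma s2n_leg {p : ℕ} [Fact p.Prime] {n : ℤ} (h : jacobiSym n p = 1) :
    legendreSym p n = 1 := by
  rw [jacobiSym.legendreSym.to_jacobiSym, h]

private lemma s2n_nd {p : ℕ} [Fact p.Prime] {n : ℤ} (h : legendreSym p n = 1) :
    ¬ (p : ℤ) ∣ n := by
  intro hd
  have h2 : legendreSym p n = 0 := by
    rw [legendreSym.eq_zero_iff]
    exact (ZMod.intCast_zmod_eq_zero_iff_dvd _ p).2 hd
  rw [h2] at h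
  exact zero_ne_one h

private lemma s2n_mod8 (n : ℕ) (hn : n ≠ 0) (h : ∀ p : ℕ, p.Prime → p ∣ n → p % 8 = 1) :
    n % 8 = 1 := by
  induction n using induction_on_primes with
  | zero => exact absurd rfl hn
  | one => rfl
  | prime_mul p a hp ih =>
    have ha : a ≠ 0 := by rintro rfl; simp at hn
    have h1 := h p hp (dvd_mul_right _ _)
    have h2 := ih ha (fun q hq hqa => h q hq (hqa.mul_left p))
    rw [Nat.mul_mod, h1, h2]

open Pool.Agent.H23 in
theorem sel2_suf {v D m : ℕ} (h : Par v D) (hm : Fam v D m) {d : ℕ} (hd : d ∣ m)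
    (h1 : ∀ p : ℕ, p.Prime → p ∣ d → p % 8 = 1) (hK : RZ.KA m d) :
    (d : ℤ) ∈ Sel (-2 * aE v D m) (aE v D m ^ 2 - 4 * bE v D m) := by
  rw [disc v D m h.eq]
  have hm0 : m ≠ 0 := hm.m_ne
  have hdm := hd
  obtain ⟨k, hk⟩ := hd
  have hd0 : d ≠ 0 := by rintro rfl; simp at hk; exact hm0 hk
  have hk0 : k ≠ 0 := by rintro rfl; simp at hk; exact hm0 hk
  have hkm : m / d = k := by rw [hk, Nat.mul_div_cancel_left _ (Nat.pos_of_ne_zero hd0)]
  have hdb : (d : ℤ) ∣ (D : ℤ) ^ 4 * (m : ℤ) ^ 2 := by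
    refine ⟨D ^ 4 * d * k ^ 2, ?_⟩
    rw [hk]; push_cast; ring
  have hdz : (d : ℤ) ≠ 0 := by exact_mod_cast hd0
  have hdZ : (d : ℤ) ∣ m := by exact_mod_cast hdm
  have h8 : (d : ℤ) % 8 = 1 := by have := s2n_mod8 d hd0 h1; omega
  have hbK : ∀ {K : Type} [Field K] [CharZero K], ((d : ℤ) : K) ≠ 0 := by
    intro K _ _
    exact_mod_cast hdz
  refine ⟨?_, hdb, ?_, ?_⟩
  · rw [Int.squarefree_natCast]
    exact hm.sqf.squarefree_of_dvd hdm
  · show QSol ℝ (-2 * aE v D m) ((D : ℤ) ^ 4 * (m : ℤ) ^ 2) (d : ℤ)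
    have h' : (0 : ℝ) < ((d : ℤ) : ℝ) := by
      exact_mod_cast Nat.pos_of_ne_zero hd0
    exact loc_one (t := Real.sqrt ((d : ℤ) : ℝ)) (by rw [Real.sq_sqrt h'.le])
  · intro p hp
    show QSol ℚ_[p] (-2 * aE v D m) ((D : ℤ) ^ 4 * (m : ℤ) ^ 2) (d : ℤ)
    have hpp : p.Prime := hp.1
    by_cases hp2 : p = 2
    · subst hp2
      obtain ⟨t, ht⟩ := padic_two_sq h8
      exact loc_one ht
    have hpz : Prime (p : ℤ) := Nat.prime_iff_prime_int.mp hpp
    have hp2z : ¬ (p : ℤ) ∣ 2 := by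
      intro h
      have h3 : p ∣ 2 := by exact_mod_cast h
      exact hp2 ((Nat.prime_dvd_prime_iff_eq hpp Nat.prime_two).1 h3)
    have hz : ∀ n : ℤ, ¬ (p : ℤ) ∣ n → (n : ZMod p) ≠ 0 := by
      intro n hn
      rwa [Ne, ZMod.intCast_zmod_eq_zero_iff_dvd]
    by_cases hpm : p ∣ m
    · by_cases hpd : p ∣ d
      · have hp8 := h1 p hpp hpd
        have hlk : legendreSym p k = 1 := by
          have := (hK p hpp hpm).2 hpd
          rw [hkm] at this
          exact s2n_leg this
        have hlD : legendreSym p (D : ℤ) = 1 := s2n_leg (hm.jacD hpp hpm)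
        have hlDk : legendreSym p (D * k) = 1 := by
          rw [legendreSym.mul, hlD, hlk, one_mul]
        have hl1 : legendreSym p (-1) = 1 := by
          rw [legendreSym.at_neg_one hp2]
          exact ZMod.χ₄_nat_one_mod_four (by omega)
        obtain ⟨u, hu⟩ := padic_sq hp2 (s2n_nd hlDk) hlDk
        obtain ⟨t, ht⟩ := padic_sq hp2 (s2n_nd hl1) hl1
        refine s2n_gen hdb hbK (M := u * (v + 2 * t)) (N := 0) ?_
        have hmk : (m : ℚ_[p]) = d * k := by rw [hk]; push_cast; ring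
        have hM : (u * (v + 2 * t)) ^ 2 = (D : ℚ_[p]) * k * (v + 2 * t) ^ 2 := by
          rw [mul_pow, ← hu]; push_cast; ring
        rw [hM]
        unfold aE
        push_cast at ht ⊢
        rw [hmk]
        have hD : (D : ℚ_[p]) = v ^ 2 + 4 := by
          have := h.eq
          rw [this]; push_cast; ring
        linear_combination ((D : ℚ_[p]) ^ 2 * d ^ 2 * k ^ 2 * (16 * (v : ℚ_[p]) ^ 2
          + 32 * v * t + 16 * (t ^ 2 + 1))) * ht
          - ((D : ℚ_[p]) ^ 2 * d ^ 2 * k ^ 2 * (D + v ^ 2 + 4)) * hD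
      · have hlb : legendreSym p d = 1 := s2n_leg ((hK p hpp hpm).1 hpd)
        obtain ⟨t, ht⟩ := padic_sq hp2 (n := (d : ℤ)) (by exact_mod_cast hpd) hlb
        exact loc_one ht
    by_cases hpDv : p = D ∨ p ∣ v
    · have hl : legendreSym p (d : ℤ) = 1 := by
        rcases hpDv with e | e
        · subst e
          exact s2n_leg (jac_D_dvd h hm hdZ)
        · exact s2n_leg (jac_q_dvd h hm hdZ h8 hpp e)
      obtain ⟨t, ht⟩ := padic_sq hp2 (s2n_nd hl) hl
      exact loc_one ht
    · have hpD : ¬ (p : ℤ) ∣ D := by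
        intro h3
        have h4 : p ∣ D := by exact_mod_cast h3
        exact hpDv (Or.inl ((Nat.prime_dvd_prime_iff_eq hpp h.prime).1 h4))
      have hpv : ¬ (p : ℤ) ∣ v := by
        intro h3
        exact hpDv (Or.inr (by exact_mod_cast h3))
      have hpmz : ¬ (p : ℤ) ∣ (m : ℤ) := by exact_mod_cast hpm
      have hpd : ¬ (p : ℤ) ∣ (d : ℤ) := fun h => hpmz (h.trans (by exact_mod_cast hdm))
      have hDm : ¬ (p : ℤ) ∣ D * m := fun h => (hpz.dvd_or_dvd h).elim hpD hpmz
      have z2 : (2 : ZMod p) ≠ 0 := by have := hz 2 hp2z; exact_mod_cast this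
      have zD : (D : ZMod p) ≠ 0 := by have := hz D hpD; exact_mod_cast this
      have zv : (v : ZMod p) ≠ 0 := by have := hz v hpv; exact_mod_cast this
      have zm : (m : ZMod p) ≠ 0 := by have := hz m hpmz; exact_mod_cast this
      have hDZ : (D : ZMod p) = v ^ 2 + 4 := by
        have := h.eq
        rw [this]; push_cast; ring
      have hDQ : (D : ℚ_[p]) = v ^ 2 + 4 := by
        have := h.eq
        rw [this]; push_cast; ring
      rcases legendreSym.eq_one_or_neg_one p (hz _ hpd) with hl | hl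
      · obtain ⟨t, ht⟩ := padic_sq hp2 hpd hl
        exact loc_one ht
      set A : ZMod p := m * D * ((v : ZMod p) ^ 2 - 4) with hA
      have hdisc : (-2 * A) ^ 2 - 4 * ((D : ZMod p) ^ 2 * m) ^ 2
          = -(8 * D * v * m) ^ 2 := by
        rw [hA, hDZ]; ring
      have z8 : (8 * D * v * m : ZMod p) ≠ 0 := by
        have : (8 : ZMod p) = 2 * 2 * 2 := by norm_num
        rw [this]
        exact mul_ne_zero (mul_ne_zero (mul_ne_zero (mul_ne_zero (mul_ne_zero z2 z2) z2) zD) zv) zm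
      have z4 : (4 * D * v * m : ZMod p) ≠ 0 := by
        have : (4 : ZMod p) = 2 * 2 := by norm_num
        rw [this]
        exact mul_ne_zero (mul_ne_zero (mul_ne_zero (mul_ne_zero z2 z2) zD) zv) zm
      obtain ⟨x0, hx0, hx1⟩ := exists_nonres hp2 (a := -2 * A) (b := ((D : ZMod p) ^ 2 * m) ^ 2)
        (pow_ne_zero 2 (mul_ne_zero (pow_ne_zero 2 zD) zm)) ⟨(D : ZMod p) ^ 2 * m, by ring⟩ (by
          rw [hdisc, neg_ne_zero]
          exact pow_ne_zero 2 z8)
      obtain ⟨x, hx⟩ := ZMod.intCast_surjective x0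
      have hx00 : x0 ≠ 0 := by rintro rfl; exact hx0 (IsSquare.zero)
      have hxl : legendreSym p x = -1 := by
        rw [legendreSym.eq_neg_one_iff, hx]
        exact hx0
      by_cases hxz : x0 ^ 2 + -2 * A * x0 + ((D : ZMod p) ^ 2 * m) ^ 2 = 0
      · -- `-1` is a square
        set j : ZMod p := (x0 - A) / (4 * D * v * m) with hj
        have hj2 : j ^ 2 = -1 := by
          rw [hj, div_pow, div_eq_iff (pow_ne_zero 2 z4)]
          have : (x0 - A) ^ 2 = A ^ 2 - ((D : ZMod p) ^ 2 * m) ^ 2 := by linear_combination hxz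
          rw [this, hA, hDZ]; ring
        have hxj : x0 = D * m * ((v : ZMod p) + 2 * j) ^ 2 := by
          have e : x0 = A + 4 * D * v * m * j := by rw [hj, mul_div_cancel₀ _ z4]; ring
          calc x0 = A + 4 * D * v * m * j := e
            _ = D * m * ((v : ZMod p) + 2 * j) ^ 2 := by
              rw [hA]
              linear_combination (-4 * (D : ZMod p) * m) * hj2
        have hp1 : ¬ (p : ℤ) ∣ -1 := by
          rw [dvd_neg]
          exact fun h => hpz.not_isUnit (isUnit_of_dvd_one h)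
        have hl1 : legendreSym p (-1) = 1 := by
          rw [legendreSym.eq_one_iff p (hz _ hp1)]
          exact ⟨j, by push_cast; rw [← hj2]; ring⟩
        have hlDm : legendreSym p (D * m) = -1 := by
          rw [legendreSym.eq_neg_one_iff]
          rintro ⟨s, hs⟩
          apply hx0
          refine ⟨s * (v + 2 * j), ?_⟩
          push_cast at hs
          rw [hxj]
          linear_combination ((v : ZMod p) + 2 * j) ^ 2 * hs
        have hl3 : legendreSym p (D * m * d) = 1 := by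
          rw [legendreSym.mul, hlDm, hl]; norm_num
        obtain ⟨u, hu⟩ := padic_sq hp2 (s2n_nd hl3) hl3
        obtain ⟨t, ht⟩ := padic_sq hp2 hp1 hl1
        refine s2n_gen hdb hbK (M := u * (v + 2 * t) / ((d : ℤ) : ℚ_[p])) (N := 0) ?_
        have hd' : ((d : ℤ) : ℚ_[p]) ≠ 0 := hbK
        have hM : ((d : ℤ) : ℚ_[p]) * (u * (v + 2 * t) / ((d : ℤ) : ℚ_[p])) ^ 2
            = D * m * (v + 2 * t) ^ 2 := by
          push_cast at hu hd' ⊢
          field_simp
          rw [← hu]; ring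
        rw [hM]
        unfold aE
        push_cast at ht ⊢
        linear_combination ((D : ℚ_[p]) ^ 2 * m ^ 2 * (16 * (v : ℚ_[p]) ^ 2
          + 32 * v * t + 16 * (t ^ 2 + 1))) * ht
          - ((D : ℚ_[p]) ^ 2 * m ^ 2 * (D + v ^ 2 + 4)) * hDQ
      · have hn0 : ((x * (x ^ 2 + -2 * aE v D m * x + (D ^ 2 * m) ^ 2) : ℤ) : ZMod p) ≠ 0 := by
          unfold aE
          push_cast
          rw [hx]
          exact mul_ne_zero hx00 hxz
        have hn1 : legendreSym p (x * (x ^ 2 + -2 * aE v D m * x + (D ^ 2 * m) ^ 2)) = 1 := by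
          rw [legendreSym.eq_one_iff p hn0]
          unfold aE
          push_cast
          rw [hx]
          exact hx1
        obtain ⟨t, ht⟩ := padic_sq hp2 (s2n_nd hn1) hn1
        have hxd : legendreSym p (x * d) = 1 := by
          rw [legendreSym.mul, hxl, hl]; norm_num
        have hxp : ¬ (p : ℤ) ∣ x := by
          rw [← ZMod.intCast_zmod_eq_zero_iff_dvd, hx]
          exact hx00
        obtain ⟨s, hs⟩ := padic_sq hp2 (s2n_nd hxd) hxd
        have hx3 : (x : ℚ_[p]) ≠ 0 := loc_int_ne hxp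
        have hd' : ((d : ℤ) : ℚ_[p]) ≠ 0 := hbK
        push_cast at ht hs hd'
        have hs0 : s ≠ 0 := by
          rintro rfl
          rw [zero_pow two_ne_zero] at hs
          exact mul_ne_zero hx3 hd' hs
        refine s2n_gen hdb hbK (M := s / ((d : ℤ) : ℚ_[p])) (N := t / s) ?_
        push_cast
        have h8 : (d : ℚ_[p]) * (s / d) ^ 2 = x := by
          field_simp
          rw [← hs]
          ring
        rw [h8, div_pow, ← ht, ← hs]
        field_simp

end Pool.Agent.NCM
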