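import Pool.Agent.NCM.Defs
import Pool.Agent.RZ.BAS

set_option autoImplicit false

/-! Basic facts on the parameters and the family. -/

namespace Pool.Agent.NCM

open Pool.Agent.RZ (BAS_nat BAS_int jac_one jac_two)

variable {v D m : ℕ}

theorem Par.v_pos (h : Par v D) : 0 < v := by
  have := h.odd
  omega

theorem Par.eqZ (h : Par v D) : (D : ℤ) = (v : ℤ) ^ 2 + 4 := by
  have := h.eq
  rw [this]; push_cast; ring

theorem Par.D8 (h : Par v D) : D % 8 = 5 := by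
  have h1 := h.odd
  have h2 : v ^ 2 % 8 = 1 := by
    have : v % 8 = 1 ∨ v % 8 = 3 ∨ v % 8 = 5 ∨ v % 8 = 7 := by omega
    rw [Nat.pow_mod]
    rcases this with h | h | h | h <;> rw [h]
  have := h.eq
  omega

theorem Par.v_lt (h : Par v D) : v < D := by
  have := h.eq
  have := h.v_pos
  nlinarith

theorem Par.ndvd_v (h : Par v D) : ¬ D ∣ v := fun hd =>
  absurd (Nat.le_of_dvd h.v_pos hd) (not_le.2 h.v_lt)

theorem Par.D_odd (h : Par v D) : Odd D := by
  rw [Nat.odd_iff]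
  have := h.D8
  omega

theorem Par.jac_neg_one (h : Par v D) : jacobiSym (-1) D = 1 := by
  rw [jacobiSym.at_neg_one h.D_odd]
  exact ZMod.χ₄_nat_one_mod_four (by have := h.D8; omega)

theorem Par.jac_neg (h : Par v D) (x : ℤ) : jacobiSym (-x) D = jacobiSym x D := by
  rw [← neg_one_mul, jacobiSym.mul_left, h.jac_neg_one, one_mul]

theorem Par.jac_two (h : Par v D) : jacobiSym 2 D = -1 := by
  rw [jacobiSym.at_two h.D_odd, ZMod.χ₈_nat_eq_if_mod_eight]
  have := h.D8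
  rw [if_neg (by omega), if_neg (by omega)]

/-- `(D/q) = 1` for the primes `q` of `v`, as `D = 4` modulo `q` -/
theorem Par.jac_v {q : ℕ} (h : Par v D) (hq : q.Prime) (hqv : q ∣ v) :
    jacobiSym (D : ℤ) q = 1 := by
  have h3 := h.pr3 q hq hqv
  refine jac_one hq (y := 1) (z := 2) ?_ ?_
  · intro h2
    have h2' : q ∣ 2 := by exact_mod_cast h2
    have := Nat.le_of_dvd two_pos h2'
    have := hq.two_le
    omega
  · rw [h.eqZ]
    obtain ⟨k, hk⟩ := hqv
    refine ⟨q * k ^ 2, ?_⟩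
    rw [hk]; push_cast; ring

theorem Fam.m_ne (hm : Fam v D m) : m ≠ 0 := by
  have := hm.one_lt
  omega

theorem Fam.rz (hm : Fam v D m) : RZ.Fam m :=
  ⟨hm.one_lt, hm.mod8, hm.sqf, fun p hp => (hm.pr p hp).1⟩

theorem Fam.cls (hm : Fam v D m) {p : ℕ} (hp : p.Prime) (hpm : p ∣ m) :
    (p % 8 = 1 ∨ p % 8 = 7) ∧ jacobiSym (D : ℤ) p = 1 ∧
      ∀ q : ℕ, q.Prime → q ∣ v → jacobiSym (q : ℤ) p = 1 :=
  hm.pr p (Nat.mem_primeFactors.2 ⟨hp, hpm, hm.m_ne⟩)

theorem Fam.cls8 (hm : Fam v D m) {p : ℕ} (hp : p.Prime) (hpm : p ∣ m) :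
    p % 8 = 1 ∨ p % 8 = 7 := (hm.cls hp hpm).1

theorem Fam.jacD (hm : Fam v D m) {p : ℕ} (hp : p.Prime) (hpm : p ∣ m) :
    jacobiSym (D : ℤ) p = 1 := (hm.cls hp hpm).2.1

/-- a prime of `m` is odd -/
theorem Fam.ndvd_two (hm : Fam v D m) {p : ℕ} (hp : p.Prime) (hpm : p ∣ m) :
    ¬ (p : ℤ) ∣ 2 := by
  intro h
  have h2 : p ∣ 2 := by exact_mod_cast h
  have := Nat.le_of_dvd two_pos h2
  have := hp.two_le
  have := hm.cls8 hp hpm
  omega

theorem Fam.ndvd_D (hm : Fam v D m) {p : ℕ} (hp : p.Prime) (hpm : p ∣ m) :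
    ¬ (p : ℤ) ∣ D := by
  intro h
  have h1 := hm.jacD hp hpm
  have : Fact p.Prime := ⟨hp⟩
  rw [← jacobiSym.legendreSym.to_jacobiSym] at h1
  have h2 : legendreSym p (D : ℤ) = 0 := by
    rw [legendreSym.eq_zero_iff]
    exact (ZMod.intCast_zmod_eq_zero_iff_dvd _ p).2 h
  rw [h2] at h1
  exact zero_ne_one h1

theorem Fam.ndvd_v (hm : Fam v D m) {p : ℕ} (hp : p.Prime) (hpm : p ∣ m) :
    ¬ (p : ℤ) ∣ v := by
  intro h
  have h0 : p ∣ v := by exact_mod_cast h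
  have h1 := (hm.cls hp hpm).2.2 p hp h0
  have : Fact p.Prime := ⟨hp⟩
  rw [← jacobiSym.legendreSym.to_jacobiSym] at h1
  have h2 : legendreSym p (p : ℤ) = 0 := by
    rw [legendreSym.eq_zero_iff]
    simp
  rw [h2] at h1
  exact zero_ne_one h1

/-- reciprocity at `D = 1` modulo `4` -/
theorem jac_D_nat (h : Par v D) {n : ℕ} (hn : n % 2 = 1) :
    jacobiSym (n : ℤ) D = jacobiSym (D : ℤ) n :=
  jacobiSym.quadratic_reciprocity_one_mod_four' (Nat.odd_iff.2 hn) (by have := h.D8; omega)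

theorem jac_D_int (h : Par v D) {n : ℤ} (hn : n % 2 = 1) :
    jacobiSym n D = jacobiSym (D : ℤ) n.natAbs := by
  rw [← jac_D_nat h (by omega)]
  rcases Int.natAbs_eq n with h1 | h1
  · conv_lhs => rw [h1]
  · conv_lhs => rw [h1]
    rw [h.jac_neg]

theorem jac_nat_one {a : ℤ} {n : ℕ} (hn : n ≠ 0)
    (hl : ∀ l : ℕ, l.Prime → l ∣ n → jacobiSym a l = 1) : jacobiSym a n = 1 := by
  induction n using Nat.recOnMul with
  | zero => exact absurd rfl hn
  | one => exact jacobiSym.one_right a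
  | prime p hp => exact hl p hp dvd_rfl
  | mul x y ihx ihy =>
    have hx0 : x ≠ 0 := left_ne_zero_of_mul hn
    have hy0 : y ≠ 0 := right_ne_zero_of_mul hn
    rw [jacobiSym.mul_right' a hx0 hy0, ihx hx0 fun l hl' hlx => hl l hl' (hlx.mul_right y),
      ihy hy0 fun l hl' hly => hl l hl' (hly.mul_left x), one_mul]

/-- an odd number all of whose primes `l` have `(D/l) = 1` is a square modulo `D` -/
theorem jac_D_one (h : Par v D) {n : ℤ} (hn : n % 2 = 1)
    (hl : ∀ l : ℕ, l.Prime → (l : ℤ) ∣ n → jacobiSym (D : ℤ) l = 1) : jacobiSym n D = 1 := by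
  rw [jac_D_int h hn]
  refine jac_nat_one (by omega) fun l hl' hln => hl l hl' ?_
  exact Int.natCast_dvd.2 hln

theorem Fam.dvd8 (hm : Fam v D m) {c : ℤ} (hc : c ∣ m) : c % 8 = 1 ∨ c % 8 = 7 :=
  RZ.dvd_mod8 hm.rz hc

/-- the divisors of `m` are squares modulo `D` -/
theorem jac_D_dvd (h : Par v D) (hm : Fam v D m) {c : ℤ} (hc : c ∣ m) : jacobiSym c D = 1 := by
  refine jac_D_one h (by have := hm.dvd8 hc; omega) fun l hl hlc => hm.jacD hl ?_
  exact_mod_cast hlc.trans hc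

/-- the divisors `c = 1` modulo `8` of `m` are squares modulo the primes of `v` -/
theorem jac_q_dvd (h : Par v D) (hm : Fam v D m) {c : ℤ} (hc : c ∣ m) (h8 : c % 8 = 1) {q : ℕ}
    (hq : q.Prime) (hqv : q ∣ v) : jacobiSym c q = 1 := by
  have hq3 := h.pr3 q hq hqv
  have hqo : Odd q := Nat.odd_iff.2 (by omega)
  have hc0 : c ≠ 0 := by rintro rfl; simp at h8
  have h1 : jacobiSym (q : ℤ) c.natAbs = 1 := by
    refine jac_nat_one (by omega) fun l hl hlc => (hm.cls hl ?_).2.2 q hq hqv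
    have : (l : ℤ) ∣ c := Int.natCast_dvd.2 hlc
    exact_mod_cast this.trans hc
  rcases Int.natAbs_eq c with h2 | h2
  · rw [h2, jacobiSym.quadratic_reciprocity_one_mod_four (by omega) hqo]
    exact h1
  · rw [h2, jacobiSym.neg _ hqo, ZMod.χ₄_nat_three_mod_four hq3,
      jacobiSym.quadratic_reciprocity_three_mod_four (by omega) hq3, h1]
    norm_num

theorem st_mod (n : ℕ) (h : n % 8 = 1 ∨ n % 8 = 7) : st n % 8 = 1 := by
  unfold st
  split_ifs <;> omega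

theorem st_natAbs {c : ℤ} (h8 : c % 8 = 1) : st c.natAbs = c := by
  unfold st
  split_ifs with h <;> omega

/-- the class bit through a square root -/
theorem lamS_eq (h : Par v D) {n : ℕ} {x y : ℤ} (hx : ¬ (D : ℤ) ∣ x) (hy : ¬ (D : ℤ) ∣ y)
    (hd : (D : ℤ) ∣ st n * x ^ 2 - y ^ 2) : lamS D n = jacobiSym x D * jacobiSym y D := by
  have : Fact D.Prime := ⟨h.prime⟩
  have hx0 : (x : ZMod D) ≠ 0 := by rwa [Ne, ZMod.intCast_zmod_eq_zero_iff_dvd]
  have hy0 : (y : ZMod D) ≠ 0 := by rwa [Ne, ZMod.intCast_zmod_eq_zero_iff_dvd]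
  have he : ((st n : ℤ) : ZMod D) * (x : ZMod D) ^ 2 = (y : ZMod D) ^ 2 := by
    have := (ZMod.intCast_zmod_eq_zero_iff_dvd _ D).2 hd
    push_cast at this
    linear_combination this
  have hxy0 : ((x * y : ℤ) : ZMod D) ≠ 0 := by push_cast; exact mul_ne_zero hx0 hy0
  have hneg : IsSquare ((-1 : ℤ) : ZMod D) := by
    have h1 := h.jac_neg_one
    rw [← jacobiSym.legendreSym.to_jacobiSym, legendreSym.eq_one_iff D (by simp)] at h1
    exact h1
  have hiff : (∃ z : ZMod D, z ^ 4 = ((st n : ℤ) : ZMod D)) ↔ IsSquare ((x * y : ℤ) : ZMod D) := by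
    push_cast
    constructor
    · rintro ⟨z, hz⟩
      have h1 : (z ^ 2 * x) ^ 2 = (y : ZMod D) ^ 2 := by
        rw [← he, ← hz]; ring
      obtain ⟨i, hi⟩ := hneg
      push_cast at hi
      rcases sq_eq_sq_iff_eq_or_eq_neg.1 h1 with h2 | h2
      · exact ⟨z * x, by rw [← h2]; ring⟩
      · refine ⟨i * z * x, ?_⟩
        have : (y : ZMod D) = -(z ^ 2 * x) := by rw [h2]; ring
        rw [this]
        linear_combination (z ^ 2 * (x : ZMod D) ^ 2) * hi
    · rintro ⟨r, hr⟩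
      refine ⟨r / x, ?_⟩
      rw [div_pow, div_eq_iff (pow_ne_zero 4 hx0)]
      have h1 : r ^ 4 = (x : ZMod D) ^ 2 * (y : ZMod D) ^ 2 := by
        have : r ^ 4 = (r * r) ^ 2 := by ring
        rw [this, ← hr]; ring
      rw [h1, ← he]; ring
  rw [← jacobiSym.mul_left, ← jacobiSym.legendreSym.to_jacobiSym]
  unfold lamS lam
  by_cases hsq : IsSquare ((x * y : ℤ) : ZMod D)
  · rw [if_pos (hiff.2 hsq), if_pos rfl, (legendreSym.eq_one_iff D hxy0).2 hsq]
  · rw [if_neg (fun h1 => hsq (hiff.1 h1)), if_neg one_ne_zero, (legendreSym.eq_neg_one_iff D).2 hsq]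

theorem lam_of_lamS {n : ℕ} (h : lamS D n = 1) : lam D n = 0 := by
  unfold lamS at h
  by_contra hne
  rw [if_neg hne] at h
  norm_num at h

theorem lam_zero (h : Par v D) {c x y : ℤ} (h8 : c % 8 = 1) (hx : ¬ (D : ℤ) ∣ x)
    (hy : ¬ (D : ℤ) ∣ y) (hd : (D : ℤ) ∣ c * x ^ 2 - y ^ 2)
    (h1 : jacobiSym x D * jacobiSym y D = 1) : lam D c.natAbs = 0 := by
  apply lam_of_lamS
  rw [lamS_eq h hx hy (by rw [st_natAbs h8]; exact hd), h1]

theorem lamS_pm (n : ℕ) : lamS D n = 1 ∨ lamS D n = -1 := by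
  unfold lamS
  split_ifs
  · exact Or.inl rfl
  · exact Or.inr rfl

end Pool.Agent.NCM
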