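import Pool.Agent.NCM.BAS
import Pool.Agent.H23.Selmer
import Pool.Agent.ShF.LOC
import Pool.Agent.ShF.QALPHA

set_option autoImplicit false

/-!
The everywhere locally soluble classes of the curve, other inclusion.

Proof. `b = s D^i d`. Write `A = -4Dm`, `B = Dv^2m`: `aE = A + B`, `bE = A B`, `x^2 + aE x + bE = (x+A)(x+B)`.
Solutions: `b` a square (`loc_one`); `-b` a square (`M = 0`, `e = 1`: `bE / b = (2Dvm)^2 / (-b)`);
`-A b = 4Dm b` a square (`loc_root`, `N = 0`); `-B b = -Dv^2m b` a square (`loc_root` with `A`, `B` exchanged).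
Real: `b > 0` or `-b > 0`. `p = 2`, `p = D`, `p | v`: `d* = ± d` is a square in `ℚ_p` (`st d = 1` modulo `8`,
`padic_two_sq`; `jac_D_dvd`, `jac_q_dvd`, `padic_sq`), `m` too, so `b` is a square times `1, -1, D m, -D m`
(`i = 0`: `1`, `-1`; `i = 1`: `D d* m` times square).
`p | m`, `p ∤ d`: `p = 1` modulo `8`: `(b/p) = (d/p) = 1`; `p = 7`: `b` or `-b` is a square.
`p | d`: `m / d` is a unit, `4Dm b = 4 D^(i+1) s d^2 (m/d)`: a square or minus a square (`p = 7` modulo `8`); for `p = 1`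
modulo `8` by `CS`. `p ∤ 2Dvm`: `ShF.loc_good`. Template `RZ/SL1S.lean`.
-/

namespace Pool.Agent.NCM

open Pool.Agent.H23 Pool.Agent.ShF

section
variable {K : Type*} [Field K] [CharZero K]

/-- one of `b`, `-b`, `Dmb`, `-Dmb` is a square -/
private lemma sl1s_key {v D m : ℕ} {b : ℤ} (hb : b ≠ 0) (hdb : b ∣ bE v D m)
    (h : ∃ t : K, (b : K) = t ^ 2 ∨ -(b : K) = t ^ 2 ∨ (D : K) * m * b = t ^ 2 ∨
      -((D : K) * m * b) = t ^ 2) : QSol K (aE v D m) (bE v D m) b := by
  have hbK : (b : K) ≠ 0 := by exact_mod_cast hb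
  obtain ⟨t, h | h | h | h⟩ := h
  · exact loc_one h
  · have ht : t ≠ 0 := by
      rintro rfl
      rw [zero_pow two_ne_zero] at h
      exact hbK (neg_eq_zero.1 h)
    obtain ⟨c, hc⟩ := hdb
    have h1 : bE v D m / b = c := by rw [hc, Int.mul_ediv_cancel_left _ hb]
    have h2 : ((bE v D m : ℤ) : K) = b * c := by
      exact_mod_cast congrArg (fun z : ℤ => (z : K)) hc
    refine ⟨2 * D * v * m / t, 0, 1, Or.inr one_ne_zero, ?_⟩
    rw [h1, div_pow, ← h]
    unfold bE at h2
    push_cast at h2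
    field_simp
    linear_combination h2
  · have e1 : aE v D m = (-4 * D * m) + (D * (v : ℤ) ^ 2 * m) := by unfold aE; ring
    have e2 : bE v D m = (-4 * D * m) * (D * (v : ℤ) ^ 2 * m) := by unfold bE; ring
    rw [e1, e2]
    rw [e2] at hdb
    refine loc_root hdb hbK (s := 2 * t) ?_
    push_cast
    linear_combination 4 * h
  · have e1 : aE v D m = (D * (v : ℤ) ^ 2 * m) + (-4 * D * m) := by unfold aE; ring
    have e2 : bE v D m = (D * (v : ℤ) ^ 2 * m) * (-4 * D * m) := by unfold bE; ring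
    rw [e1, e2]
    rw [e2] at hdb
    refine loc_root hdb hbK (s := v * t) ?_
    push_cast
    linear_combination (v : K) ^ 2 * h

/-- `b = s D^i d` and `s d m^i` or its negative a square -/
private lemma sl1s_key2 {v D m : ℕ} {s : ℤ} {i d : ℕ} (hi : i = 0 ∨ i = 1)
    (hb : s * (D : ℤ) ^ i * (d : ℤ) ≠ 0) (hdb : s * (D : ℤ) ^ i * (d : ℤ) ∣ bE v D m)
    (h : ∃ t : K, ((s * d * (m : ℤ) ^ i : ℤ) : K) = t ^ 2 ∨
      -((s * d * (m : ℤ) ^ i : ℤ) : K) = t ^ 2) :
    QSol K (aE v D m) (bE v D m) (s * (D : ℤ) ^ i * (d : ℤ)) := by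
  refine sl1s_key hb hdb ?_
  obtain ⟨t, h⟩ := h
  rcases hi with rfl | rfl
  · refine ⟨t, ?_⟩
    push_cast at h ⊢
    rcases h with h | h
    · exact Or.inl (by linear_combination h)
    · exact Or.inr (Or.inl (by linear_combination h))
  · refine ⟨D * t, ?_⟩
    push_cast at h ⊢
    rcases h with h | h
    · exact Or.inr (Or.inr (Or.inl (by linear_combination (D : K) ^ 2 * h)))
    · exact Or.inr (Or.inr (Or.inr (by linear_combination (D : K) ^ 2 * h)))

end

private lemma sl1s_m1 {p : ℕ} [Fact p.Prime] (h : p % 8 = 1) : legendreSym p (-1) = 1 := by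
  have hp2 : p ≠ 2 := by rintro rfl; norm_num at h
  rw [legendreSym.at_neg_one hp2]
  exact ZMod.χ₄_nat_one_mod_four (by omega)

private lemma sl1s_m7 {p : ℕ} [Fact p.Prime] (h : p % 8 = 7) : legendreSym p (-1) = -1 := by
  have hp2 : p ≠ 2 := by rintro rfl; norm_num at h
  rw [legendreSym.at_neg_one hp2]
  exact ZMod.χ₄_nat_three_mod_four (by omega)

private lemma sl1s_leg {p : ℕ} [Fact p.Prime] {n : ℤ} (h : jacobiSym n p = 1) :
    legendreSym p n = 1 := by
  rw [jacobiSym.legendreSym.to_jacobiSym, h]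

private lemma sl1s_nd {p : ℕ} [Fact p.Prime] {n : ℤ} (h : legendreSym p n = 1) :
    ¬ (p : ℤ) ∣ n := by
  intro hd
  have h2 : legendreSym p n = 0 := by
    rw [legendreSym.eq_zero_iff]
    exact (ZMod.intCast_zmod_eq_zero_iff_dvd _ p).2 hd
  rw [h2] at h
  exact zero_ne_one h

/-- for `p = 7 mod 8` a `p`-adic unit or its negative is a square -/
private lemma sl1s_pm {p : ℕ} [Fact p.Prime] (h8 : p % 8 = 7) {n : ℤ} (hn : ¬ (p : ℤ) ∣ n) :
    ∃ t : ℚ_[p], (n : ℚ_[p]) = t ^ 2 ∨ -(n : ℚ_[p]) = t ^ 2 := by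
  have hp2 : p ≠ 2 := by rintro rfl; norm_num at h8
  have hn0 : (n : ZMod p) ≠ 0 := by rwa [Ne, ZMod.intCast_zmod_eq_zero_iff_dvd]
  rcases legendreSym.eq_one_or_neg_one p hn0 with h1 | h1
  · obtain ⟨t, ht⟩ := padic_sq hp2 hn h1
    exact ⟨t, Or.inl ht⟩
  · have h2 : legendreSym p (-n) = 1 := by
      rw [show -n = -1 * n by ring, legendreSym.mul, h1, sl1s_m7 h8]; norm_num
    obtain ⟨t, ht⟩ := padic_sq hp2 (n := -n) (by rwa [dvd_neg]) h2
    exact ⟨t, Or.inr (by rw [← ht]; push_cast; ring)⟩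

open Pool.Agent.H23 in
theorem sel1_suf {v D m : ℕ} (h : Par v D) (hm : Fam v D m) {s : ℤ} {i d : ℕ}
    (hs : s = 1 ∨ s = -1) (hi : i = 0 ∨ i = 1) (hd : d ∣ m) (hC : RZ.CS m d) :
    s * (D : ℤ) ^ i * (d : ℤ) ∈ Sel (aE v D m) (bE v D m) := by
  have hm0 : m ≠ 0 := hm.m_ne
  obtain ⟨k, hk⟩ := hd
  have hd0 : d ≠ 0 := by rintro rfl; simp at hk; exact hm0 hk
  have hk0 : k ≠ 0 := by rintro rfl; simp at hk; exact hm0 hk
  have hkm : m / d = k := by rw [hk, Nat.mul_div_cancel_left _ (Nat.pos_of_ne_zero hd0)]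
  have hD0 : D ≠ 0 := h.prime.ne_zero
  have hsq : s ^ 2 = 1 := by rcases hs with rfl | rfl <;> norm_num
  have hs0 : s ≠ 0 := by rcases hs with rfl | rfl <;> norm_num
  have hdZ : (d : ℤ) ∣ m := by rw [hk]; push_cast; exact dvd_mul_right _ _
  have hd8 := hm.dvd8 hdZ
  have hdN8 : d % 8 = 1 ∨ d % 8 = 7 := by omega
  have hm8 : (m : ℤ) % 8 = 1 := by have := hm.mod8; omega
  have hb0 : s * (D : ℤ) ^ i * (d : ℤ) ≠ 0 :=
    mul_ne_zero (mul_ne_zero hs0 (pow_ne_zero _ (by exact_mod_cast hD0))) (by exact_mod_cast hd0)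
  have hdb : s * (D : ℤ) ^ i * (d : ℤ) ∣ bE v D m := by
    rcases hi with rfl | rfl
    · refine ⟨-4 * s * D ^ 2 * v ^ 2 * d * k ^ 2, ?_⟩
      unfold bE
      rw [hk]; push_cast
      linear_combination (4 * (D : ℤ) ^ 2 * v ^ 2 * (d:ℤ) ^ 2 * k ^ 2) * hsq
    · refine ⟨-4 * s * D * v ^ 2 * d * k ^ 2, ?_⟩
      unfold bE
      rw [hk]; push_cast
      linear_combination (4 * (D : ℤ) ^ 2 * v ^ 2 * (d:ℤ) ^ 2 * k ^ 2) * hsq
  -- the normalised divisor
  have hst : st d = d ∨ st d = -d := by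
    unfold st
    split_ifs
    · exact Or.inr rfl
    · exact Or.inl rfl
  have hstm : st d ∣ (m : ℤ) := by
    rcases hst with e | e <;> rw [e]
    · exact hdZ
    · rwa [neg_dvd]
  have hst8 : st d % 8 = 1 := st_mod d hdN8
  -- `s d m^i = ± (st d) m^i`
  have hpm : ∀ {K : Type} [Field K] [CharZero K],
      (∃ t : K, ((st d * (m : ℤ) ^ i : ℤ) : K) = t ^ 2) →
      ∃ t : K, ((s * d * (m : ℤ) ^ i : ℤ) : K) = t ^ 2 ∨
        -((s * d * (m : ℤ) ^ i : ℤ) : K) = t ^ 2 := by
    intro K _ _ ht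
    obtain ⟨t, ht⟩ := ht
    refine ⟨t, ?_⟩
    rcases hst with e | e <;> rcases hs with rfl | rfl <;> rw [e] at ht <;> push_cast at ht ⊢
    · exact Or.inl (by linear_combination ht)
    · exact Or.inr (by linear_combination ht)
    · exact Or.inr (by linear_combination ht)
    · exact Or.inl (by linear_combination ht)
  refine ⟨?_, hdb, ?_, ?_⟩
  · rw [← Int.squarefree_natAbs, Int.natAbs_mul, Int.natAbs_mul]
    have h1 : s.natAbs = 1 := by rcases hs with rfl | rfl <;> norm_num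
    rw [h1, one_mul, Int.natAbs_pow]
    have hdsq : Squarefree d := hm.sqf.squarefree_of_dvd ⟨k, hk⟩
    rcases hi with rfl | rfl
    · simpa using hdsq
    · simp only [pow_one, Int.natAbs_natCast]
      rw [Nat.squarefree_mul_iff]
      refine ⟨?_, h.prime.squarefree, hdsq⟩
      rw [Nat.Prime.coprime_iff_not_dvd h.prime]
      intro hDd
      exact hm.ndvd_D h.prime (hDd.trans ⟨k, hk⟩) dvd_rfl
  · show QSol ℝ (aE v D m) (bE v D m) (s * (D : ℤ) ^ i * (d : ℤ))
    refine sl1s_key hb0 hdb ?_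
    rcases lt_or_gt_of_ne hb0 with h' | h'
    · have h'' : ((s * (D : ℤ) ^ i * (d : ℤ) : ℤ) : ℝ) < 0 := by exact_mod_cast h'
      exact ⟨Real.sqrt (-((s * (D : ℤ) ^ i * (d : ℤ) : ℤ) : ℝ)),
        Or.inr (Or.inl (by rw [Real.sq_sqrt (by linarith)]))⟩
    · have h'' : (0 : ℝ) < ((s * (D : ℤ) ^ i * (d : ℤ) : ℤ) : ℝ) := by exact_mod_cast h'
      exact ⟨Real.sqrt ((s * (D : ℤ) ^ i * (d : ℤ) : ℤ) : ℝ),
        Or.inl (by rw [Real.sq_sqrt h''.le])⟩
  · intro p hp
    show QSol ℚ_[p] (aE v D m) (bE v D m) (s * (D : ℤ) ^ i * (d : ℤ))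
    have hpp : p.Prime := hp.1
    have hpz : Prime (p : ℤ) := Nat.prime_iff_prime_int.mp hpp
    by_cases hp2 : p = 2
    · subst hp2
      refine sl1s_key2 hi hb0 hdb (hpm ?_)
      apply padic_two_sq
      rcases hi with rfl | rfl
      · rw [pow_zero, mul_one]; exact hst8
      · rw [pow_one, Int.mul_emod, hst8, hm8]; norm_num
    have hp2z : ¬ (p : ℤ) ∣ 2 := by
      intro h
      have h3 : p ∣ 2 := by exact_mod_cast h
      exact hp2 ((Nat.prime_dvd_prime_iff_eq hpp Nat.prime_two).1 h3)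
    by_cases hpm' : p ∣ m
    · -- `p ∣ m`
      have hp8 := hm.cls8 hpp hpm'
      have hps : ¬ (p : ℤ) ∣ s := by
        intro h
        have : (p : ℤ) ∣ 1 := by rw [← hsq]; exact dvd_pow h two_ne_zero
        exact hpz.not_isUnit (isUnit_of_dvd_one this)
      have hpD : ¬ (p : ℤ) ∣ D := hm.ndvd_D hpp hpm'
      have hDn : ∀ n : ℕ, ¬ (p : ℤ) ∣ (D : ℤ) ^ n := fun n h => hpD (hpz.dvd_of_dvd_pow h)
      have hlD : legendreSym p (D : ℤ) = 1 := sl1s_leg (hm.jacD hpp hpm')
      have hls : p % 8 = 1 → legendreSym p s = 1 := by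
        intro h
        rcases hs with rfl | rfl
        · exact legendreSym.at_one p
        · exact sl1s_m1 h
      have hlDn : ∀ n : ℕ, legendreSym p ((D : ℤ) ^ n) = 1 := by
        intro n
        induction n with
        | zero => rw [pow_zero]; exact legendreSym.at_one p
        | succ n ih => rw [pow_succ, legendreSym.mul, ih, hlD, one_mul]
      by_cases hpd : p ∣ d
      · have hpk : ¬ (p : ℤ) ∣ k := by
          intro h
          have h' : p ∣ k := by exact_mod_cast h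
          have h2 : p * p ∣ m := by rw [hk]; exact mul_dvd_mul hpd h'
          have := hm.sqf p h2
          exact hpp.one_lt.ne' (Nat.isUnit_iff.1 this)
        have hpw : ¬ (p : ℤ) ∣ s * (D : ℤ) ^ (i + 1) * k := by
          intro h
          rcases hpz.dvd_or_dvd h with h | h
          · rcases hpz.dvd_or_dvd h with h | h
            · exact hps h
            · exact hDn _ h
          · exact hpk h
        refine sl1s_key hb0 hdb ?_
        have hgo : (∃ t : ℚ_[p], ((s * (D : ℤ) ^ (i + 1) * k : ℤ) : ℚ_[p]) = t ^ 2 ∨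
            -((s * (D : ℤ) ^ (i + 1) * k : ℤ) : ℚ_[p]) = t ^ 2) := by
          rcases hp8 with hp8 | hp8
          · have hlw : legendreSym p (s * (D : ℤ) ^ (i + 1) * k) = 1 := by
              rw [legendreSym.mul, legendreSym.mul, hls hp8, hlDn]
              have := (hC p hpp hpm' hp8).2 hpd
              rw [hkm] at this
              rw [sl1s_leg this]; norm_num
            obtain ⟨t, ht⟩ := padic_sq hp2 hpw hlw
            exact ⟨t, Or.inl ht⟩
          · exact sl1s_pm hp8 hpw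
        obtain ⟨t, ht⟩ := hgo
        have hmK : (m : ℚ_[p]) = d * k := by
          have : ((m : ℕ) : ℚ_[p]) = ((d * k : ℕ) : ℚ_[p]) := by rw [hk]
          rw [this]; push_cast; ring
        refine ⟨d * t, ?_⟩
        rw [hmK]
        push_cast at ht ⊢
        rcases ht with ht | ht
        · exact Or.inr (Or.inr (Or.inl (by linear_combination (d : ℚ_[p]) ^ 2 * ht)))
        · exact Or.inr (Or.inr (Or.inr (by linear_combination (d : ℚ_[p]) ^ 2 * ht)))
      · have hpb : ¬ (p : ℤ) ∣ s * (D : ℤ) ^ i * (d : ℤ) := by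
          intro h
          rcases hpz.dvd_or_dvd h with h | h
          · rcases hpz.dvd_or_dvd h with h | h
            · exact hps h
            · exact hDn _ h
          · exact hpd (by exact_mod_cast h)
        refine sl1s_key hb0 hdb ?_
        rcases hp8 with hp8 | hp8
        · have hlb : legendreSym p (s * (D : ℤ) ^ i * (d : ℤ)) = 1 := by
            rw [legendreSym.mul, legendreSym.mul, hls hp8, hlDn]
            rw [sl1s_leg ((hC p hpp hpm' hp8).1 hpd)]; norm_num
          obtain ⟨t, ht⟩ := padic_sq hp2 hpb hlb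
          exact ⟨t, Or.inl ht⟩
        · obtain ⟨t, ht | ht⟩ := sl1s_pm hp8 hpb
          · exact ⟨t, Or.inl ht⟩
          · exact ⟨t, Or.inr (Or.inl ht)⟩
    have hpmz : ¬ (p : ℤ) ∣ (m : ℤ) := by exact_mod_cast hpm'
    by_cases hpDv : p = D ∨ p ∣ v
    · -- `st d` and `m` are squares
      refine sl1s_key2 hi hb0 hdb (hpm ?_)
      have hl : ∀ c : ℤ, c ∣ (m : ℤ) → c % 8 = 1 → legendreSym p c = 1 := by
        intro c hc hc8
        rcases hpDv with e | e
        · subst e
          exact sl1s_leg (jac_D_dvd h hm hc)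
        · exact sl1s_leg (jac_q_dvd h hm hc hc8 hpp e)
      have hl2 : legendreSym p (st d * (m : ℤ) ^ i) = 1 := by
        rw [legendreSym.mul, hl _ hstm hst8, one_mul]
        rcases hi with rfl | rfl
        · rw [pow_zero]; exact legendreSym.at_one p
        · rw [pow_one]; exact hl _ dvd_rfl hm8
      exact padic_sq hp2 (sl1s_nd hl2) hl2
    · -- good reduction
      have hpD : ¬ (p : ℤ) ∣ D := by
        intro h3
        have h4 : p ∣ D := by exact_mod_cast h3
        exact hpDv (Or.inl ((Nat.prime_dvd_prime_iff_eq hpp h.prime).1 h4))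
      have hpv : ¬ (p : ℤ) ∣ v := by
        intro h3
        exact hpDv (Or.inr (by exact_mod_cast h3))
      have hDm : ¬ (p : ℤ) ∣ D * m := fun h => (hpz.dvd_or_dvd h).elim hpD hpmz
      have hA : ¬ (p : ℤ) ∣ -4 * D * m := by
        intro h3
        have h4 : (p : ℤ) ∣ 2 * (2 * (D * m)) := by
          have : (2 * (2 * (D * m)) : ℤ) = -(-4 * D * m) := by ring
          rw [this, dvd_neg]; exact h3
        rcases hpz.dvd_or_dvd h4 with h5 | h5
        · exact hp2z h5
        · rcases hpz.dvd_or_dvd h5 with h6 | h6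
          · exact hp2z h6
          · exact hDm h6
      have hB : ¬ (p : ℤ) ∣ D * (v : ℤ) ^ 2 * m := by
        intro h3
        rcases hpz.dvd_or_dvd h3 with h4 | h4
        · rcases hpz.dvd_or_dvd h4 with h5 | h5
          · exact hpD h5
          · exact hpv (hpz.dvd_of_dvd_pow h5)
        · exact hpmz h4
      have hAB : ¬ (p : ℤ) ∣ -4 * D * m - D * (v : ℤ) ^ 2 * m := by
        have e : -4 * (D : ℤ) * m - D * (v : ℤ) ^ 2 * m = -(D * (D * m)) := by
          have := h.eqZ
          linear_combination ((D : ℤ) * m) * this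
        rw [e, dvd_neg]
        exact fun h => (hpz.dvd_or_dvd h).elim hpD hDm
      have e1 : aE v D m = (-4 * D * m) + (D * (v : ℤ) ^ 2 * m) := by unfold aE; ring
      have e2 : bE v D m = (-4 * D * m) * (D * (v : ℤ) ^ 2 * m) := by unfold bE; ring
      rw [e2] at hdb
      rw [e1, e2]
      exact loc_good hp2 hdb hA hB hAB

end Pool.Agent.NCM
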