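import Pool.Agent.NCM.LOC2

set_option autoImplicit false

/-!
The everywhere locally soluble classes of the isogenous curve, one inclusion.

Proof. `b` squarefree, `b | D^4 m^2`, `b c = D^4 m^2 = aE^2 + 16 (Dvm)^2`. Real: `b > 0`. So `b = D^i d`, `d | m`. The primes of
`d`: `loc2_in` (`m = p m1`, `b = p u`, `c = p w`): `p = 1` modulo `8` and `((m/d)/p) = 1` (`(D/p) = 1`). So `d = 1` modulo `8`, and
`i = 1` would give `b = 5` modulo `8`, excluded by `loc2_two` (`aE = 1` modulo `8`: `m = 1`, `D = 5`, `v^2 - 4 = 5`).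
`p | m`, `p ∤ d`: `loc2_out` with `l = D^2 m1`. Template `RZ/SL2.lean`.
-/

namespace Pool.Agent.NCM

/-- a product of primes `1` modulo `8` is `1` modulo `8` -/
theorem sl2_mod8 {d : ℕ} (hd : d ≠ 0) (h : ∀ p : ℕ, p.Prime → p ∣ d → p % 8 = 1) :
    d % 8 = 1 := by
  induction d using Nat.recOnMul with
  | zero => exact absurd rfl hd
  | one => rfl
  | prime p hp => exact h p hp dvd_rfl
  | mul x y ihx ihy =>
    have hx0 : x ≠ 0 := left_ne_zero_of_mul hd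
    have hy0 : y ≠ 0 := right_ne_zero_of_mul hd
    have hx := ihx hx0 (fun p hp hpx => h p hp (hpx.mul_right y))
    have hy := ihy hy0 (fun p hp hpy => h p hp (hpy.mul_left x))
    rw [Nat.mul_mod, hx, hy]

open Pool.Agent.H23 in
theorem sel2_nec {v D m : ℕ} (h : Par v D) (hm : Fam v D m) {b : ℤ}
    (hb : b ∈ Sel (-2 * aE v D m) (aE v D m ^ 2 - 4 * bE v D m)) :
    ∃ d : ℕ, d ∣ m ∧ b = d ∧ (∀ p : ℕ, p.Prime → p ∣ d → p % 8 = 1) ∧ RZ.KA m d := by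
  rw [disc v D m h.eq] at hb
  obtain ⟨hsq, hdvd, hreal, hloc⟩ := hb
  have hm0 : (m : ℤ) ≠ 0 := by have := hm.one_lt; omega
  have hDp : Prime (D : ℤ) := Nat.prime_iff_prime_int.mp h.prime
  have hD0 : (D : ℤ) ≠ 0 := hDp.ne_zero
  have hDv := h.eqZ
  have hD8 : (D : ℤ) % 8 = 5 := by have := h.D8; omega
  have hv2 : (v : ℤ) ^ 2 % 8 = 1 := by omega
  have hm8 : (m : ℤ) % 8 = 1 := by have := hm.mod8; omega
  have ha8 : aE v D m % 8 = 1 := by
    unfold aE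
    obtain ⟨i, hi⟩ : ∃ i, (m : ℤ) = 8 * i + 1 := ⟨m / 8, by omega⟩
    obtain ⟨j, hj⟩ : ∃ j, (D : ℤ) = 8 * j + 5 := ⟨D / 8, by omega⟩
    obtain ⟨l, hl⟩ : ∃ l, (v : ℤ) ^ 2 - 4 = 8 * l + 5 := ⟨((v : ℤ) ^ 2 - 4) / 8, by omega⟩
    rw [hi, hj, hl]
    have : (8 * i + 1) * (8 * j + 5) * (8 * l + 5) =
      8 * (64 * i * j * l + 40 * i * j + 40 * i * l + 25 * i + 8 * j * l + 5 * j + 5 * l + 3) + 1 := by ring
    omega
  have hdis : aE v D m ^ 2 + 16 * ((D : ℤ) * v * m) ^ 2 = (D : ℤ) ^ 4 * (m : ℤ) ^ 2 := by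
    unfold aE
    rw [hDv]; ring
  obtain ⟨k, hk⟩ := hdvd
  have hb0 : b ≠ 0 := hsq.ne_zero
  have hdiv : (D : ℤ) ^ 4 * (m : ℤ) ^ 2 / b = k := by
    rw [hk]; exact Int.mul_ediv_cancel_left _ hb0
  rw [hdiv] at hreal hloc
  have hpos : 0 < b := by
    refine loc2_pos (a := aE v D m) (k := k) ?_ hreal
    rw [← hk, ← hdis]
    have hv0 : (v : ℤ) ≠ 0 := by have := h.v_pos; omega
    have : ((D : ℤ) * v * m) ≠ 0 := mul_ne_zero (mul_ne_zero hD0 hv0) hm0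
    have h2 : 0 < ((D : ℤ) * v * m) ^ 2 := by positivity
    linarith
  have hbm : b ∣ (D : ℤ) ^ 2 * (m : ℤ) := by
    refine (hsq.dvd_pow_iff_dvd (n := 2) (by norm_num)).mp ⟨k, ?_⟩
    rw [← hk]; ring
  -- the shape of `b`
  obtain ⟨d, i, hbd, hdm, hi⟩ : ∃ (d : ℕ) (i : ℕ), b = (D : ℤ) ^ i * d ∧ d ∣ m ∧ i ≤ 1 := by
    by_cases hDb : (D : ℤ) ∣ b
    · obtain ⟨c, rfl⟩ := hDb
      have hDc : ¬ (D : ℤ) ∣ c := by
        rintro ⟨c', rfl⟩
        exact hDp.not_isUnit (hsq D ⟨c', by ring⟩)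
      have hcm : c ∣ (m : ℤ) := by
        have h1 : c ∣ (D : ℤ) * m := by
          obtain ⟨z, hz⟩ := hbm
          refine ⟨z, mul_left_cancel₀ hD0 ?_⟩
          linear_combination hz
        exact ((hDp.coprime_iff_not_dvd).mpr hDc).symm.dvd_of_dvd_mul_left h1
      have hc0 : 0 < c := by
        have h1 : (0 : ℤ) < D := by have := h.prime.pos; omega
        exact (mul_pos_iff_of_pos_left h1).1 hpos
      refine ⟨c.toNat, 1, ?_, ?_, le_rfl⟩
      · rw [pow_one, Int.toNat_of_nonneg hc0.le]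
      · have : ((c.toNat : ℕ) : ℤ) ∣ (m : ℤ) := by rwa [Int.toNat_of_nonneg hc0.le]
        exact_mod_cast this
    · have hcm : b ∣ (m : ℤ) :=
        (((hDp.coprime_iff_not_dvd).mpr hDb).pow_left).symm.dvd_of_dvd_mul_left hbm
      refine ⟨b.toNat, 0, ?_, ?_, by norm_num⟩
      · rw [pow_zero, one_mul, Int.toNat_of_nonneg hpos.le]
      · have : ((b.toNat : ℕ) : ℤ) ∣ (m : ℤ) := by rwa [Int.toNat_of_nonneg hpos.le]
        exact_mod_cast this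
  have hd0 : d ≠ 0 := by
    rintro rfl
    rw [hbd] at hb0
    simp at hb0
  have hsq' : Squarefree m := hm.sqf
  obtain ⟨w0, hw0⟩ := hdm
  have hmd : m / d = w0 := by rw [hw0]; exact Nat.mul_div_cancel_left _ (Nat.pos_of_ne_zero hd0)
  have hmz : (m : ℤ) = (d : ℤ) * w0 := by exact_mod_cast hw0
  -- inner primes
  have hin : ∀ p : ℕ, p.Prime → p ∣ d → p % 8 = 1 ∧
      jacobiSym ((D : ℤ) ^ i * D * ((m / d : ℕ) : ℤ)) p = 1 := by
    intro p hp hpd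
    have : Fact p.Prime := ⟨hp⟩
    have hpm : p ∣ m := hpd.trans ⟨w0, hw0⟩
    have hpz : Prime (p : ℤ) := Nat.prime_iff_prime_int.mp hp
    have hp8 := hm.cls8 hp hpm
    have hpD := hm.ndvd_D hp hpm
    have hpv := hm.ndvd_v hp hpm
    obtain ⟨u, hu⟩ := hpd
    rw [hmd]
    have hdz : (d : ℤ) = (p : ℤ) * u := by exact_mod_cast hu
    have hpu : ¬ (p : ℤ) ∣ (u : ℤ) := by
      intro h
      have h' : p ∣ u := by exact_mod_cast h
      obtain ⟨u', rfl⟩ := h'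
      have h1 : p * p ∣ m := ⟨u' * w0, by rw [hw0, hu]; ring⟩
      exact hp.one_lt.ne' (Nat.isUnit_iff.mp (hsq' p h1))
    have hpw : ¬ (p : ℤ) ∣ (w0 : ℤ) := by
      intro h
      have h' : p ∣ w0 := by exact_mod_cast h
      obtain ⟨w', rfl⟩ := h'
      have h1 : p * p ∣ m := ⟨u * w', by rw [hw0, hu]; ring⟩
      exact hp.one_lt.ne' (Nat.isUnit_iff.mp (hsq' p h1))
    have hpu' : ¬ (p : ℤ) ∣ (D : ℤ) ^ i * u := by
      intro h1
      rcases hpz.dvd_or_dvd h1 with h2 | h2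
      · exact hpD (hpz.dvd_of_dvd_pow h2)
      · exact hpu h2
    have hpm1 : ¬ (p : ℤ) ∣ (u : ℤ) * w0 := by
      intro h1
      rcases hpz.dvd_or_dvd h1 with h2 | h2
      · exact hpu h2
      · exact hpw h2
    have hk1 : (D : ℤ) ^ i * u * k = (p : ℤ) * ((D : ℤ) ^ 2 * (u * w0)) ^ 2 := by
      apply mul_left_cancel₀ hpz.ne_zero
      rw [hbd, hdz] at hk
      rw [hmz, hdz] at hk
      linear_combination -hk
    obtain ⟨w, rfl⟩ : (p : ℤ) ∣ k := by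
      have h1 : (p : ℤ) ∣ (D : ℤ) ^ i * u * k := ⟨_, hk1⟩
      exact (hpz.dvd_or_dvd h1).resolve_left hpu'
    have huw : (D : ℤ) ^ i * u * w = ((D : ℤ) ^ 2 * (u * w0)) ^ 2 := by
      apply mul_left_cancel₀ hpz.ne_zero
      linear_combination hk1
    have hl := hloc p
    have e1 : b = (p : ℤ) * ((D : ℤ) ^ i * u) := by rw [hbd, hdz]; ring
    have e2 : -2 * aE v D m = (p : ℤ) * (-2 * ((D : ℤ) * (u * w0) * ((v : ℤ) ^ 2 - 4))) := by
      unfold aE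
      rw [hmz, hdz]; ring
    rw [e1, e2] at hl
    obtain ⟨r1, r2⟩ := loc2_in (D := (D : ℤ)) (v := (v : ℤ)) (m := (u : ℤ) * w0) hp8 hDv hpu'
      hpD hpv hpm1 huw hl
    refine ⟨r1, ?_⟩
    have e3 : (D : ℤ) ^ i * u * (D * (u * w0)) = ((D : ℤ) ^ i * D * w0) * (u * u) := by ring
    rw [e3, jacobiSym.mul_left, jacobiSym.mul_left (u : ℤ) u] at r2
    have h5 : jacobiSym (u : ℤ) p = 1 ∨ jacobiSym (u : ℤ) p = -1 := by
      rw [← jacobiSym.legendreSym.to_jacobiSym]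
      refine legendreSym.eq_one_or_neg_one p ?_
      rwa [Ne, ZMod.intCast_zmod_eq_zero_iff_dvd]
    rcases h5 with h5 | h5 <;> rw [h5] at r2 <;> simpa using r2
  have hd8 : (d : ℤ) % 8 = 1 := by
    have h1 : ∀ p : ℕ, p.Prime → p ∣ d → p % 8 = 1 := fun p hp hpd => (hin p hp hpd).1
    have h2 := sl2_mod8 hd0 h1
    omega
  have hi0 : i = 0 := by
    by_contra hne
    have hi1 : i = 1 := by omega
    subst hi1
    have hb5 : b % 8 = 5 := by
      rw [hbd, pow_one]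
      obtain ⟨x, hx⟩ : ∃ x, (D : ℤ) = 8 * x + 5 := ⟨D / 8, by omega⟩
      obtain ⟨y, hy⟩ : ∃ y, (d : ℤ) = 8 * y + 1 := ⟨d / 8, by omega⟩
      rw [hx, hy]
      have : (8 * x + 5) * (8 * y + 1) = 8 * (8 * x * y + x + 5 * y) + 5 := by ring
      omega
    have hw2 : ((D : ℤ) * v * m) % 2 = 1 := by
      have h1 : (D : ℤ) % 2 = 1 := by omega
      have h2 : (v : ℤ) % 2 = 1 := by have := h.odd; omega
      have h3 : (m : ℤ) % 2 = 1 := by omega
      rw [Int.mul_emod, Int.mul_emod (D : ℤ), h1, h2, h3]; rfl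
    have : Fact (Nat.Prime 2) := ⟨Nat.prime_two⟩
    exact loc2_two (b := b) (a := aE v D m) (w := (D : ℤ) * v * m) (c := k) hb5 ha8 hw2
      (by rw [← hk, hdis]) (hloc 2)
  subst hi0
  rw [pow_zero, one_mul] at hbd
  simp only [pow_zero, one_mul] at hin
  refine ⟨d, ⟨w0, hw0⟩, hbd, fun p hp hpd => (hin p hp hpd).1, ?_⟩
  intro p hp hpm
  refine ⟨fun hpd => ?_, fun hpd => ?_⟩
  swap
  · have h1 := (hin p hp hpd).2
    rw [jacobiSym.mul_left, hm.jacD hp hpm, one_mul] at h1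
    exact h1
  have : Fact p.Prime := ⟨hp⟩
  have hpD := hm.ndvd_D hp hpm
  have hpd' : ¬ (p : ℤ) ∣ (d : ℤ) := by
    intro h; exact hpd (by exact_mod_cast h)
  obtain ⟨l, hl⟩ := hpm
  have hpz : Prime (p : ℤ) := Nat.prime_iff_prime_int.mp hp
  have hpl : ¬ (p : ℤ) ∣ (D : ℤ) ^ 2 * l := by
    intro h1
    rcases hpz.dvd_or_dvd h1 with h2 | h2
    · exact hpD (hpz.dvd_of_dvd_pow h2)
    · have h' : p ∣ l := by exact_mod_cast h2
      obtain ⟨l', rfl⟩ := h'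
      have h1 : p * p ∣ m := ⟨l', by rw [hl]; ring⟩
      exact hp.one_lt.ne' (Nat.isUnit_iff.mp (hsq' p h1))
  have hmz' : (m : ℤ) = (p : ℤ) * l := by exact_mod_cast hl
  rw [hbd] at hk hloc
  have hpk : (p : ℤ) ^ 2 ∣ k := by
    have h1 : IsCoprime ((p : ℤ) ^ 2) (d : ℤ) :=
      ((hpz.coprime_iff_not_dvd).mpr hpd').pow_left
    apply h1.dvd_of_dvd_mul_left
    rw [← hk, hmz']
    exact ⟨(D : ℤ) ^ 4 * (l : ℤ) ^ 2, by ring⟩
  obtain ⟨k', rfl⟩ := hpk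
  have hk' : (d : ℤ) * k' = ((D : ℤ) ^ 2 * (l : ℤ)) ^ 2 := by
    have hp0 : (p : ℤ) ^ 2 ≠ 0 := pow_ne_zero 2 hpz.ne_zero
    apply mul_left_cancel₀ hp0
    rw [hmz'] at hk
    linear_combination -hk
  have e2 : -2 * aE v D m = (p : ℤ) * (-2 * ((D : ℤ) * l * ((v : ℤ) ^ 2 - 4))) := by
    unfold aE
    rw [hmz']; ring
  have hlp := hloc p
  rw [e2] at hlp
  exact loc2_out hpd' hpl hk' hlp

end Pool.Agent.NCM
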