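import Pool.Agent.NCM.BAS
import Pool.Agent.GTL.DT7

set_option autoImplicit false

/-!
The class data of the family: `Pool.Agent.GTL.Dat` with `Q = 8 D v`, the class
`n* = 1 mod 8`, `(n*/q) = 1` for the primes `q` of `D v`, and the class bit `lam D`.

Proof. `n % Q` has the same residues modulo `8`, `D`, `v`, so the same `st` modulo `8 D v`.
`st (a n) = st a * st n` in the class. `lam_mul`: by `lamS_eq` (a member of the class is
`r^2 / 1` modulo `D`, `lamS = (r/D)`). `surj`: choose `r` with `(r/D) = 1` or `-1` and by CRT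
`t = 1` modulo `8 v`, `t = r^2` modulo `D`, and `n = t` or `n = -t` modulo `8 D v`.
`C_iff`: reciprocity, `(D/p) = (p/D) = (p*/D)` and `(q/p) = (p*/q)` for `q = 3` modulo `4`, `p* = 1` mod 8
(if `p = 7` modulo `8`: `(q/p) = -(p/q) = (-p/q)`).
-/

namespace Pool.Agent.NCM

private theorem dat_Qpos {v D : ℕ} (h : Par v D) : 0 < 8 * D * v :=
  Nat.mul_pos (Nat.mul_pos (by norm_num) h.prime.pos) h.v_pos

private theorem dat_st_mod {v D : ℕ} (n : ℕ) :
    ((8 * D * v : ℕ) : ℤ) ∣ st (n % (8 * D * v)) - st n := by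
  have h8 : n % (8 * D * v) % 8 = n % 8 :=
    Nat.mod_mod_of_dvd n ⟨D * v, by ring⟩
  have h1 : ((8 * D * v : ℕ) : ℤ) ∣ ((n % (8 * D * v) : ℕ) : ℤ) - n := by
    have e : (n : ℤ) = ((n % (8 * D * v) : ℕ) : ℤ) + ((8 * D * v : ℕ) : ℤ) * ((n / (8 * D * v) : ℕ) : ℤ) := by
      exact_mod_cast (Nat.mod_add_div n (8 * D * v)).symm
    refine ⟨-((n / (8 * D * v) : ℕ) : ℤ), ?_⟩
    linear_combination -e
  unfold st
  rw [h8]
  split_ifs
  · have e : -((n % (8 * D * v) : ℕ) : ℤ) - -(n : ℤ) = -(((n % (8 * D * v) : ℕ) : ℤ) - n) := by ring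
    rw [e]
    exact (dvd_neg.2 h1)
  · exact h1

private theorem dat_jac_cong {a b : ℤ} {q : ℕ} (h : (q : ℤ) ∣ a - b) : jacobiSym a q = jacobiSym b q := by
  rw [jacobiSym.mod_left a q, jacobiSym.mod_left b q,
    Int.emod_eq_emod_iff_emod_sub_eq_zero.2 (Int.emod_eq_zero_of_dvd h)]

private theorem dat_mem {v D q : ℕ} (h : Par v D) :
    q ∈ (D * v).primeFactors ↔ q = D ∨ (q.Prime ∧ q ∣ v) := by
  rw [Nat.mem_primeFactors]
  constructor
  · rintro ⟨hq, hd, -⟩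
    rcases (Nat.Prime.dvd_mul hq).1 hd with e | e
    · exact Or.inl ((Nat.prime_dvd_prime_iff_eq hq h.prime).1 e)
    · exact Or.inr ⟨hq, e⟩
  · have h0 : D * v ≠ 0 := (Nat.mul_pos h.prime.pos h.v_pos).ne'
    rintro (rfl | ⟨hq, hd⟩)
    · exact ⟨h.prime, Dvd.intro _ rfl, h0⟩
    · exact ⟨hq, hd.mul_left _, h0⟩

private theorem dat_qQ {v D q : ℕ} (hq : q ∈ (D * v).primeFactors) : q ∣ 8 * D * v := by
  have := Nat.dvd_of_mem_primeFactors hq
  rw [mul_assoc]
  exact this.mul_left 8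

private theorem dat_st_mul {a n : ℕ} (ha : a % 8 = 1 ∨ a % 8 = 7) (hn : n % 8 = 1 ∨ n % 8 = 7) :
    st (a * n) = st a * st n := by
  have h1 : a * n % 8 = (a % 8) * (n % 8) % 8 := Nat.mul_mod a n 8
  unfold st
  rcases ha with ha | ha <;> rcases hn with hn | hn <;> rw [ha, hn] at h1 <;>
    norm_num at h1 <;> simp [h1, ha, hn]

private theorem dat_cls {a n : ℕ} (ha : a % 8 = 1 ∨ a % 8 = 7) :
    (a * n % 8 = 1 ∨ a * n % 8 = 7) ↔ (n % 8 = 1 ∨ n % 8 = 7) := by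
  have h1 : a * n % 8 = (a % 8) * (n % 8) % 8 := Nat.mul_mod a n 8
  have h2 : n % 8 < 8 := Nat.mod_lt _ (by norm_num)
  rcases ha with ha | ha <;> rw [ha] at h1 <;> omega

private theorem dat_jac_ne {x : ℤ} {q : ℕ} (hq : q.Prime) (h : jacobiSym x q = 1) : ¬ (q : ℤ) ∣ x := by
  intro hd
  have : Fact q.Prime := ⟨hq⟩
  rw [← jacobiSym.legendreSym.to_jacobiSym] at h
  rw [(legendreSym.eq_zero_iff q x).2 ((ZMod.intCast_zmod_eq_zero_iff_dvd _ q).2 hd)] at h
  exact zero_ne_one h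

private theorem dat_st_dvd {n q : ℕ} : (q : ℤ) ∣ st n ↔ q ∣ n := by
  unfold st
  split_ifs
  · rw [dvd_neg]; exact Int.natCast_dvd_natCast
  · exact Int.natCast_dvd_natCast

private theorem dat_root {v D n : ℕ} (h : Par v D) (hn : jacobiSym (st n) D = 1) :
    ∃ r : ℤ, ¬ (D : ℤ) ∣ r ∧ (D : ℤ) ∣ st n * 1 ^ 2 - r ^ 2 := by
  have : Fact D.Prime := ⟨h.prime⟩
  have hnd := dat_jac_ne h.prime hn
  rw [← jacobiSym.legendreSym.to_jacobiSym] at hn
  have h0 : ((st n : ℤ) : ZMod D) ≠ 0 := by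
    rwa [Ne, ZMod.intCast_zmod_eq_zero_iff_dvd]
  obtain ⟨r, hr⟩ := (legendreSym.eq_one_iff D h0).1 hn
  have hd : (D : ℤ) ∣ st n * 1 ^ 2 - (r.val : ℤ) ^ 2 := by
    rw [← ZMod.intCast_zmod_eq_zero_iff_dvd]
    push_cast
    rw [ZMod.natCast_zmod_val, hr]
    ring
  refine ⟨(r.val : ℤ), ?_, hd⟩
  intro hdr
  apply hnd
  have h1 : (D : ℤ) ∣ (r.val : ℤ) ^ 2 := hdr.trans (dvd_pow_self _ two_ne_zero)
  have h2 := dvd_add hd h1
  simpa using h2

private theorem dat_one_ndvd {v D : ℕ} (h : Par v D) : ¬ (D : ℤ) ∣ 1 := by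
  intro h1
  have h2 : D ∣ 1 := by exact_mod_cast h1
  exact h.prime.one_lt.ne' (Nat.dvd_one.1 h2)

private theorem dat_lamS {v D n : ℕ} (h : Par v D) {r : ℤ} (hr : ¬ (D : ℤ) ∣ r)
    (hd : (D : ℤ) ∣ st n * 1 ^ 2 - r ^ 2) : lamS D n = jacobiSym r D := by
  rw [lamS_eq h (dat_one_ndvd h) hr hd]
  rw [jacobiSym.one_left, one_mul]

private theorem dat_lam_iff {D n : ℕ} (l : ZMod 2) :
    lam D n = l ↔ lamS D n = if l = 0 then 1 else -1 := by
  have h1 : lam D n = 0 ∨ lam D n = 1 := by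
    unfold lam
    split_ifs
    · exact Or.inl rfl
    · exact Or.inr rfl
  have h2 : l = 0 ∨ l = 1 := by
    revert l
    decide
  unfold lamS
  rcases h1 with e1 | e1 <;> rcases h2 with e2 | e2 <;> rw [e1, e2] <;> norm_num

private theorem dat_lam_mul {v D a n : ℕ} (h : Par v D)
    (ha : a % 8 = 1 ∨ a % 8 = 7) (hn : n % 8 = 1 ∨ n % 8 = 7)
    (haD : jacobiSym (st a) D = 1) (hnD : jacobiSym (st n) D = 1) :
    lam D (a * n) = lam D a + lam D n := by
  obtain ⟨r, hr, hrd⟩ := dat_root h haD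
  obtain ⟨s, hs, hsd⟩ := dat_root h hnD
  have hrs : ¬ (D : ℤ) ∣ r * s := by
    intro hd
    rcases (Nat.prime_iff_prime_int.1 h.prime).dvd_or_dvd hd with e | e
    · exact hr e
    · exact hs e
  have hrsd : (D : ℤ) ∣ st (a * n) * 1 ^ 2 - (r * s) ^ 2 := by
    rw [dat_st_mul ha hn]
    have e : st a * st n * 1 ^ 2 - (r * s) ^ 2 =
        (st a * 1 ^ 2 - r ^ 2) * st n + (st n * 1 ^ 2 - s ^ 2) * r ^ 2 := by ring
    rw [e]
    exact dvd_add (hrd.mul_right _) (hsd.mul_right _)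
  have e1 := dat_lamS h hr hrd
  have e2 := dat_lamS h hs hsd
  have e3 := dat_lamS h hrs hrsd
  rw [jacobiSym.mul_left, ← e1, ← e2] at e3
  rw [dat_lam_iff, e3]
  have h1 : lam D a = 0 ∨ lam D a = 1 := by
    unfold lam
    split_ifs
    · exact Or.inl rfl
    · exact Or.inr rfl
  have h2 : lam D n = 0 ∨ lam D n = 1 := by
    unfold lam
    split_ifs
    · exact Or.inl rfl
    · exact Or.inr rfl
  unfold lamS
  rcases h1 with e1 | e1 <;> rcases h2 with e2 | e2 <;> rw [e1, e2]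
  · norm_num
  · norm_num
  · norm_num
  · have : (1 : ZMod 2) + 1 = 0 := by decide
    rw [this]
    norm_num

/-- the bit of a number with given residues -/
private theorem dat_surj {v D : ℕ} (h : Par v D) (s l : ZMod 2) :
    ∃ n : ℕ, ((n % 8 = 1 ∨ n % 8 = 7) ∧ ∀ q ∈ (D * v).primeFactors, jacobiSym (st n) q = 1) ∧
      (if n % 8 = 7 then (1 : ZMod 2) else 0) = s ∧ lam D n = l := by
  have hv : 0 < v := h.v_pos
  have hcop : Nat.Coprime (8 * v) D := by
    rw [Nat.coprime_comm, Nat.Prime.coprime_iff_not_dvd h.prime]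
    intro hd
    rcases (Nat.Prime.dvd_mul h.prime).1 hd with e | e
    · have e1 : D ∣ 2 ^ 3 := by norm_num; exact e
      have e2 := (Nat.prime_dvd_prime_iff_eq h.prime Nat.prime_two).1 (h.prime.dvd_of_dvd_pow e1)
      have := h.D8
      omega
    · exact h.ndvd_v e
  have h2 : ¬ (D : ℤ) ∣ 2 := by
    intro hd
    have e1 : D ∣ 2 := by exact_mod_cast hd
    have := Nat.le_of_dvd two_pos e1
    have := h.D8
    omega
  -- the root
  obtain ⟨r, hr, hrl⟩ : ∃ r : ℕ, ¬ (D : ℤ) ∣ (r : ℤ) ∧ jacobiSym (r : ℤ) D = if l = 0 then 1 else -1 := by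
    by_cases hl : l = 0
    · refine ⟨1, by exact_mod_cast dat_one_ndvd h, ?_⟩
      rw [if_pos hl]
      simp
    · refine ⟨2, by exact_mod_cast h2, ?_⟩
      rw [if_neg hl]
      exact_mod_cast h.jac_two
  -- common finish
  have fin : ∀ n : ℕ, (n % 8 = 1 ∨ n % 8 = 7) → ((v : ℕ) : ℤ) ∣ st n - 1 →
      (D : ℤ) ∣ st n - (r : ℤ) ^ 2 → (if n % 8 = 7 then (1 : ZMod 2) else 0) = s →
      ((n % 8 = 1 ∨ n % 8 = 7) ∧ ∀ q ∈ (D * v).primeFactors, jacobiSym (st n) q = 1) ∧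
      (if n % 8 = 7 then (1 : ZMod 2) else 0) = s ∧ lam D n = l := by
    intro n hn hnv hnD hns
    refine ⟨⟨hn, ?_⟩, hns, ?_⟩
    · intro q hq
      rcases (dat_mem h).1 hq with rfl | ⟨hq', hqv⟩
      · rw [dat_jac_cong hnD, jacobiSym.pow_left, hrl]
        split_ifs <;> norm_num
      · have e1 : (q : ℤ) ∣ st n - 1 := by
          have : (q : ℤ) ∣ (v : ℤ) := by exact_mod_cast hqv
          exact this.trans hnv
        rw [dat_jac_cong e1, jacobiSym.one_left]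
    · rw [dat_lam_iff, dat_lamS h hr (by rw [one_pow, mul_one]; exact hnD), hrl]
  have hs : s = 0 ∨ s = 1 := by
    clear fin
    revert s
    decide
  rcases hs with rfl | rfl
  · obtain ⟨n, hn1, hn2⟩ := Nat.chineseRemainder hcop 1 (r ^ 2)
    have hn8 : n % 8 = 1 := by
      have : n ≡ 1 [MOD 8] := hn1.of_mul_right v
      exact this
    have hst : st n = n := by
      unfold st
      rw [if_neg (by omega)]
    refine ⟨n, fin n (Or.inl hn8) ?_ ?_ (by rw [if_neg (by omega)])⟩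
    · rw [hst]
      have : n ≡ 1 [MOD v] := hn1.of_mul_left 8
      have e := (Nat.modEq_iff_dvd.1 this.symm)
      simpa using e
    · rw [hst]
      have e := (Nat.modEq_iff_dvd.1 hn2.symm)
      push_cast at e
      exact e
  · obtain ⟨n, hn1, hn2⟩ := Nat.chineseRemainder hcop (8 * v - 1) (D * r ^ 2 - r ^ 2)
    have hle : r ^ 2 ≤ D * r ^ 2 := Nat.le_mul_of_pos_left _ h.prime.pos
    have hd1 : ((8 * v : ℕ) : ℤ) ∣ (n : ℤ) + 1 := by
      have e := (Nat.modEq_iff_dvd.1 hn1.symm)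
      have e2 : ((8 * v - 1 : ℕ) : ℤ) = 8 * (v : ℤ) - 1 := by
        have : 1 ≤ 8 * v := by omega
        push_cast [Nat.cast_sub this]
        ring
      rw [e2] at e
      have e3 : (n : ℤ) + 1 = ((n : ℤ) - (8 * (v : ℤ) - 1)) + ((8 * v : ℕ) : ℤ) := by
        push_cast
        ring
      rw [e3]
      exact dvd_add e (dvd_refl _)
    have hd2 : (D : ℤ) ∣ (n : ℤ) + (r : ℤ) ^ 2 := by
      have e := (Nat.modEq_iff_dvd.1 hn2.symm)
      have e2 : ((D * r ^ 2 - r ^ 2 : ℕ) : ℤ) = (D : ℤ) * (r : ℤ) ^ 2 - (r : ℤ) ^ 2 := by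
        push_cast [Nat.cast_sub hle]
        ring
      rw [e2] at e
      have e3 : (n : ℤ) + (r : ℤ) ^ 2 = ((n : ℤ) - ((D : ℤ) * (r : ℤ) ^ 2 - (r : ℤ) ^ 2)) + D * (r : ℤ) ^ 2 := by
        ring
      rw [e3]
      exact dvd_add e (Dvd.intro _ rfl)
    have hn8 : n % 8 = 7 := by
      have e : (8 : ℤ) ∣ (n : ℤ) + 1 := by
        refine Dvd.dvd.trans ?_ hd1
        push_cast
        exact Dvd.intro _ rfl
      omega
    have hst : st n = -n := by
      unfold st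
      rw [if_pos hn8]
    refine ⟨n, fin n (Or.inr hn8) ?_ ?_ (by rw [if_pos hn8])⟩
    · rw [hst]
      have e1 : ((v : ℕ) : ℤ) ∣ ((8 * v : ℕ) : ℤ) := by
        push_cast
        exact Dvd.intro_left _ rfl
      have e2 : -(n : ℤ) - 1 = -((n : ℤ) + 1) := by ring
      rw [e2]
      exact (dvd_neg.2 (e1.trans hd1))
    · rw [hst]
      have e2 : -(n : ℤ) - (r : ℤ) ^ 2 = -((n : ℤ) + (r : ℤ) ^ 2) := by ring
      rw [e2]
      exact (dvd_neg.2 hd2)

private theorem dat_rec {v D p q : ℕ} (h : Par v D) (hp8 : p % 8 = 1 ∨ p % 8 = 7)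
    (hq : q ∈ (D * v).primeFactors) : jacobiSym (st p) q = jacobiSym (q : ℤ) p := by
  rcases (dat_mem h).1 hq with rfl | ⟨hq', hqv⟩
  · rw [← jac_D_nat h (by omega)]
    unfold st
    split_ifs
    · rw [h.jac_neg]
    · rfl
  · have hq3 := h.pr3 q hq' hqv
    have hqo : Odd q := Nat.odd_iff.2 (by omega)
    rcases hp8 with h8 | h8
    · have e : st p = p := by
        unfold st
        rw [if_neg (by omega)]
      rw [e]
      exact jacobiSym.quadratic_reciprocity_one_mod_four (by omega) hqo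
    · have e : st p = -p := by
        unfold st
        rw [if_pos h8]
      rw [e, jacobiSym.neg _ hqo, ZMod.χ₄_nat_three_mod_four hq3,
        jacobiSym.quadratic_reciprocity_three_mod_four (by omega) hq3]
      ring

private theorem dat_cop {v D n : ℕ} (h : Par v D) (h8 : n % 8 = 1 ∨ n % 8 = 7)
    (hn : ∀ q ∈ (D * v).primeFactors, jacobiSym (st n) q = 1) : Nat.Coprime n (8 * D * v) := by
  rw [mul_assoc]
  refine Nat.Coprime.mul_right ?_ ?_
  · have e : (8 : ℕ) = 2 ^ 3 := by norm_num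
    rw [e]
    refine Nat.Coprime.pow_right 3 ?_
    exact Nat.coprime_two_right.2 (Nat.odd_iff.2 (by omega))
  · refine Nat.Coprime.symm (Nat.coprime_of_dvd ?_)
    intro q hq hqD hqn
    have hm : q ∈ (D * v).primeFactors :=
      Nat.mem_primeFactors.2 ⟨hq, hqD, (Nat.mul_pos h.prime.pos h.v_pos).ne'⟩
    exact dat_jac_ne hq (hn q hm) (dat_st_dvd.2 hqn)

open Pool.Agent.GTL in
/-- the class data -/
noncomputable def dat {v D : ℕ} (h : Par v D) : Pool.Agent.GTL.Dat where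
  Q := 8 * D * v
  C n := (n % 8 = 1 ∨ n % 8 = 7) ∧ ∀ q ∈ (D * v).primeFactors, jacobiSym (st n) q = 1
  decC := Classical.decPred _
  lam := lam D
  S := (D * v).primeFactors
  Q_pos := dat_Qpos h
  eight := ⟨D * v, by ring⟩
  C_mod := by
    intro n
    have h8 : n % (8 * D * v) % 8 = n % 8 := Nat.mod_mod_of_dvd n ⟨D * v, by ring⟩
    rw [h8]
    refine and_congr_right fun _ => forall_congr' fun q => ?_
    refine forall_congr' fun hq => ?_
    have e : (q : ℤ) ∣ st (n % (8 * D * v)) - st n := by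
      have e1 : (q : ℤ) ∣ ((8 * D * v : ℕ) : ℤ) := by exact_mod_cast dat_qQ hq
      exact e1.trans (dat_st_mod n)
    rw [dat_jac_cong e]
  lam_mod := by
    intro n
    have e : (((st (n % (8 * D * v)) : ℤ)) : ZMod D) = ((st n : ℤ) : ZMod D) := by
      rw [← sub_eq_zero, ← Int.cast_sub, ZMod.intCast_zmod_eq_zero_iff_dvd]
      have e1 : (D : ℤ) ∣ ((8 * D * v : ℕ) : ℤ) := by
        push_cast
        exact ⟨8 * v, by ring⟩
      exact e1.trans (dat_st_mod n)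
    unfold lam
    rw [e]
  C_eight := fun n hn => hn.1
  C_cop := fun n hn => dat_cop h hn.1 hn.2
  C_mul := by
    rintro a n ⟨ha, haq⟩
    constructor
    · rintro ⟨h1, h2⟩
      have hn := (dat_cls ha).1 h1
      refine ⟨hn, fun q hq => ?_⟩
      have := h2 q hq
      rw [dat_st_mul ha hn, jacobiSym.mul_left, haq q hq, one_mul] at this
      exact this
    · rintro ⟨h1, h2⟩
      refine ⟨(dat_cls ha).2 h1, fun q hq => ?_⟩
      rw [dat_st_mul ha h1, jacobiSym.mul_left, haq q hq, h2 q hq, one_mul]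
  lam_mul := by
    rintro a n ⟨ha, haq⟩ ⟨hn, hnq⟩
    have hD : D ∈ (D * v).primeFactors := (dat_mem h).2 (Or.inl rfl)
    exact dat_lam_mul h ha hn (haq D hD) (hnq D hD)
  surj := dat_surj h
  S_pr := by
    intro q hq
    refine ⟨Nat.prime_of_mem_primeFactors hq, ?_, dat_qQ hq⟩
    rintro rfl
    rcases (dat_mem h).1 hq with e | ⟨_, e⟩
    · have := h.D8
      omega
    · have := h.odd
      omega
  C_iff := by
    intro p hp hp2 hpS
    constructor
    · rintro ⟨h8, hq⟩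
      exact ⟨h8, fun q hqm => by rw [← dat_rec h h8 hqm]; exact hq q hqm⟩
    · rintro ⟨h8, hq⟩
      exact ⟨h8, fun q hqm => by rw [dat_rec h h8 hqm]; exact hq q hqm⟩

private theorem dat_C_iff {v D p : ℕ} (h : Par v D) :
    ((p % 8 = 1 ∨ p % 8 = 7) ∧ ∀ q ∈ (D * v).primeFactors, jacobiSym (st p) q = 1) ↔
      ((p % 8 = 1 ∨ p % 8 = 7) ∧ jacobiSym (D : ℤ) p = 1 ∧
        ∀ q : ℕ, q.Prime → q ∣ v → jacobiSym (q : ℤ) p = 1) := by
  refine and_congr_right fun h8 => ?_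
  constructor
  · intro hq
    refine ⟨?_, fun q hq' hqv => ?_⟩
    · have hD : D ∈ (D * v).primeFactors := (dat_mem h).2 (Or.inl rfl)
      rw [← dat_rec h h8 hD]
      exact hq D hD
    · have hm : q ∈ (D * v).primeFactors := (dat_mem h).2 (Or.inr ⟨hq', hqv⟩)
      rw [← dat_rec h h8 hm]
      exact hq q hm
  · rintro ⟨h1, h2⟩ q hq
    rw [dat_rec h h8 hq]
    rcases (dat_mem h).1 hq with rfl | ⟨hq', hqv⟩
    · exact h1
    · exact h2 q hq' hqv

/-- membership in the family of `GTL` -/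
theorem famF_iff {v D : ℕ} (h : Par v D) {X m : ℕ} :
    m ∈ @Pool.Agent.GTL.famF (dat h) X ↔ Fam v D m ∧ m ≤ X := by
  have key : @Pool.Agent.GTL.F1 (dat h) m ↔ Squarefree m ∧ ∀ p ∈ m.primeFactors,
      (p % 8 = 1 ∨ p % 8 = 7) ∧ jacobiSym (D : ℤ) p = 1 ∧
        ∀ q : ℕ, q.Prime → q ∣ v → jacobiSym (q : ℤ) p = 1 := by
    unfold Pool.Agent.GTL.F1
    refine and_congr_right fun _ => ?_
    refine forall_congr' fun p => forall_congr' fun _ => ?_
    exact dat_C_iff h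
  unfold Pool.Agent.GTL.famF Pool.Agent.GTL.FF
  rw [Finset.mem_filter, Finset.mem_filter, Finset.mem_Icc, key]
  constructor
  · rintro ⟨⟨⟨_, hX⟩, hs, hp⟩, h1, h8⟩
    exact ⟨⟨h1, h8, hs, hp⟩, hX⟩
  · rintro ⟨hm, hX⟩
    exact ⟨⟨⟨hm.one_lt.le, hX⟩, hm.sqf, hm.pr⟩, hm.one_lt, hm.mod8⟩

/-- the class bit of a prime -/
theorem dat_lam {v D : ℕ} (h : Par v D) (n : ℕ) : @Pool.Agent.GTL.Dat.lam (dat h) n = lam D n := rfl

end Pool.Agent.NCM
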