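import Pool.Agent.NCM.BAS
import Pool.Agent.NCM.PRM

set_option autoImplicit false

/-!
The descent quartic with `b | m`, `b = 1` modulo `8`, gives a pair of conics.

Proof. `m = b n`, `n = 1` modulo `8`; a primitive solution (`PRM.prim_sol`) has `N = b N1` and
`b N1^2 = (M^2 - 4 D n e^2)(M^2 + D v^2 n e^2)`. `β = ± gcd (M, n)` with the sign such that
`β = 1` modulo `8`, `M = β X`, `n = β α`: `N1 = β N2`, `b N2^2 = P Q`, `P = βX^2 - 4Dαe^2`,
`Q = βX^2 + Dv^2αe^2`, `IsCoprime (βX) (αe)`. If `D ∤ X` then `P`, `Q` are coprime: `split_sq`;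
if `D | X` then `X = D X'`, `D ∤ e`, `P = D P'`, `Q = D Q'`, `P' Q'` coprime with
`b N3^2 = P' Q'`, `N2 = D N3`. Modulo `8` the second case and the sign `-1` in the first case are
impossible.
-/

namespace Pool.Agent.NCM

open Pool.Agent.RZ (split_sq)

/-- first residue table -/
theorem des_tab1 : ∀ X e r s : ZMod 8, X ^ 2 - 20 * e ^ 2 = -r ^ 2 → X ^ 2 + 5 * e ^ 2 = -s ^ 2 →
    4 * X = 0 ∧ 4 * e = 0 := by decide

/-- second residue table -/
theorem des_tab2 : ∀ X e r s : ZMod 8, X ^ 2 - 20 * e ^ 2 = -(5 * r ^ 2) →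
    X ^ 2 + 5 * e ^ 2 = -(5 * s ^ 2) → 4 * X = 0 ∧ 4 * e = 0 := by decide

/-- third residue table -/
theorem des_tab3 : ∀ X e r s : ZMod 8, X ^ 2 - 20 * e ^ 2 = 5 * r ^ 2 →
    X ^ 2 + 5 * e ^ 2 = 5 * s ^ 2 → (4 * X = 0 ∧ 4 * e = 0) ∨ (2 * X = 0 ∧ 4 * e = 4 ∧ 4 * r = 0) := by
  decide

theorem des_even {x : ℤ} (h : 4 * (x : ZMod 8) = 0) : (2 : ℤ) ∣ x := by
  have h1 : ((4 * x : ℤ) : ZMod 8) = 0 := by push_cast; exact h
  have h2 := (ZMod.intCast_zmod_eq_zero_iff_dvd (4 * x) 8).1 h1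
  omega

theorem des_one {x : ℤ} (h : x % 8 = 1) : (x : ZMod 8) = 1 := by
  have h1 : ((x - 1 : ℤ) : ZMod 8) = 0 :=
    (ZMod.intCast_zmod_eq_zero_iff_dvd (x - 1) 8).2 (by omega)
  push_cast at h1
  linear_combination h1

theorem des_five {x : ℤ} (h : x % 8 = 5) : (x : ZMod 8) = 5 := by
  have h1 : ((x - 5 : ℤ) : ZMod 8) = 0 :=
    (ZMod.intCast_zmod_eq_zero_iff_dvd (x - 5) 8).2 (by omega)
  push_cast at h1
  linear_combination h1

theorem des_seven {x : ℤ} (h : x % 8 = 7) : (x : ZMod 8) = -1 := by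
  have h1 : ((x + 1 : ℤ) : ZMod 8) = 0 :=
    (ZMod.intCast_zmod_eq_zero_iff_dvd (x + 1) 8).2 (by omega)
  push_cast at h1
  linear_combination h1

/-- the conics: coprimality of the two factors -/
theorem des_cop {x y P Q u w A B : ℤ} (hxy : IsCoprime x y) (hP : IsCoprime P (A * B))
    (h1 : Q - P = A * y) (h2 : u * P + w * Q = B * x) : IsCoprime P Q := by
  obtain ⟨a, b, hab⟩ := hxy
  have hA : IsCoprime P A := hP.of_mul_right_left
  have hB : IsCoprime P B := hP.of_mul_right_right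
  have h3 : IsCoprime P (A * B * (a * x + b * y)) := by rw [hab, mul_one]; exact hP
  have h4 : A * B * (a * x + b * y) = (a * A * w + b * B) * Q + P * (a * A * u - b * B) := by
    linear_combination (-(a * A)) * h2 - b * B * h1
  rw [h4] at h3
  have h5 := (IsCoprime.add_mul_left_right_iff (x := P) (y := (a * A * w + b * B) * Q)
    (z := a * A * u - b * B)).1 h3
  exact h5.of_mul_right_right

open Pool.Agent.H23 in
theorem sys_of_glob {v D m : ℕ} (h : Par v D) (hm : Fam v D m) {b : ℤ}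
    (hb : b ∈ Glob (aE v D m) (bE v D m)) (hbm : b ∣ m) (h8 : b % 8 = 1) :
    ∃ α β c₂ c₃ X V W e : ℤ, Sys v D m α β c₂ c₃ X V W e ∧ b = c₂ * c₃ := by
  obtain ⟨hsq, -, hsol⟩ := hb
  obtain ⟨n, hn⟩ := hbm
  have hDp : Prime (D : ℤ) := Nat.prime_iff_prime_int.mp h.prime
  have hD0 : (D : ℤ) ≠ 0 := hDp.ne_zero
  have hDv := h.eqZ
  have hD8 : (D : ℤ) % 8 = 5 := by have := h.D8; omega
  have hv8 : (v : ℤ) ^ 2 % 8 = 1 := by omega
  have hm8 : (m : ℤ) % 8 = 1 := by have := hm.mod8; omega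
  have hb0 : b ≠ 0 := by rintro rfl; simp at h8
  have hm0 : (m : ℤ) ≠ 0 := by have := hm.one_lt; omega
  have hn0 : n ≠ 0 := by rintro rfl; rw [mul_zero] at hn; exact hm0 hn
  have hn8 : n % 8 = 1 := by
    obtain ⟨i, hi⟩ : ∃ i, b = 8 * i + 1 := ⟨b / 8, by omega⟩
    have : (m : ℤ) = 8 * (i * n) + n := by rw [hn, hi]; ring
    omega
  have hDm : ¬ (D : ℤ) ∣ m := by
    intro h1
    have h2 : D ∣ m := by exact_mod_cast h1
    exact hm.ndvd_D h.prime h2 dvd_rfl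
  have hDb : ¬ (D : ℤ) ∣ b := fun h1 => hDm (h1.trans ⟨n, hn⟩)
  have hDn : ¬ (D : ℤ) ∣ n := fun h1 => hDm (h1.trans ⟨b, by rw [hn]; ring⟩)
  have hDv' : ¬ (D : ℤ) ∣ (v : ℤ) := fun h1 => h.ndvd_v (by exact_mod_cast h1)
  have hq : bE v D m / b = -4 * (D : ℤ) ^ 2 * (v : ℤ) ^ 2 * (b * n ^ 2) := by
    unfold bE
    rw [hn]
    have : -4 * (D : ℤ) ^ 2 * (v : ℤ) ^ 2 * (b * n) ^ 2 =
      b * (-4 * (D : ℤ) ^ 2 * (v : ℤ) ^ 2 * (b * n ^ 2)) := by ring
    rw [this, Int.mul_ediv_cancel_left _ hb0]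
  have hsol' : ∃ N M e : ℚ, (M ≠ 0 ∨ e ≠ 0) ∧
      N ^ 2 = (b : ℚ) * M ^ 4 + (aE v D m : ℚ) * M ^ 2 * e ^ 2 +
        ((-4 * (D : ℤ) ^ 2 * (v : ℤ) ^ 2 * (b * n ^ 2) : ℤ) : ℚ) * e ^ 4 := by
    obtain ⟨N, M, e, h0, h1⟩ := hsol
    refine ⟨N, M, e, h0, ?_⟩
    rw [h1, hq]
  obtain ⟨N, M, e, hcop, hN⟩ := prim_sol hsol'
  have hN' : N ^ 2 = b * ((M ^ 2 - 4 * D * n * e ^ 2) * (M ^ 2 + D * (v : ℤ) ^ 2 * n * e ^ 2)) := by
    rw [hN]
    unfold aE
    rw [hn]; ring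
  obtain ⟨N1, hN1⟩ : b ∣ N := (hsq.dvd_pow_iff_dvd two_ne_zero).1 ⟨_, hN'⟩
  have h1 : b * N1 ^ 2 = (M ^ 2 - 4 * D * n * e ^ 2) * (M ^ 2 + D * (v : ℤ) ^ 2 * n * e ^ 2) := by
    apply mul_left_cancel₀ hb0
    rw [← hN', hN1]; ring
  have hmsq : Squarefree (m : ℤ) := Int.squarefree_natCast.2 hm.sqf
  have hnsq : Squarefree n := hmsq.squarefree_of_dvd ⟨b, by rw [hn]; ring⟩
  -- the gcd with its sign
  obtain ⟨β, hβ8, hβM, hβn, u, w, huw⟩ : ∃ β : ℤ, β % 8 = 1 ∧ β ∣ M ∧ β ∣ n ∧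
      ∃ u w : ℤ, β = M * u + n * w := by
    have hg1 : (Int.gcd M n : ℤ) ∣ M := Int.gcd_dvd_left ..
    have hg2 : (Int.gcd M n : ℤ) ∣ n := Int.gcd_dvd_right ..
    have hg3 := Int.gcd_eq_gcd_ab M n
    have hg4 : (Int.gcd M n : ℤ) ∣ m := hg2.trans ⟨b, by rw [hn]; ring⟩
    rcases hm.dvd8 hg4 with h7 | h7
    · exact ⟨_, h7, hg1, hg2, _, _, hg3⟩
    · refine ⟨-(Int.gcd M n : ℤ), by omega, (neg_dvd).2 hg1, (neg_dvd).2 hg2,
        -Int.gcdA M n, -Int.gcdB M n, ?_⟩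
      rw [hg3]; ring
  have hβ0 : β ≠ 0 := by rintro rfl; simp at hβ8
  obtain ⟨X, hX⟩ := hβM
  obtain ⟨α, hα⟩ := hβn
  have hα8 : α % 8 = 1 := by
    obtain ⟨i, hi⟩ : ∃ i, β = 8 * i + 1 := ⟨β / 8, by omega⟩
    have : n = 8 * (i * α) + α := by rw [hα, hi]; ring
    omega
  have hXα : IsCoprime X α := by
    refine ⟨u, w, ?_⟩
    apply mul_left_cancel₀ hβ0
    rw [mul_one]
    calc β * (u * X + w * α) = (β * X) * u + (β * α) * w := by ring
      _ = M * u + n * w := by rw [← hX, ← hα]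
      _ = β := huw.symm
  have hβα : IsCoprime β α := by
    have : Squarefree (β * α) := by rw [← hα]; exact hnsq
    exact IsRelPrime.isCoprime (squarefree_mul_iff.1 this).1
  have hbn : IsCoprime b n := by
    have : Squarefree (b * n) := by rw [← hn]; exact hmsq
    exact IsRelPrime.isCoprime (squarefree_mul_iff.1 this).1
  have hβb : IsCoprime β b := by
    rw [hα] at hbn
    exact hbn.of_mul_right_left.symm
  have hβXe : IsCoprime (β * X) e := by rw [← hX]; exact hcop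
  have hcop2 : IsCoprime (β * X) (α * e) :=
    IsCoprime.mul_right (hβα.mul_left hXα) hβXe
  have h2 : b * N1 ^ 2 = β ^ 2 * ((β * X ^ 2 - 4 * D * α * e ^ 2) *
      (β * X ^ 2 + D * (v : ℤ) ^ 2 * α * e ^ 2)) := by
    rw [h1, hX, hα]; ring
  obtain ⟨N2, hN2⟩ : β ∣ N1 := by
    have h3 : β ^ 2 ∣ N1 ^ 2 :=
      (hβb.pow_left (m := 2)).dvd_of_dvd_mul_left ⟨_, h2⟩
    exact (Int.pow_dvd_pow_iff two_ne_zero).1 h3
  have h3 : (β * X ^ 2 - 4 * D * α * e ^ 2) * (β * X ^ 2 + D * (v : ℤ) ^ 2 * α * e ^ 2) =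
      b * N2 ^ 2 := by
    apply mul_left_cancel₀ (pow_ne_zero 2 hβ0)
    rw [← h2, hN2]; ring
  have hprod : α * β * b = m := by rw [hn, hα]; ring
  have hDβ : ¬ (D : ℤ) ∣ β := fun h4 => hDn (h4.trans ⟨α, hα⟩)
  have hDα : ¬ (D : ℤ) ∣ α := fun h4 => hDn (h4.trans ⟨β, by rw [hα]; ring⟩)
  have hD2 : ¬ (D : ℤ) ∣ 4 := by
    intro h4
    have h5 := Int.le_of_dvd (by norm_num) h4
    have h6 : (D : ℤ) = (v : ℤ) ^ 2 + 4 := hDv
    have h7 : 0 < (v : ℤ) ^ 2 := by have := h.v_pos; positivity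
    omega
  have hxy : IsCoprime (β * X ^ 2) (α * e ^ 2) := by
    have h4 : IsCoprime ((β * X) * X) ((α * e) * e) := by
      refine IsCoprime.mul_right ?_ ?_
      · exact hcop2.mul_left hcop2.of_mul_left_right
      · exact (hcop2.mul_left hcop2.of_mul_left_right).of_mul_right_right
    have e1 : (β * X) * X = β * X ^ 2 := by ring
    have e2 : (α * e) * e = α * e ^ 2 := by ring
    rwa [e1, e2] at h4
  have z1 : (β : ZMod 8) = 1 := des_one hβ8
  have z2 : (α : ZMod 8) = 1 := des_one hα8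
  have z3 : (D : ZMod 8) = 5 := by
    have := des_five hD8
    push_cast at this
    exact this
  have z4 : (v : ZMod 8) ^ 2 = 1 := by
    have := des_one hv8
    push_cast at this
    exact this
  have hnot : ¬ ((2 : ℤ) ∣ X ∧ (2 : ℤ) ∣ e) := by
    rintro ⟨h4, h5⟩
    have h6 : IsUnit (2 : ℤ) := (hβXe.of_mul_left_right).isUnit_of_dvd' h4 h5
    exact absurd (Int.isUnit_iff.mp h6) (by norm_num)
  by_cases hDX : (D : ℤ) ∣ X
  · exfalso
    obtain ⟨X', rfl⟩ := hDX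
    have hDe : ¬ (D : ℤ) ∣ α * e := by
      intro h4
      have h5 : IsUnit (D : ℤ) := hcop2.isUnit_of_dvd' ⟨β * X', by ring⟩ h4
      exact hDp.not_isUnit h5
    have hDe' : ¬ (D : ℤ) ∣ e := fun h4 => hDe (h4.mul_left α)
    set P : ℤ := β * D * X' ^ 2 - 4 * α * e ^ 2 with hP
    set Q : ℤ := β * D * X' ^ 2 + (v : ℤ) ^ 2 * α * e ^ 2 with hQ
    have h4 : (D : ℤ) ^ 2 * (P * Q) = b * N2 ^ 2 := by rw [← h3, hP, hQ]; ring
    obtain ⟨N3, hN3⟩ : (D : ℤ) ∣ N2 := by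
      have h5 : (D : ℤ) ∣ b * N2 ^ 2 := ⟨D * (P * Q), by rw [← h4]; ring⟩
      exact hDp.dvd_of_dvd_pow ((hDp.dvd_or_dvd h5).resolve_left hDb)
    have h5 : P * Q = b * N3 ^ 2 := by
      apply mul_left_cancel₀ (pow_ne_zero 2 hD0)
      rw [h4, hN3]; ring
    have hDP : ¬ (D : ℤ) ∣ P := by
      intro h6
      have h7 : (D : ℤ) ∣ 4 * (α * e * e) := by
        have := dvd_sub (Dvd.intro (β * X' ^ 2) (by ring) : (D : ℤ) ∣ β * D * X' ^ 2) h6
        have e1 : β * D * X' ^ 2 - P = 4 * (α * e * e) := by rw [hP]; ring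
        rwa [e1] at this
      rcases hDp.dvd_or_dvd h7 with h8 | h8
      · exact hD2 h8
      · rcases hDp.dvd_or_dvd h8 with h9 | h9
        · exact hDe h9
        · exact hDe' h9
    have hDQ : ¬ (D : ℤ) ∣ Q := by
      intro h6
      have h7 : (D : ℤ) ∣ (v : ℤ) ^ 2 * (α * e * e) := by
        have := dvd_sub h6 (Dvd.intro (β * X' ^ 2) (by ring) : (D : ℤ) ∣ β * D * X' ^ 2)
        have e1 : Q - β * D * X' ^ 2 = (v : ℤ) ^ 2 * (α * e * e) := by rw [hQ]; ring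
        rwa [e1] at this
      rcases hDp.dvd_or_dvd h7 with h8 | h8
      · exact hDv' (hDp.dvd_of_dvd_pow h8)
      · rcases hDp.dvd_or_dvd h8 with h9 | h9
        · exact hDe h9
        · exact hDe' h9
    have hP0 : P ≠ 0 := fun h6 => hDP (by rw [h6]; exact dvd_zero _)
    have hQ0 : Q ≠ 0 := fun h6 => hDQ (by rw [h6]; exact dvd_zero _)
    have hK0 : N3 ≠ 0 := by
      rintro rfl
      rw [show b * (0 : ℤ) ^ 2 = 0 by ring] at h5
      rcases mul_eq_zero.1 h5 with h6 | h6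
      · exact hP0 h6
      · exact hQ0 h6
    have hxy' : IsCoprime (β * X' ^ 2) (α * e ^ 2) := by
      have e1 : β * (D * X') ^ 2 = D ^ 2 * (β * X' ^ 2) := by ring
      rw [e1] at hxy
      exact hxy.of_mul_left_right
    have hPD : IsCoprime P ((D : ℤ) * D ^ 2) := by
      have h6 : IsCoprime P (D : ℤ) := ((hDp.coprime_iff_not_dvd).mpr hDP).symm
      exact h6.mul_right h6.pow_right
    have hPQ : IsCoprime P Q := by
      refine des_cop (u := (v : ℤ) ^ 2) (w := 4) hxy' hPD ?_ ?_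
      · rw [hP, hQ, hDv]; ring
      · rw [hP, hQ, hDv]; ring
    obtain ⟨a₁, a₂, r, s, hr, hs, hab, hrs⟩ := split_sq h5 hPQ hsq hK0
    have ha1m : a₁ ∣ (m : ℤ) := (Dvd.intro _ hab).trans ⟨n, hn⟩
    have ha2m : a₂ ∣ (m : ℤ) := (Dvd.intro_left _ hab).trans ⟨n, hn⟩
    have e1 : β * (D * X') ^ 2 - 4 * D * α * e ^ 2 = D * (a₁ * r ^ 2) := by rw [← hr, hP]; ring
    have e2 : β * (D * X') ^ 2 + D * (v : ℤ) ^ 2 * α * e ^ 2 = D * (a₂ * s ^ 2) := by
      rw [← hs, hQ]; ring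
    have f1 := congrArg (Int.cast : ℤ → ZMod 8) e1
    have f2 := congrArg (Int.cast : ℤ → ZMod 8) e2
    push_cast at f1 f2
    have hab8 : (a₁ : ZMod 8) * (a₂ : ZMod 8) = 1 := by
      have := congrArg (Int.cast : ℤ → ZMod 8) hab
      push_cast at this
      rw [this]; exact des_one h8
    have key : (2 : ℤ) ∣ (D * X') ∧ (2 : ℤ) ∣ e ∨
        ((a₁ : ZMod 8) = 1 ∧ 2 * ((D * X' : ℤ) : ZMod 8) = 0 ∧ 4 * (e : ZMod 8) = 4 ∧
          4 * (r : ZMod 8) = 0) := by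
      rcases hm.dvd8 ha1m with h6 | h6
      · have g1 := des_one h6
        have g2 : (a₂ : ZMod 8) = 1 := by rw [g1, one_mul] at hab8; exact hab8
        have t := des_tab3 ((D * X' : ℤ) : ZMod 8) (e : ZMod 8) (r : ZMod 8) (s : ZMod 8) ?_ ?_
        · rcases t with ⟨t1, t2⟩ | ⟨t1, t2, t3⟩
          · exact Or.inl ⟨des_even t1, des_even t2⟩
          · exact Or.inr ⟨g1, t1, t2, t3⟩
        · rw [z1, z2, z3, g1] at f1
          push_cast
          rw [z3]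
          linear_combination f1
        · rw [z1, z2, z3, g2, z4] at f2
          push_cast
          rw [z3]
          linear_combination f2
      · have g1 := des_seven h6
        have g2 : (a₂ : ZMod 8) = -1 := by rw [g1] at hab8; linear_combination -hab8
        have t := des_tab2 ((D * X' : ℤ) : ZMod 8) (e : ZMod 8) (r : ZMod 8) (s : ZMod 8) ?_ ?_
        · exact Or.inl ⟨des_even t.1, des_even t.2⟩
        · rw [z1, z2, z3, g1] at f1
          push_cast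
          rw [z3]
          linear_combination f1
        · rw [z1, z2, z3, g2, z4] at f2
          push_cast
          rw [z3]
          linear_combination f2
    rcases key with key | ⟨g1, g2, g3, g4⟩
    · exact hnot key
    · -- the last case, modulo 4 after division by 4
      obtain ⟨r1, hr1⟩ := des_even g4
      have h6 : (8 : ℤ) ∣ 2 * (D * X') := by
        have : ((2 * (D * X') : ℤ) : ZMod 8) = 0 := by push_cast; push_cast at g2; exact g2
        exact (ZMod.intCast_zmod_eq_zero_iff_dvd (2 * (D * X')) 8).1 this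
      have hX4 : (4 : ℤ) ∣ X' := by
        have h7 : (4 : ℤ) ∣ D * X' := by omega
        have h8 : IsCoprime (4 : ℤ) (D : ℤ) := by
          obtain ⟨j, hj⟩ : ∃ j, (D : ℤ) = 8 * j + 5 := ⟨D / 8, by omega⟩
          exact ⟨-(2 * j + 1), 1, by rw [hj]; ring⟩
        exact h8.dvd_of_dvd_mul_left h7
      obtain ⟨x, hx⟩ := hX4
      have heo : e % 2 = 1 := by
        have : ((4 * e - 4 : ℤ) : ZMod 8) = 0 := by push_cast; rw [g3]; ring
        have := (ZMod.intCast_zmod_eq_zero_iff_dvd (4 * e - 4) 8).1 this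
        omega
      have ha8 : a₁ % 8 = 1 := by
        have : ((a₁ - 1 : ℤ) : ZMod 8) = 0 := by push_cast; rw [g1]; ring
        have := (ZMod.intCast_zmod_eq_zero_iff_dvd (a₁ - 1) 8).1 this
        omega
      have e3 : 4 * (β * D * x ^ 2) - α * e ^ 2 = a₁ * r1 ^ 2 := by
        have h7 : P = a₁ * r ^ 2 := hr
        rw [hP, hx, hr1] at h7
        linarith
      obtain ⟨i, hi⟩ : ∃ i, α = 8 * i + 1 := ⟨α / 8, by omega⟩
      obtain ⟨j, hj⟩ : ∃ j, a₁ = 8 * j + 1 := ⟨a₁ / 8, by omega⟩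
      obtain ⟨l, hl⟩ : ∃ l, e = 2 * l + 1 := ⟨e / 2, by omega⟩
      have e4 : r1 ^ 2 = 4 * (β * D * x ^ 2 - 2 * i * (2 * l + 1) ^ 2 - l ^ 2 - l -
          2 * j * r1 ^ 2) - 1 := by
        rw [hi, hj, hl] at e3
        linear_combination -e3
      rcases Int.emod_two_eq_zero_or_one r1 with h7 | h7
      · obtain ⟨q, hq⟩ := Int.dvd_of_emod_eq_zero h7
        have : r1 ^ 2 = 4 * q ^ 2 := by rw [hq]; ring
        omega
      · obtain ⟨q, hq⟩ : ∃ q, r1 = 2 * q + 1 := ⟨r1 / 2, by omega⟩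
        have : r1 ^ 2 = 4 * (q ^ 2 + q) + 1 := by rw [hq]; ring
        omega
  · -- the main case
    set P : ℤ := β * X ^ 2 - 4 * D * α * e ^ 2 with hP
    set Q : ℤ := β * X ^ 2 + D * (v : ℤ) ^ 2 * α * e ^ 2 with hQ
    have hDβX : ¬ (D : ℤ) ∣ β * X ^ 2 := by
      intro h4
      rcases hDp.dvd_or_dvd h4 with h5 | h5
      · exact hDβ h5
      · exact hDX (hDp.dvd_of_dvd_pow h5)
    have hDP : ¬ (D : ℤ) ∣ P := by
      intro h4
      apply hDβX
      have := dvd_add h4 (Dvd.intro (4 * α * e ^ 2) rfl : (D : ℤ) ∣ D * (4 * α * e ^ 2))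
      have e1 : P + D * (4 * α * e ^ 2) = β * X ^ 2 := by rw [hP]; ring
      rwa [e1] at this
    have hDQ : ¬ (D : ℤ) ∣ Q := by
      intro h4
      apply hDβX
      have := dvd_sub h4 (Dvd.intro ((v : ℤ) ^ 2 * α * e ^ 2) rfl :
        (D : ℤ) ∣ D * ((v : ℤ) ^ 2 * α * e ^ 2))
      have e1 : Q - D * ((v : ℤ) ^ 2 * α * e ^ 2) = β * X ^ 2 := by rw [hQ]; ring
      rwa [e1] at this
    have hP0 : P ≠ 0 := fun h6 => hDP (by rw [h6]; exact dvd_zero _)
    have hQ0 : Q ≠ 0 := fun h6 => hDQ (by rw [h6]; exact dvd_zero _)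
    have hK0 : N2 ≠ 0 := by
      rintro rfl
      rw [show b * (0 : ℤ) ^ 2 = 0 by ring] at h3
      rcases mul_eq_zero.1 h3 with h6 | h6
      · exact hP0 h6
      · exact hQ0 h6
    have hPD : IsCoprime P ((D : ℤ) ^ 2 * D) := by
      have h6 : IsCoprime P (D : ℤ) := ((hDp.coprime_iff_not_dvd).mpr hDP).symm
      exact h6.pow_right.mul_right h6
    have hPQ : IsCoprime P Q := by
      refine des_cop (u := (v : ℤ) ^ 2) (w := 4) hxy hPD ?_ ?_
      · rw [hP, hQ, hDv]; ring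
      · rw [hP, hQ, hDv]; ring
    obtain ⟨a₁, a₂, r, s, hr, hs, hab, hrs⟩ := split_sq h3 hPQ hsq hK0
    have ha1m : a₁ ∣ (m : ℤ) := (Dvd.intro _ hab).trans ⟨n, hn⟩
    have hab8 : (a₁ : ZMod 8) * (a₂ : ZMod 8) = 1 := by
      have := congrArg (Int.cast : ℤ → ZMod 8) hab
      push_cast at this
      rw [this]; exact des_one h8
    have f1 := congrArg (Int.cast : ℤ → ZMod 8) hr
    have f2 := congrArg (Int.cast : ℤ → ZMod 8) hs
    rw [hP] at f1
    rw [hQ] at f2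
    push_cast at f1 f2
    rcases hm.dvd8 ha1m with h6 | h6
    · have ha2 : a₂ % 8 = 1 := by
        obtain ⟨i, hi⟩ : ∃ i, a₁ = 8 * i + 1 := ⟨a₁ / 8, by omega⟩
        have : b = 8 * (i * a₂) + a₂ := by rw [← hab, hi]; ring
        omega
      refine ⟨α, β, a₁, a₂, X, r, s, e, ⟨?_, hα8, hβ8, h6, ha2, hr, hs, hcop2⟩, hab.symm⟩
      rw [mul_assoc, hab]; exact hprod
    · exfalso
      have g1 := des_seven h6
      have g2 : (a₂ : ZMod 8) = -1 := by rw [g1] at hab8; linear_combination -hab8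
      have t := des_tab1 (X : ZMod 8) (e : ZMod 8) (r : ZMod 8) (s : ZMod 8) ?_ ?_
      · exact hnot ⟨des_even t.1, des_even t.2⟩
      · rw [z1, z2, z3, g1] at f1
        linear_combination f1
      · rw [z1, z2, z3, g2, z4] at f2
        linear_combination f2

end Pool.Agent.NCM
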