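import Pool.Agent.NCM.BAS
import Pool.Agent.NCM.PRM

set_option autoImplicit false

/-!
The descent quartic of the isogenous curve for the class `m` gives a pair of conics.

Proof. The quartic is `N^2 = m M^4 - 2 m D (v^2-4) M^2 e^2 + D^4 m e^4`; a primitive solution has
`N = m N1`, `m N1^2 = M^4 - 2D(v^2-4)M^2e^2 + D^4e^4`. With `X = N1`, `e0 = 2 M e`:
`m X^2 - 4 D e0^2 = (M^2 - D^2 e^2)^2`, `m X^2 + D v^2 e0^2 = (M^2 + D^2 e^2)^2` (`D = v^2 + 4`).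
`(X, e0) ≠ (0, 0)`: else `M e = 0` and `M^4 + D^4 e^4 = 0`. Divide by `g = gcd (X, e0)`: `g^2` divides
`V^2`, `W^2`. Then `IsCoprime X e0`; and `p | m`, `p | e0` gives `p | V`, `p | W`, `p^2 | m X^2`, `p | X`. So
`IsCoprime (m X) e0`.
-/

namespace Pool.Agent.NCM

open Pool.Agent.H23 in
theorem sys_of_glob' {v D m : ℕ} (h : Par v D) (hm : Fam v D m)
    (hb : QSol ℚ (-2 * aE v D m) (aE v D m ^ 2 - 4 * bE v D m) (m : ℤ)) :
    ∃ X V W e : ℤ, Sys v D m 1 m 1 1 X V W e := by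
  have hm0 : (m : ℤ) ≠ 0 := by exact_mod_cast hm.m_ne
  have hD := h.eqZ
  have hDpos : (0 : ℤ) < D := by exact_mod_cast h.prime.pos
  have hmsq : Squarefree (m : ℤ) := Int.squarefree_natCast.2 hm.sqf
  obtain ⟨N', M', e', hne', heq'⟩ := hb
  have hdiv : (aE v D m ^ 2 - 4 * bE v D m) / (m : ℤ) = (D : ℤ) ^ 4 * m := by
    rw [disc v D m h.eq]
    have : (D : ℤ) ^ 4 * (m : ℤ) ^ 2 = (D : ℤ) ^ 4 * m * m := by ring
    rw [this, Int.mul_ediv_cancel _ hm0]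
  rw [hdiv] at heq'
  obtain ⟨N, M, e, hcop, heq⟩ := prim_sol ⟨N', M', e', hne', heq'⟩
  -- `m ∣ N`
  have hmN : (m : ℤ) ∣ N := by
    have h1 : (m : ℤ) ∣ N ^ 2 := by
      rw [heq]
      refine ⟨M ^ 4 - 2 * (D * ((v : ℤ) ^ 2 - 4)) * M ^ 2 * e ^ 2 + (D : ℤ) ^ 4 * e ^ 4, ?_⟩
      unfold aE
      ring
    exact (hmsq.dvd_pow_iff_dvd two_ne_zero).1 h1
  obtain ⟨X0, hX0⟩ := hmN
  have hq : (m : ℤ) * X0 ^ 2 = M ^ 4 - 2 * (D * ((v : ℤ) ^ 2 - 4)) * M ^ 2 * e ^ 2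
      + (D : ℤ) ^ 4 * e ^ 4 := by
    have h1 : (m : ℤ) * ((m : ℤ) * X0 ^ 2) = m * (M ^ 4 - 2 * (D * ((v : ℤ) ^ 2 - 4)) * M ^ 2 * e ^ 2
        + (D : ℤ) ^ 4 * e ^ 4) := by
      rw [hX0] at heq
      unfold aE at heq
      linear_combination heq
    exact mul_left_cancel₀ hm0 h1
  set V0 : ℤ := M ^ 2 - D ^ 2 * e ^ 2 with hV0
  set W0 : ℤ := M ^ 2 + D ^ 2 * e ^ 2 with hW0
  set e0 : ℤ := 2 * M * e with he0
  have hv2 : (v : ℤ) ^ 2 = D - 4 := by rw [hD]; ring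
  have h1 : (m : ℤ) * X0 ^ 2 - 4 * D * e0 ^ 2 = V0 ^ 2 := by
    rw [hq, hV0, he0, hv2]
    ring
  have h2 : (m : ℤ) * X0 ^ 2 + D * (v : ℤ) ^ 2 * e0 ^ 2 = W0 ^ 2 := by
    rw [hq, hW0, he0, hv2]
    ring
  have hne : ¬ (X0 = 0 ∧ e0 = 0) := by
    rintro ⟨hx, he⟩
    rw [hx, he] at h2
    have h3 : W0 ^ 2 = 0 := by rw [← h2]; ring
    have h4 : W0 = 0 := by simpa using h3
    rw [hW0] at h4
    have h5 : 0 ≤ M ^ 2 := sq_nonneg M
    have h6 : 0 ≤ (D : ℤ) ^ 2 * e ^ 2 := by positivity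
    have h7 : M ^ 2 = 0 := by linarith
    have h8 : (D : ℤ) ^ 2 * e ^ 2 = 0 := by linarith
    have h9 : M = 0 := by simpa using h7
    have h10 : e = 0 := by
      rcases mul_eq_zero.1 h8 with h11 | h11
      · exfalso
        have : (D : ℤ) = 0 := by simpa using h11
        omega
      · simpa using h11
    rw [h9, h10] at hcop
    exact not_isCoprime_zero_zero hcop
  -- divide by the gcd
  have hg0 : (Int.gcd X0 e0 : ℤ) ≠ 0 := by
    intro h3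
    apply hne
    have h4 : Int.gcd X0 e0 = 0 := by exact_mod_cast h3
    exact Int.gcd_eq_zero_iff.1 h4
  set g : ℤ := (Int.gcd X0 e0 : ℤ) with hg
  obtain ⟨X, hX⟩ : g ∣ X0 := Int.gcd_dvd_left ..
  obtain ⟨E, hE⟩ : g ∣ e0 := Int.gcd_dvd_right ..
  have hXE : IsCoprime X E := by
    have h3 := Int.gcd_eq_gcd_ab X0 e0
    refine ⟨Int.gcdA X0 e0, Int.gcdB X0 e0, ?_⟩
    have h4 : g * (Int.gcdA X0 e0 * X + Int.gcdB X0 e0 * E) = g * 1 := by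
      rw [mul_one]
      conv_rhs => rw [hg, h3]
      have e3 : g * (Int.gcdA X0 e0 * X + Int.gcdB X0 e0 * E)
          = (g * X) * Int.gcdA X0 e0 + (g * E) * Int.gcdB X0 e0 := by ring
      rw [e3, ← hX, ← hE]
    exact mul_left_cancel₀ hg0 h4
  have hgsq : g ^ 2 ≠ 0 := pow_ne_zero 2 hg0
  obtain ⟨V, hV⟩ : g ∣ V0 := by
    rw [← Int.pow_dvd_pow_iff two_ne_zero]
    refine ⟨m * X ^ 2 - 4 * D * E ^ 2, ?_⟩
    rw [← h1, hX, hE]
    ring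
  obtain ⟨W, hW⟩ : g ∣ W0 := by
    rw [← Int.pow_dvd_pow_iff two_ne_zero]
    refine ⟨m * X ^ 2 + D * (v : ℤ) ^ 2 * E ^ 2, ?_⟩
    rw [← h2, hX, hE]
    ring
  have k1 : (m : ℤ) * X ^ 2 - 4 * D * E ^ 2 = V ^ 2 := by
    apply mul_left_cancel₀ hgsq
    rw [hX, hE, hV] at h1
    linear_combination h1
  have k2 : (m : ℤ) * X ^ 2 + D * (v : ℤ) ^ 2 * E ^ 2 = W ^ 2 := by
    apply mul_left_cancel₀ hgsq
    rw [hX, hE, hW] at h2
    linear_combination h2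
  have hmE : IsCoprime (m : ℤ) E := by
    refine isCoprime_of_prime_dvd (fun h3 => hm0 h3.1) fun z hz hzm hzE => ?_
    have h3 : z ∣ V := by
      have h4 : z ∣ V ^ 2 := by
        rw [← k1]
        refine dvd_sub (hzm.mul_right _) ?_
        exact (dvd_pow hzE two_ne_zero).mul_left _
      exact hz.dvd_of_dvd_pow h4
    obtain ⟨m', hm'⟩ := hzm
    obtain ⟨E', hE'⟩ := hzE
    obtain ⟨V', hV'⟩ := h3
    have h5 : m' * X ^ 2 = z * (V' ^ 2 + 4 * D * E' ^ 2) := by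
      apply mul_left_cancel₀ hz.ne_zero
      rw [hm', hE', hV'] at k1
      linear_combination k1
    have h6 : z ∣ m' * X ^ 2 := ⟨_, h5⟩
    rcases hz.dvd_or_dvd h6 with h7 | h7
    · obtain ⟨k, hk⟩ := h7
      have : z * z ∣ (m : ℤ) := ⟨k, by rw [hm', hk]; ring⟩
      exact hz.not_isUnit (hmsq z this)
    · have h8 := hz.dvd_of_dvd_pow h7
      exact hz.not_isUnit (hXE.isUnit_of_dvd' h8 ⟨E', hE'⟩)
  refine ⟨X, V, W, E, ?_⟩
  refine ⟨by ring, by norm_num, ?_, by norm_num, by norm_num, ?_, ?_, ?_⟩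
  · have := hm.mod8
    omega
  · linear_combination k1
  · linear_combination k2
  · rw [one_mul]
    exact IsCoprime.mul_left hmE hXE

end Pool.Agent.NCM
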