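import Pool.Agent.RZ.Defs
import Pool.Agent.H23.Selmer

set_option autoImplicit false

/-!
# NCM (MP_e2b281_nt): rank zero and arbitrarily large even Selmer rank in thin families of quadratic
twists of curves without complex multiplication. Definitions.

`v` odd, every prime of `v` is `3` modulo `4`, `D = v^2 + 4` prime. Base curve
`y^2 = x (x - 4D) (x + D v^2)`, twists `E_m : y^2 = x (x - 4Dm) (x + D v^2 m)`, i.e.
`a = m D (v^2 - 4)`, `b = -4 D^2 v^2 m^2`, `a^2 - 4b = D^4 m^2`. See `NCM_PAPER.md` in the team store.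
-/

namespace Pool.Agent.NCM

/-- the parameters of the base curve -/
structure Par (v D : ℕ) : Prop where
  odd : v % 2 = 1
  pr3 : ∀ q : ℕ, q.Prime → q ∣ v → q % 4 = 3
  eq : D = v ^ 2 + 4
  prime : D.Prime

/-- the thin family -/
structure Fam (v D m : ℕ) : Prop where
  one_lt : 1 < m
  mod8 : m % 8 = 1
  sqf : Squarefree m
  pr : ∀ p ∈ m.primeFactors, (p % 8 = 1 ∨ p % 8 = 7) ∧ jacobiSym (D : ℤ) p = 1 ∧
    ∀ q : ℕ, q.Prime → q ∣ v → jacobiSym (q : ℤ) p = 1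

/-- the sign normalisation `n* = 1` modulo `8` -/
def st (n : ℕ) : ℤ := if n % 8 = 7 then -(n : ℤ) else n

open Classical in
/-- the class bit: `0` iff `n*` is a fourth power modulo `D` -/
noncomputable def lam (D n : ℕ) : ZMod 2 :=
  if ∃ x : ZMod D, x ^ 4 = ((st n : ℤ) : ZMod D) then 0 else 1

/-- the class bit as a sign -/
noncomputable def lamS (D n : ℕ) : ℤ := if lam D n = 0 then 1 else -1

/-- the coefficient `a` -/
def aE (v D m : ℕ) : ℤ := m * D * ((v : ℤ) ^ 2 - 4)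

/-- the coefficient `b` -/
def bE (v D m : ℕ) : ℤ := -4 * (D : ℤ) ^ 2 * (v : ℤ) ^ 2 * (m : ℤ) ^ 2

/-- `A 1_c = lambda` -/
def RA (D m c : ℕ) : Prop := ∀ p : ℕ, p.Prime → p ∣ m →
  (¬ p ∣ c → jacobiSym (c : ℤ) p = lamS D p) ∧ (p ∣ c → jacobiSym ((m / c : ℕ) : ℤ) p = lamS D p)

/-- the consequences of `det B = 1` used in the descent -/
structure Nice (D m : ℕ) : Prop where
  ker : ∀ d : ℕ, d ∣ m → RZ.KA m d → d = 1 ∨ d = m
  kerT : ∀ d : ℕ, d ∣ m → RZ.KT m d → lam D d = 0 → d = 1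
  noR : ∀ c : ℕ, c ∣ m → ¬ RA D m c

/-- the pair of conics attached to a point with `x`-class `c2 c3` -/
structure Sys (v D m : ℕ) (α β c₂ c₃ X V W e : ℤ) : Prop where
  prod : α * β * c₂ * c₃ = m
  a8 : α % 8 = 1
  b8 : β % 8 = 1
  c8 : c₂ % 8 = 1
  d8 : c₃ % 8 = 1
  e1 : β * X ^ 2 - 4 * D * α * e ^ 2 = c₂ * V ^ 2
  e2 : β * X ^ 2 + D * (v : ℤ) ^ 2 * α * e ^ 2 = c₃ * W ^ 2
  cop : IsCoprime (β * X) (α * e)

theorem disc (v D m : ℕ) (h : D = v ^ 2 + 4) :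
    aE v D m ^ 2 - 4 * bE v D m = (D : ℤ) ^ 4 * (m : ℤ) ^ 2 := by
  unfold aE bE
  subst h
  push_cast
  ring

end Pool.Agent.NCM
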