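import Pool.Agent.NCM.RK
import Pool.Agent.NCM.LA
import Pool.Agent.NCM.CRD
import Pool.Agent.RZ.LIN
import Pool.Agent.RZ.PAR
import Pool.Agent.GTL.DT7

set_option autoImplicit false

/-!
Assembly (template `RZ/FIN.lean`).
-/

namespace Pool.Agent.NCM

open Pool.Agent.H23 Filter Topology

open Classical in
/-- the members up to `X` -/
noncomputable def fam (v D X : ℕ) : Finset ℕ := (Finset.Icc 1 X).filter (Fam v D)

private theorem fin_mem {v D X m : ℕ} : m ∈ fam v D X ↔ Fam v D m ∧ m ≤ X := by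
  classical
  unfold fam
  rw [Finset.mem_filter, Finset.mem_Icc]
  constructor
  · rintro ⟨⟨_, h2⟩, h3⟩
    exact ⟨h3, h2⟩
  · rintro ⟨h, hX⟩
    exact ⟨⟨by have := h.one_lt; omega, hX⟩, h⟩

private theorem fin_fam {v D : ℕ} (h : Par v D) (X : ℕ) :
    fam v D X = @Pool.Agent.GTL.famF (dat h) X := by
  ext m
  rw [fin_mem, famF_iff h]

/-- every member: `s` is even and at least `t7` -/
theorem selmer_all {v D m : ℕ} (h : Par v D) (hm : Fam v D m) : ∃ f₁ f₂ : ℕ,
    (Sel (aE v D m) (bE v D m)).ncard = 2 ^ f₁ ∧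
      (Sel (-2 * aE v D m) (aE v D m ^ 2 - 4 * bE v D m)).ncard = 2 ^ f₂ ∧
      Even (f₁ + f₂) ∧ RZ.t7 m + 2 ≤ f₁ + f₂ := by
  classical
  obtain ⟨ρ, hρ, h1, h2⟩ := RZ.card_lin hm.rz
  have ht := RZ.t_eq hm.rz
  obtain ⟨k, hk⟩ := RZ.t7_even hm.rz
  refine ⟨m.primeFactors.card - ρ + 2, RZ.t1 m - ρ, ?_, ?_, ?_, ?_⟩
  · rw [card_sel1 h hm, h1, pow_add]
    ring
  · rw [card_sel2 h hm, h2]
  · refine ⟨k + (RZ.t1 m - ρ) + 1, ?_⟩
    omega
  · omega

/-- the good members with `t7 > 0` -/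
theorem selmer_nice {v D m : ℕ} (h : Par v D) (hm : Fam v D m) (hn : Nice D m)
    (h7 : 0 < RZ.t7 m) :
    (Sel (aE v D m) (bE v D m)).ncard = 2 ^ (RZ.t7 m + 2) ∧
      (Sel (-2 * aE v D m) (aE v D m ^ 2 - 4 * bE v D m)).ncard = 1 := by
  classical
  obtain ⟨ρ, hρ, h1, h2⟩ := RZ.card_lin hm.rz
  have ht := RZ.t_eq hm.rz
  have hm0 : m ≠ 0 := by have := hm.one_lt; omega
  have h3 : m.divisors.filter
      (fun d => (∀ p : ℕ, p.Prime → p ∣ d → p % 8 = 1) ∧ RZ.KA m d) = {1} := by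
    ext d
    rw [Finset.mem_filter, Nat.mem_divisors, Finset.mem_singleton]
    constructor
    · rintro ⟨⟨hd, _⟩, h4, h5⟩
      rcases hn.ker d hd h5 with h | h
      · exact h
      · exfalso
        obtain ⟨p, hp⟩ := Finset.card_pos.1 h7
        rw [Finset.mem_filter] at hp
        have h6 := h4 p (Nat.prime_of_mem_primeFactors hp.1)
          (by rw [h]; exact Nat.dvd_of_mem_primeFactors hp.1)
        have := hp.2
        omega
    · rintro rfl
      refine ⟨⟨one_dvd _, hm0⟩, ?_, ?_⟩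
      · intro p hp hd
        exact absurd (Nat.dvd_one.1 hd) hp.ne_one
      · intro p hp _
        refine ⟨fun _ => ?_, fun hd => absurd (Nat.dvd_one.1 hd) hp.ne_one⟩
        rw [Nat.cast_one]
        exact jacobiSym.one_left p
  have h4 : (m.divisors.filter
      (fun d => (∀ p : ℕ, p.Prime → p ∣ d → p % 8 = 1) ∧ RZ.KA m d)).card = 1 := by
    rw [h3, Finset.card_singleton]
  have h5 : RZ.t1 m - ρ = 0 := by
    rw [h4] at h2
    rcases Nat.eq_zero_or_pos (RZ.t1 m - ρ) with h | h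
    · exact h
    · have := Nat.one_lt_two_pow (n := RZ.t1 m - ρ) (by omega)
      omega
  refine ⟨?_, ?_⟩
  · rw [card_sel1 h hm, h1]
    have : m.primeFactors.card - ρ = RZ.t7 m := by omega
    rw [this, pow_add]
    ring
  · rw [card_sel2 h hm, h4]

open Classical in
theorem prop_good {v D : ℕ} (h : Par v D) (K : ℕ) (c : ℝ)
    (hc : c < ∏' i : ℕ, (1 - (1 / 2 : ℝ) ^ (i + 1))) :
    ∀ᶠ X : ℕ in atTop, c * ((fam v D X).card : ℝ) ≤
      (((fam v D X).filter (fun m : ℕ => mwRank (aE v D m) (bE v D m) = 0 ∧ K ≤ RZ.t7 m ∧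
        Even (RZ.t7 m) ∧
        (Sel (aE v D m) (bE v D m)).ncard = 2 ^ (RZ.t7 m + 2) ∧
        (Sel (-2 * aE v D m) (aE v D m ^ 2 - 4 * bE v D m)).ncard = 1)).card : ℝ) := by
  let _ := dat h
  have hd : Tendsto (fun X : ℕ => (∑ m ∈ Pool.Agent.GTL.famF X, Pool.Agent.GTL.gT m) /
      ((Pool.Agent.GTL.famF X).card : ℝ)) atTop (𝓝 Pool.Agent.TLW.Pinf) := Pool.Agent.GTL.dens
  have hf := Pool.Agent.GTL.few_t7 (max K 1)
  have h1 := hd.sub hf
  rw [sub_zero] at h1
  have h2 := (h1.eventually (lt_mem_nhds (show c < Pool.Agent.TLW.Pinf from hc)))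
  filter_upwards [h2] with X hX
  have hfam := fin_fam h X
  rw [← hfam] at hX
  rcases Nat.eq_zero_or_pos (fam v D X).card with h0 | h0
  · rw [h0]
    simp
  have hN : (0 : ℝ) < ((fam v D X).card : ℝ) := by exact_mod_cast h0
  have h3 : (∑ m ∈ fam v D X, Pool.Agent.GTL.gT m) -
      (((fam v D X).filter (fun m => Pool.Agent.GTL.t7 m < max K 1)).card : ℝ) ≥
      c * ((fam v D X).card : ℝ) := by
    rw [← sub_div, lt_div_iff₀ hN] at hX
    exact hX.le
  refine h3.le.trans ?_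
  rw [sub_le_iff_le_add]
  have h4 : ∑ m ∈ fam v D X, Pool.Agent.GTL.gT m =
      (((fam v D X).filter (fun m => Pool.Agent.GTL.gT m = 1)).card : ℝ) := by
    rw [Finset.card_filter]
    push_cast
    refine Finset.sum_congr rfl fun m _ => ?_
    have : Pool.Agent.GTL.gT m = 0 ∨ Pool.Agent.GTL.gT m = 1 := by
      unfold Pool.Agent.GTL.gT
      split_ifs
      · exact Or.inr rfl
      · exact Or.inl rfl
    rcases this with h | h
    · rw [h, if_neg (by norm_num)]
    · rw [h, if_pos rfl]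
  rw [h4]
  have h5 : (fam v D X).filter (fun m => Pool.Agent.GTL.gT m = 1) ⊆
      ((fam v D X).filter (fun m : ℕ => mwRank (aE v D m) (bE v D m) = 0 ∧ K ≤ RZ.t7 m ∧
        Even (RZ.t7 m) ∧
        (Sel (aE v D m) (bE v D m)).ncard = 2 ^ (RZ.t7 m + 2) ∧
        (Sel (-2 * aE v D m) (aE v D m ^ 2 - 4 * bE v D m)).ncard = 1)) ∪
      ((fam v D X).filter (fun m => Pool.Agent.GTL.t7 m < max K 1)) := by
    intro m hm
    rw [Finset.mem_filter] at hm
    obtain ⟨hm1, hm2⟩ := hm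
    have hF := (fin_mem.1 hm1).1
    have hn := nice_of_gT h hF hm2
    rw [Finset.mem_union, Finset.mem_filter, Finset.mem_filter]
    by_cases h7 : Pool.Agent.GTL.t7 m < max K 1
    · exact Or.inr ⟨hm1, h7⟩
    · push Not at h7
      have h7' : max K 1 ≤ RZ.t7 m := h7
      obtain ⟨h8, h9⟩ := selmer_nice h hF hn (by
        have := (le_max_right K 1).trans h7'
        omega)
      exact Or.inl ⟨hm1, rank_zero h hF hn, (le_max_left K 1).trans h7', RZ.t7_even hF.rz, h8, h9⟩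
  have h6 := (Finset.card_le_card h5).trans (Finset.card_union_le _ _)
  exact_mod_cast h6

end Pool.Agent.NCM
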