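import Pool.Agent.NCM.BAS

set_option autoImplicit false

/-! The curves are nonsingular and their `j`-invariant is not an integer. -/

namespace Pool.Agent.NCM

theorem bE_ne {v D m : ℕ} (h : Par v D) (hm : 0 < m) : bE v D m ≠ 0 := by
  have h1 : (D : ℤ) ≠ 0 := by exact_mod_cast h.prime.ne_zero
  have h2 : (v : ℤ) ≠ 0 := by have := h.v_pos; omega
  have h3 : (m : ℤ) ≠ 0 := by omega
  unfold bE
  exact mul_ne_zero (mul_ne_zero (mul_ne_zero (by norm_num) (pow_ne_zero 2 h1)) (pow_ne_zero 2 h2))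
    (pow_ne_zero 2 h3)

theorem disc_ne {v D m : ℕ} (h : Par v D) (hm : 0 < m) : aE v D m ^ 2 - 4 * bE v D m ≠ 0 := by
  have h1 : (D : ℤ) ≠ 0 := by exact_mod_cast h.prime.ne_zero
  have h3 : (m : ℤ) ≠ 0 := by omega
  rw [disc v D m h.eq]
  exact mul_ne_zero (pow_ne_zero 4 h1) (pow_ne_zero 2 h3)

/-- the `j`-invariant `256 (a² - 3b)³ / (b² (a² - 4b))` is not an integer -/
theorem jinv {v D m : ℕ} (h : Par v D) (hm : 0 < m) :
    ¬ bE v D m ^ 2 * (aE v D m ^ 2 - 4 * bE v D m) ∣ 256 * (aE v D m ^ 2 - 3 * bE v D m) ^ 3 := by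
  have h1 : (D : ℤ) ≠ 0 := by exact_mod_cast h.prime.ne_zero
  have h3 : (m : ℤ) ≠ 0 := by omega
  have hp : Prime (D : ℤ) := Nat.prime_iff_prime_int.1 h.prime
  rintro ⟨k, hk⟩
  rw [disc v D m h.eq] at hk
  have e : (16 * (m : ℤ) ^ 6 * (D : ℤ) ^ 6) * (16 * ((v : ℤ) ^ 2 * D + 16) ^ 3) =
      (16 * (m : ℤ) ^ 6 * (D : ℤ) ^ 6) * ((D : ℤ) * (D * (v : ℤ) ^ 4 * k)) := by
    have e1 : aE v D m ^ 2 - 3 * bE v D m = (m : ℤ) ^ 2 * D ^ 2 * ((v : ℤ) ^ 2 * D + 16) := by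
      unfold aE bE
      rw [h.eqZ]; ring
    rw [e1] at hk
    unfold bE at hk
    linear_combination hk
  have h4 := mul_left_cancel₀ (mul_ne_zero (mul_ne_zero (by norm_num) (pow_ne_zero 6 h3))
    (pow_ne_zero 6 h1)) e
  have h5 : (D : ℤ) ∣ 16 * ((v : ℤ) ^ 2 * D + 16) ^ 3 := ⟨_, h4⟩
  have h16 : ¬ (D : ℤ) ∣ 16 := by
    intro h6
    have h7 : (D : ℤ) ∣ 2 := hp.dvd_of_dvd_pow (n := 4) (by norm_num; exact h6)
    have h8 : D ∣ 2 := by exact_mod_cast h7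
    have := Nat.le_of_dvd two_pos h8
    have := h.eq
    have := h.v_pos
    nlinarith
  rcases hp.dvd_or_dvd h5 with h6 | h6
  · exact h16 h6
  · have h7 := hp.dvd_of_dvd_pow h6
    apply h16
    have h8 := dvd_sub h7 (Dvd.intro_left ((v : ℤ) ^ 2) rfl : (D : ℤ) ∣ (v : ℤ) ^ 2 * D)
    rwa [add_sub_cancel_left] at h8

end Pool.Agent.NCM
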