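import Pool.Agent.NCM.CNC

set_option autoImplicit false

/-!
The class bit of a prime through a square root of `D`.

Proof. Let `θ^2 = D` modulo `p`. `x = ± θ y` modulo `p`, so `(x(x+vy)/p) = (θ'(θ'+v)/p)`, `θ' = ± θ`, and the two
choices agree (`θ(θ+v) · (-θ)(-θ+v) = 4D` modulo `p`, as `D - v^2 = 4`). `2(θ+2)(θ+v) = (θ+2+v)^2`, so
`((θ+2)/p) = ((θ+v)/p)` (nonzero: `(θ+2)(θ-2) = v^2`, `(θ+v)(θ-v) = 4`, `p ∤ 2v`, `(2/p) = 1`). It remains one
value. Take `X, Y, Z` of `CNC.conic`: `p ∤ Y`, `X^2 = DY^2` modulo `p`. Write `p* = st p = 1` modulo `8`.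
For odd `n`: `(n/p) = (p*/|n|)` times `(sign n / p)`. A prime `l | X` odd: `p* Z^2 = -D Y^2`, so
`(p*/l) = χ4(l) (D/l)`; `l | X + vY` odd: `(X+vY)(X-vY) = p*Z^2 + 4Y^2`, `(p*/l) = χ4(l)` (`l ∤ Y`, `Z`: a common prime of `l`
and `Y` divides `X`; `l ≠ p` as `p ∤ X (X + vY)`). So, `X'`, `n'` odd parts of `X`, `X + vY`:
`(X(X+vY)/p) = χ4(X' n') (X'/D)` [signs: for `p = 7` modulo `8` the sign characters cancel
(`χ4(-1) = -1 = (-1/p)`); for `p = 1` modulo `8`, `p* = p > 0`, `X^2 > DY^2 > v^2Y^2`, so `X(X+vY) > 0`].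
`lamS D p = (X/D)(Z/D)` by `lamS_eq`; primes `l | Z` odd have `(D/l) = 1`.
Modulo `8`: `X^2 + 3Y^2 = Z^2`. Case A: `Z` odd, then `X` odd, `4 | Y`: `(Z/D) = 1`, `X' = X`, `n' = X + vY = X` modulo `4`.
Case B: `Z` even, `X`, `Y` odd, `Z = 2` modulo `4`: `(Z/D) = (2/D) = -1`, `X' = X`, and `(X+vY)(X-vY) = 4(p*Z1^2+Y^2)`,
`p*Z1^2 + Y^2 = 2` modulo `8`; so `X + vY = 2n'`, `X - vY = 4k'` or `X + vY = 4n'`, `X - vY = 2k'` with `n' = k'`
modulo `4`, hence `X = n' + 2` modulo `4`, `χ4(X n') = -1`. In both cases the value is `lamS D p`.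
-/

namespace Pool.Agent.NCM

private def c4 (a : ℤ) : ℤ := if a % 4 = 1 then 1 else -1

private def sg (a : ℤ) : ℤ := if 0 < a then 1 else -1

private theorem c4_sq (a : ℤ) : c4 a * c4 a = 1 := by
  unfold c4; split_ifs <;> norm_num

private theorem sg_sq (a : ℤ) : sg a * sg a = 1 := by
  unfold sg; split_ifs <;> norm_num

private theorem lmd_cop {P Q : ℤ} (h : ∀ l : ℕ, l.Prime → (l : ℤ) ∣ P → (l : ℤ) ∣ Q → False) :
    IsCoprime P Q := by
  rw [Int.isCoprime_iff_gcd_eq_one]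
  by_contra hne
  obtain ⟨l, hl, hld⟩ := Nat.exists_prime_and_dvd hne
  have h1 : (l : ℤ) ∣ (Int.gcd P Q : ℤ) := by exact_mod_cast hld
  exact h l hl (h1.trans (Int.gcd_dvd_left _ _)) (h1.trans (Int.gcd_dvd_right _ _))

private theorem lmd_neg_one {a : ℤ} (ha : a % 2 = 1) :
    jacobiSym (-1) a.natAbs = sg a * c4 a := by
  have ho : Odd a.natAbs := Nat.odd_iff.2 (by omega)
  rw [jacobiSym.at_neg_one ho, ZMod.χ₄_nat_eq_if_mod_four]
  unfold sg c4
  split_ifs <;> omega

private theorem lmd_rec1 {p : ℕ} (h8 : p % 8 = 1) {n : ℤ} (hn : n % 2 = 1) :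
    jacobiSym n p = jacobiSym (st p) n.natAbs := by
  have ho : Odd n.natAbs := Nat.odd_iff.2 (by omega)
  have hpo : Odd p := Nat.odd_iff.2 (by omega)
  have hst : st p = (p : ℤ) := by unfold st; rw [if_neg (by omega)]
  rw [hst, jacobiSym.quadratic_reciprocity_one_mod_four (by omega) ho]
  rcases Int.natAbs_eq n with h1 | h1
  · conv_lhs => rw [h1]
  · conv_lhs => rw [h1]
    rw [jacobiSym.neg _ hpo, ZMod.χ₄_nat_one_mod_four (by omega), one_mul]

private theorem lmd_rec7 {p : ℕ} (h8 : p % 8 = 7) {n : ℤ} (hn : n % 2 = 1) :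
    jacobiSym n p = sg n * jacobiSym (st p) n.natAbs := by
  have ho : Odd n.natAbs := Nat.odd_iff.2 (by omega)
  have hpo : Odd p := Nat.odd_iff.2 (by omega)
  have hst : st p = -(p : ℤ) := by unfold st; rw [if_pos h8]
  have key : jacobiSym (n.natAbs : ℤ) p = jacobiSym (st p) n.natAbs := by
    rw [hst, jacobiSym.neg _ ho]
    have h4 : n.natAbs % 4 = 1 ∨ n.natAbs % 4 = 3 := by omega
    rcases h4 with h4 | h4
    · rw [ZMod.χ₄_nat_one_mod_four h4, one_mul,
        jacobiSym.quadratic_reciprocity_one_mod_four h4 hpo]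
    · rw [ZMod.χ₄_nat_three_mod_four h4,
        jacobiSym.quadratic_reciprocity_three_mod_four h4 (by omega)]
      ring
  rw [← key]
  unfold sg
  rcases Int.natAbs_eq n with h1 | h1
  · rw [if_pos (by omega), one_mul]
    conv_lhs => rw [h1]
  · rw [if_neg (by omega)]
    conv_lhs => rw [h1]
    rw [jacobiSym.neg _ hpo, ZMod.χ₄_nat_three_mod_four (by omega)]

private theorem lmd_trans {N : ℕ} {a b z y : ℤ} (hz : IsCoprime z N) (hy : IsCoprime y N)
    (h : (N : ℤ) ∣ a * z ^ 2 - b * y ^ 2) : jacobiSym a N = jacobiSym b N := by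
  have h1 : (a * z ^ 2) % N = (b * y ^ 2) % N := Int.modEq_iff_dvd.2 (dvd_sub_comm.1 h)
  have h2 := jacobiSym.mod_left' h1
  rw [jacobiSym.mul_left, jacobiSym.mul_left, jacobiSym.sq_one' (Int.isCoprime_iff_gcd_eq_one.1 hz),
    jacobiSym.sq_one' (Int.isCoprime_iff_gcd_eq_one.1 hy), mul_one, mul_one] at h2
  exact h2

private theorem cop_natAbs {z n : ℤ} (h : IsCoprime z n) : IsCoprime z (n.natAbs : ℤ) := by
  have h1 : (n.natAbs : ℤ) = n ∨ (n.natAbs : ℤ) = -n := by omega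
  rcases h1 with h1 | h1 <;> rw [h1]
  · exact h
  · exact h.neg_right

/-- the value at the primitive point of the conic -/
private theorem lmd_conic {v D p : ℕ} (h : Par v D) (hp : p.Prime) (h8 : p % 8 = 1 ∨ p % 8 = 7)
    (hD : jacobiSym (D : ℤ) p = 1) {X Y Z : ℤ} (hZ : Z ≠ 0) (hcop : IsCoprime X Y)
    (hc : X ^ 2 - D * Y ^ 2 = st p * Z ^ 2) :
    jacobiSym (X * (X + v * Y)) p = lamS D p := by
  have hDeq := h.eqZ
  have hDp : Prime (D : ℤ) := Nat.prime_iff_prime_int.1 h.prime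
  have hpp : Prime (p : ℤ) := Nat.prime_iff_prime_int.1 hp
  have hvodd : (v : ℤ) % 2 = 1 := by have := h.odd; omega
  have hst8 := st_mod p h8
  have hpD : ¬ (p : ℤ) ∣ (D : ℤ) := by
    intro hd
    have : Fact p.Prime := ⟨hp⟩
    rw [← jacobiSym.legendreSym.to_jacobiSym] at hD
    have h2 : legendreSym p (D : ℤ) = 0 := by
      rw [legendreSym.eq_zero_iff]
      exact (ZMod.intCast_zmod_eq_zero_iff_dvd _ p).2 hd
    rw [h2] at hD
    exact zero_ne_one hD
  have hDst : ¬ (D : ℤ) ∣ st p := by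
    intro hd
    have h1 : (D : ℤ) ∣ p := by
      unfold st at hd
      split_ifs at hd
      · exact (dvd_neg.1 hd)
      · exact hd
    have h2 : D = p := (Nat.prime_dvd_prime_iff_eq h.prime hp).1 (by exact_mod_cast h1)
    exact hpD (by rw [h2])
  have hnc : ∀ l : ℕ, l.Prime → (l : ℤ) ∣ X → (l : ℤ) ∣ Y → False := by
    intro l hl h1 h2
    exact (Nat.prime_iff_prime_int.1 hl).not_isUnit (hcop.isUnit_of_dvd' h1 h2)
  have hDX : ¬ (D : ℤ) ∣ X := by
    intro hd
    have h1 : (D : ℤ) ∣ st p * Z ^ 2 := by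
      rw [← hc]
      exact dvd_sub (dvd_pow hd two_ne_zero) ⟨Y ^ 2, rfl⟩
    have hDZ := hDp.dvd_of_dvd_pow ((hDp.dvd_or_dvd h1).resolve_left hDst)
    have hd' := hd
    obtain ⟨x, hx⟩ := hd
    obtain ⟨z, hz⟩ := hDZ
    have h2 : (D : ℤ) ∣ Y ^ 2 := by
      refine ⟨x ^ 2 - st p * z ^ 2, ?_⟩
      apply mul_left_cancel₀ hDp.ne_zero
      rw [hx, hz] at hc
      linear_combination -hc
    exact hnc D h.prime hd' (hDp.dvd_of_dvd_pow h2)
  have hDZ : ¬ (D : ℤ) ∣ Z := by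
    intro hd
    apply hDX
    apply hDp.dvd_of_dvd_pow (n := 2)
    have : X ^ 2 = st p * Z ^ 2 + D * Y ^ 2 := by linear_combination hc
    rw [this]
    exact dvd_add (Dvd.dvd.mul_left (dvd_pow hd two_ne_zero) _) ⟨_, rfl⟩
  have hlam : lamS D p = jacobiSym Z D * jacobiSym X D :=
    lamS_eq h hDZ hDX ⟨-Y ^ 2, by linear_combination -hc⟩
  -- residues modulo 8
  obtain ⟨k, hk⟩ : ∃ k : ℤ, (D : ℤ) = 5 + 8 * k := ⟨(D : ℤ) / 8, by have := h.D8; omega⟩
  obtain ⟨j, hj⟩ : ∃ j : ℤ, st p = 1 + 8 * j := ⟨st p / 8, by omega⟩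
  have hmod : X ^ 2 - 5 * Y ^ 2 - Z ^ 2 = 8 * (k * Y ^ 2 + j * Z ^ 2) := by
    rw [hk, hj] at hc; linear_combination hc
  have hXodd : X % 2 = 1 := by
    rcases Int.even_or_odd' X with ⟨x, hx | hx⟩
    · exfalso
      rcases Int.even_or_odd' Y with ⟨y, hy | hy⟩
      · exact hnc 2 Nat.prime_two ⟨x, by rw [hx]; norm_num⟩ ⟨y, by rw [hy]; norm_num⟩
      · obtain ⟨r, hr⟩ : (2 : ℤ) ∣ y * (y + 1) := (Int.even_mul_succ_self y).two_dvd
        have hY2 : Y ^ 2 = 1 + 8 * r := by rw [hy]; linear_combination 4 * hr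
        rcases Int.even_or_odd' Z with ⟨z, hz | hz⟩
        · have : (4 : ℤ) ∣ 5 := by
            refine ⟨x ^ 2 - z ^ 2 - 10 * r - 2 * (k * Y ^ 2 + j * Z ^ 2), ?_⟩
            rw [hx, hz] at hmod
            rw [hz]
            linear_combination -hmod - 5 * hY2
          norm_num at this
        · obtain ⟨s, hs⟩ : (2 : ℤ) ∣ z * (z + 1) := (Int.even_mul_succ_self z).two_dvd
          have hZ2 : Z ^ 2 = 1 + 8 * s := by rw [hz]; linear_combination 4 * hs
          have : (4 : ℤ) ∣ 6 := by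
            refine ⟨x ^ 2 - 2 * s - 10 * r - 2 * (k * Y ^ 2 + j * Z ^ 2), ?_⟩
            rw [hx] at hmod
            linear_combination -hmod - 5 * hY2 - hZ2
          norm_num at this
    · omega
  obtain ⟨x1, hx1⟩ : ∃ x1, X ^ 2 = 1 + 8 * x1 := by
    obtain ⟨x, hx⟩ : ∃ x, X = 2 * x + 1 := ⟨X / 2, by omega⟩
    obtain ⟨s, hs⟩ : (2 : ℤ) ∣ x * (x + 1) := (Int.even_mul_succ_self x).two_dvd
    exact ⟨s, by rw [hx]; linear_combination 4 * hs⟩
  have hXZ : ∀ l : ℕ, l.Prime → (l : ℤ) ∣ X → (l : ℤ) ∣ Z → False := by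
    intro l hl h1 h2
    have hlp := Nat.prime_iff_prime_int.1 hl
    have h3 : (l : ℤ) ∣ D * Y ^ 2 := by
      have : D * Y ^ 2 = X ^ 2 - st p * Z ^ 2 := by linear_combination -hc
      rw [this]
      exact dvd_sub (dvd_pow h1 two_ne_zero) (Dvd.dvd.mul_left (dvd_pow h2 two_ne_zero) _)
    rcases hlp.dvd_or_dvd h3 with h4 | h4
    · have h5 : l = D := (Nat.prime_dvd_prime_iff_eq hl h.prime).1 (by exact_mod_cast h4)
      rw [h5] at h1
      exact hDX h1
    · exact hnc l hl h1 (hlp.dvd_of_dvd_pow h4)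
  -- the symbol at `X`
  have hJX : jacobiSym (st p) X.natAbs = sg X * c4 X * jacobiSym X D := by
    have e1 : jacobiSym (st p) X.natAbs = jacobiSym (-D) X.natAbs := by
      refine lmd_trans (z := Z) (y := Y) (cop_natAbs (lmd_cop fun l hl h1 h2 => hXZ l hl h2 h1))
        (cop_natAbs hcop.symm) ?_
      have : st p * Z ^ 2 - -D * Y ^ 2 = X ^ 2 := by linear_combination -hc
      rw [this, Int.natAbs_dvd]
      exact dvd_pow_self _ two_ne_zero
    rw [e1, ← neg_one_mul, jacobiSym.mul_left, lmd_neg_one hXodd, jac_D_int h hXodd]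
  -- the symbol at an odd divisor of `X + v Y`
  have hJn : ∀ n : ℤ, n % 2 = 1 → n ∣ X + v * Y → jacobiSym (st p) n.natAbs = sg n * c4 n := by
    intro n hn hnd
    have hn2 : ∀ l : ℕ, l.Prime → (l : ℤ) ∣ n → l ≠ 2 := by
      rintro l hl h1 rfl
      have : (2 : ℤ) ∣ n := by exact_mod_cast h1
      omega
    have hnY : ∀ l : ℕ, l.Prime → (l : ℤ) ∣ n → (l : ℤ) ∣ Y → False := by
      intro l hl h1 h2
      refine hnc l hl ?_ h2
      have : X = (X + v * Y) - v * Y := by ring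
      rw [this]
      exact dvd_sub (h1.trans hnd) (h2.mul_left _)
    have hl2 : ∀ l : ℕ, l.Prime → (l : ℤ) ∣ n → ¬ (l : ℤ) ∣ 2 := by
      intro l hl h1 h2
      exact hn2 l hl h1 ((Nat.prime_dvd_prime_iff_eq hl Nat.prime_two).1 (by exact_mod_cast h2))
    rw [← lmd_neg_one hn]
    refine lmd_trans (z := Z) (y := 2 * Y) (cop_natAbs (lmd_cop fun l hl h1 h2 => ?_))
      (cop_natAbs (lmd_cop fun l hl h1 h2 => ?_)) ?_
    · have hlp := Nat.prime_iff_prime_int.1 hl
      have h3 : (l : ℤ) ∣ 2 * 2 * Y ^ 2 := by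
        have : 2 * 2 * Y ^ 2 = (X + v * Y) * (X - v * Y) - st p * Z ^ 2 := by
          linear_combination -hc - Y ^ 2 * hDeq
        rw [this]
        exact dvd_sub ((h2.trans hnd).mul_right _) (Dvd.dvd.mul_left (dvd_pow h1 two_ne_zero) _)
      rcases hlp.dvd_or_dvd h3 with h4 | h4
      · rcases hlp.dvd_or_dvd h4 with h5 | h5 <;> exact hl2 l hl h2 h5
      · exact hnY l hl h2 (hlp.dvd_of_dvd_pow h4)
    · have hlp := Nat.prime_iff_prime_int.1 hl
      rcases hlp.dvd_or_dvd h1 with h4 | h4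
      · exact hl2 l hl h2 h4
      · exact hnY l hl h2 h4
    · have : st p * Z ^ 2 - -1 * (2 * Y) ^ 2 = (X + v * Y) * (X - v * Y) := by
        linear_combination -hc - Y ^ 2 * hDeq
      rw [this, Int.natAbs_dvd]
      exact hnd.mul_right _
  -- the value for an odd `n`, `X + v Y = 2^i n`
  have hval : ∀ n : ℤ, n % 2 = 1 → n ∣ X + v * Y → (0 < (X + v * Y) * n) →
      jacobiSym X p * jacobiSym n p = c4 X * c4 n * jacobiSym X D := by
    intro n hn hnd hpos
    rcases h8 with h1 | h7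
    · rw [lmd_rec1 h1 hXodd, lmd_rec1 h1 hn, hJX, hJn n hn hnd]
      have hsg : sg X * sg n = 1 := by
        have hst : st p = (p : ℤ) := by unfold st; rw [if_neg (by omega)]
        have hX2 : 0 < X ^ 2 - (v : ℤ) ^ 2 * Y ^ 2 := by
          have e : X ^ 2 - (v : ℤ) ^ 2 * Y ^ 2 = p * Z ^ 2 + 4 * Y ^ 2 := by
            rw [hst] at hc
            linear_combination hc + Y ^ 2 * hDeq
          rw [e]
          have h1 : 0 < (p : ℤ) := by exact_mod_cast hp.pos
          have h2 : 0 < Z ^ 2 := by positivity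
          have h3 := mul_pos h1 h2
          have h4 := sq_nonneg Y
          linarith
        have hXn : 0 < X * (X + v * Y) := by
          have h5 : (v * Y) ^ 2 < X ^ 2 := by linarith [mul_pow (v : ℤ) Y 2]
          nlinarith [sq_nonneg (X + v * Y)]
        have hXn' : 0 < X * n := by
          have h6 : 0 < (X + v * Y) * n * (X * (X + v * Y)) := mul_pos hpos hXn
          have h7 : 0 < (X * n) * (X + v * Y) ^ 2 := by linarith
          by_contra hcon
          push Not at hcon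
          have h8 := mul_nonpos_of_nonpos_of_nonneg hcon (sq_nonneg (X + v * Y))
          linarith
        unfold sg
        rcases pos_and_pos_or_neg_and_neg_of_mul_pos hXn' with ⟨h6, h7⟩ | ⟨h6, h7⟩
        · rw [if_pos h6, if_pos h7]; norm_num
        · rw [if_neg (by omega), if_neg (by omega)]; norm_num
      linear_combination (c4 X * c4 n * jacobiSym X D) * hsg
    · rw [lmd_rec7 h7 hXodd, lmd_rec7 h7 hn, hJX, hJn n hn hnd]
      linear_combination (c4 X * c4 n * jacobiSym X D * sg n * sg n) * sg_sq X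
        + (c4 X * c4 n * jacobiSym X D) * sg_sq n
  -- the odd part of `Z`
  have hJZ : ∀ z : ℤ, z % 2 = 1 → z ∣ Z → jacobiSym z D = 1 := by
    intro z hz hzd
    refine jac_D_one h hz fun l hl hlz => ?_
    have hlZ := hlz.trans hzd
    refine RZ.jac_one hl (y := Y) (z := X) (fun h1 => hXZ l hl h1 hlZ) ?_
    have : D * Y ^ 2 - X ^ 2 = -(st p * Z ^ 2) := by linear_combination -hc
    rw [this, dvd_neg]
    exact Dvd.dvd.mul_left (dvd_pow hlZ two_ne_zero) _
  have h2p : jacobiSym 2 p = 1 := RZ.jac_two hp h8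
  rw [jacobiSym.mul_left, hlam]
  have hne : X + v * Y ≠ 0 := by
    intro h0
    have hX : X = -(v * Y) := by linarith
    have h1 := h.D8
    -- `X^2 - v^2 Y^2 = 0 = p* Z^2 + 4 Y^2`
    have e : st p * Z ^ 2 + 4 * Y ^ 2 = 0 := by
      rw [hX] at hc
      linear_combination -hc - Y ^ 2 * hDeq
    have hYX : Y ∣ X := ⟨-v, by rw [hX]; ring⟩
    have hYu : IsUnit Y := by
      exact hcop.isUnit_of_dvd' hYX dvd_rfl
    have hY2 : Y ^ 2 = 1 := by
      rcases Int.isUnit_iff.1 hYu with h2 | h2 <;> rw [h2] <;> norm_num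
    rw [hY2] at e
    have hpZ : (p : ℤ) ∣ 2 * 2 := by
      have h3 : (p : ℤ) ∣ st p := by
        unfold st
        split_ifs
        · exact (dvd_neg.2 dvd_rfl)
        · exact dvd_rfl
      have h4 : (2 * 2 : ℤ) = -(st p * Z ^ 2) := by linarith
      rw [h4, dvd_neg]
      exact h3.mul_right _
    have h5 : (p : ℤ) ∣ 2 := by
      rcases hpp.dvd_or_dvd hpZ with h6 | h6 <;> exact h6
    have h6 : p = 2 := (Nat.prime_dvd_prime_iff_eq hp Nat.prime_two).1 (by exact_mod_cast h5)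
    omega
  rcases Int.even_or_odd' Y with ⟨y, hy | hy⟩
  · -- case A
    have hY4 : Y % 4 = 0 := by
      rcases Int.even_or_odd' y with ⟨y', hy' | hy'⟩
      · omega
      · exfalso
        rcases Int.even_or_odd' Z with ⟨z, hz | hz⟩
        · have : (4 : ℤ) ∣ 1 := by
            refine ⟨5 * y ^ 2 + z ^ 2 - 2 * x1 + 2 * (k * Y ^ 2 + j * Z ^ 2), ?_⟩
            rw [hx1, hy, hz] at hmod
            rw [hy, hz]
            linear_combination hmod
          norm_num at this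
        · obtain ⟨s, hs⟩ : (2 : ℤ) ∣ z * (z + 1) := (Int.even_mul_succ_self z).two_dvd
          have hZ2 : Z ^ 2 = 1 + 8 * s := by rw [hz]; linear_combination 4 * hs
          have hy2 : y ^ 2 = 1 + 4 * (y' * (y' + 1)) := by rw [hy']; ring
          have : (8 : ℤ) ∣ 20 := by
            refine ⟨x1 - s - 10 * (y' * (y' + 1)) - (k * Y ^ 2 + j * Z ^ 2), ?_⟩
            have hY2 : Y ^ 2 = 4 * y ^ 2 := by rw [hy]; ring
            linear_combination -hmod + hx1 - hZ2 - 5 * hY2 - 20 * hy2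
          norm_num at this
    have hZodd : Z % 2 = 1 := by
      rcases Int.even_or_odd' Z with ⟨z, hz | hz⟩
      · exfalso
        have : (4 : ℤ) ∣ 1 := by
          refine ⟨5 * y ^ 2 + z ^ 2 - 2 * x1 + 2 * (k * Y ^ 2 + j * Z ^ 2), ?_⟩
          rw [hx1, hy, hz] at hmod
          rw [hy, hz]
          linear_combination hmod
        norm_num at this
      · omega
    have hn4 : (X + v * Y) % 4 = X % 4 := by
      obtain ⟨y4, hy4⟩ : ∃ y4, Y = 4 * y4 := ⟨Y / 4, by omega⟩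
      rw [hy4]
      have : X + v * (4 * y4) = X + 4 * (v * y4) := by ring
      rw [this]
      omega
    rw [hval (X + v * Y) (by omega) dvd_rfl (mul_self_pos.2 hne), hJZ Z hZodd dvd_rfl, one_mul]
    have hc4 : c4 (X + v * Y) = c4 X := by unfold c4; rw [hn4]
    rw [hc4, c4_sq, one_mul]
  · -- case B
    obtain ⟨r, hr⟩ : (2 : ℤ) ∣ y * (y + 1) := (Int.even_mul_succ_self y).two_dvd
    have hY2 : Y ^ 2 = 1 + 8 * r := by rw [hy]; linear_combination 4 * hr
    obtain ⟨z, hz⟩ : ∃ z, Z = 2 * z := by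
      rcases Int.even_or_odd' Z with ⟨z, hz | hz⟩
      · exact ⟨z, hz⟩
      · exfalso
        obtain ⟨s, hs⟩ : (2 : ℤ) ∣ z * (z + 1) := (Int.even_mul_succ_self z).two_dvd
        have hZ2 : Z ^ 2 = 1 + 8 * s := by rw [hz]; linear_combination 4 * hs
        have : (8 : ℤ) ∣ 5 := by
          refine ⟨x1 - 5 * r - s - (k * Y ^ 2 + j * Z ^ 2), ?_⟩
          linear_combination -hmod + hx1 - 5 * hY2 - hZ2
        norm_num at this
    obtain ⟨w, hw⟩ : ∃ w, z = 2 * w + 1 := by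
      rcases Int.even_or_odd' z with ⟨w, hw | hw⟩
      · exfalso
        have : (8 : ℤ) ∣ 4 := by
          refine ⟨x1 - 5 * r - 2 * w ^ 2 - (k * Y ^ 2 + j * Z ^ 2), ?_⟩
          have hZ2 : Z ^ 2 = 16 * w ^ 2 := by rw [hz, hw]; ring
          linear_combination -hmod + hx1 - 5 * hY2 - hZ2
        norm_num at this
      · exact ⟨w, hw⟩
    obtain ⟨s, hs⟩ : (2 : ℤ) ∣ w * (w + 1) := (Int.even_mul_succ_self w).two_dvd
    have hz2 : z ^ 2 = 1 + 8 * s := by rw [hw]; linear_combination 4 * hs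
    have hJZ' : jacobiSym Z D = -1 := by
      rw [hz, jacobiSym.mul_left, h.jac_two, hJZ z (by omega) ⟨2, by rw [hz]; ring⟩]
      norm_num
    obtain ⟨A, hA⟩ : ∃ A, X + v * Y = 2 * A := by
      obtain ⟨v', hv'⟩ : ∃ v' : ℤ, (v : ℤ) = 2 * v' + 1 := ⟨(v : ℤ) / 2, by omega⟩
      obtain ⟨x, hx⟩ : ∃ x, X = 2 * x + 1 := ⟨X / 2, by omega⟩
      exact ⟨x + v' * (2 * y + 1) + y + 1, by rw [hx, hv', hy]; ring⟩
    obtain ⟨B, hB⟩ : ∃ B, X - v * Y = 2 * B := ⟨X - A, by linarith⟩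
    have hAB : A + B = X := by linarith
    have hABm : A * B = 2 * (1 + 4 * (r + s + j * z ^ 2)) := by
      have e1 : (X + v * Y) * (X - v * Y) = st p * Z ^ 2 + 4 * Y ^ 2 := by
        linear_combination hc + Y ^ 2 * hDeq
      rw [hA, hB, hj, hz] at e1
      linarith [hz2, hY2]
    have hfin : ∀ n : ℤ, n % 2 = 1 → n ∣ X + v * Y → 0 < (X + v * Y) * n →
        jacobiSym (X + v * Y) p = jacobiSym n p → X % 4 = (n + 2) % 4 →
        jacobiSym X p * jacobiSym (X + v * Y) p = jacobiSym Z D * jacobiSym X D := by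
      intro n hn hnd hpos hJ h4
      rw [hJ, hval n hn hnd hpos, hJZ']
      have : c4 X * c4 n = -1 := by
        unfold c4
        split_ifs <;> omega
      rw [this]
    rcases Int.even_or_odd' A with ⟨A', hA' | hA'⟩
    · -- `A = 2 n`
      have hn : A' * B = 1 + 4 * (r + s + j * z ^ 2) := by
        rw [hA'] at hABm; linarith
      have hAo : A' % 2 = 1 := by
        by_contra hne'
        obtain ⟨a, ha⟩ : ∃ a, A' = 2 * a := ⟨A' / 2, by omega⟩
        have : (2 : ℤ) ∣ 1 := ⟨a * B - 2 * (r + s + j * z ^ 2), by rw [ha] at hn; linarith⟩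
        norm_num at this
      have hBo : B % 2 = 1 := by
        by_contra hne'
        obtain ⟨a, ha⟩ : ∃ a, B = 2 * a := ⟨B / 2, by omega⟩
        have : (2 : ℤ) ∣ 1 := ⟨A' * a - 2 * (r + s + j * z ^ 2), by rw [ha] at hn; linarith⟩
        norm_num at this
      have hAB4 : A' % 4 = B % 4 := by
        have h1 : (A' * B) % 4 = 1 := by omega
        rw [Int.mul_emod] at h1
        have ha : A' % 4 = 1 ∨ A' % 4 = 3 := by omega
        have hb : B % 4 = 1 ∨ B % 4 = 3 := by omega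
        rcases ha with ha | ha <;> rcases hb with hb | hb <;> rw [ha, hb] at h1 ⊢ <;> norm_num at h1
      have hXA : X + v * Y = 2 * (2 * A') := by rw [hA, hA']
      have hA0 : A' ≠ 0 := by rintro rfl; omega
      refine hfin A' hAo ⟨4, by rw [hXA]; ring⟩ ?_ ?_ (by omega)
      · rw [hXA]
        have : 0 < A' ^ 2 := by positivity
        nlinarith
      · rw [hXA, jacobiSym.mul_left, jacobiSym.mul_left, h2p, one_mul, one_mul]
    · -- `A = n` odd, `B = 2 k`
      have hAo : A % 2 = 1 := by omega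
      obtain ⟨B', hB'⟩ : ∃ B', B = 2 * B' := ⟨B / 2, by omega⟩
      have hn : A * B' = 1 + 4 * (r + s + j * z ^ 2) := by
        rw [hB'] at hABm; linarith
      have hBo : B' % 2 = 1 := by
        by_contra hne'
        obtain ⟨a, ha⟩ : ∃ a, B' = 2 * a := ⟨B' / 2, by omega⟩
        have : (2 : ℤ) ∣ 1 := ⟨A * a - 2 * (r + s + j * z ^ 2), by rw [ha] at hn; linarith⟩
        norm_num at this
      have hA0 : A ≠ 0 := by rintro rfl; omega
      refine hfin A hAo ⟨2, by rw [hA]; ring⟩ ?_ ?_ (by omega)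
      · rw [hA]
        have : 0 < A ^ 2 := by positivity
        nlinarith
      · rw [hA, jacobiSym.mul_left, h2p, one_mul]

theorem lmd {v D p : ℕ} (h : Par v D) (hp : p.Prime) (h8 : p % 8 = 1 ∨ p % 8 = 7)
    (hD : jacobiSym (D : ℤ) p = 1) (hv : ¬ (p : ℤ) ∣ v) {x y : ℤ} (hy : ¬ (p : ℤ) ∣ y)
    (hxy : (p : ℤ) ∣ x ^ 2 - D * y ^ 2) :
    jacobiSym (x * (x + v * y)) p = lamS D p ∧ jacobiSym (x * (x + 2 * y)) p = lamS D p := by
  have hDeq := h.eqZ
  have hpp : Prime (p : ℤ) := Nat.prime_iff_prime_int.1 hp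
  have : Fact p.Prime := ⟨hp⟩
  have h2p : jacobiSym 2 p = 1 := RZ.jac_two hp h8
  have hp2 : ¬ (p : ℤ) ∣ 2 := by
    intro h5
    have h6 : p = 2 := (Nat.prime_dvd_prime_iff_eq hp Nat.prime_two).1 (by exact_mod_cast h5)
    omega
  have hpD : ¬ (p : ℤ) ∣ (D : ℤ) := by
    intro hd
    rw [← jacobiSym.legendreSym.to_jacobiSym] at hD
    have h2 : legendreSym p (D : ℤ) = 0 := by
      rw [legendreSym.eq_zero_iff]
      exact (ZMod.intCast_zmod_eq_zero_iff_dvd _ p).2 hd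
    rw [h2] at hD
    exact zero_ne_one hD
  have hcp : ∀ t : ℤ, ¬ (p : ℤ) ∣ t → Int.gcd t p = 1 := fun t ht =>
    Int.isCoprime_iff_gcd_eq_one.1 (hpp.coprime_iff_not_dvd.2 ht).symm
  have hpm : ∀ t : ℤ, ¬ (p : ℤ) ∣ t → jacobiSym t p * jacobiSym t p = 1 := by
    intro t ht
    rw [← sq]
    exact jacobiSym.sq_one (hcp t ht)
  -- congruent integers have equal symbols
  have hcong : ∀ s t : ℤ, (p : ℤ) ∣ s - t → jacobiSym s p = jacobiSym t p := by
    intro s t hst
    exact jacobiSym.mod_left' (Int.modEq_iff_dvd.2 (dvd_sub_comm.1 hst))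
  have hsq1 : ∀ s t : ℤ, ¬ (p : ℤ) ∣ t → jacobiSym (t ^ 2 * s) p = jacobiSym s p := by
    intro s t ht
    rw [jacobiSym.mul_left, jacobiSym.sq_one' (hcp t ht), one_mul]
  obtain ⟨X, Y, Z, hZ, hcop, hc⟩ := conic h hp h8 hD
  have hval := lmd_conic h hp h8 hD hZ hcop hc
  have hpst : (p : ℤ) ∣ st p := by
    unfold st
    split_ifs
    · exact (dvd_neg.2 dvd_rfl)
    · exact dvd_rfl
  have hXY : (p : ℤ) ∣ X ^ 2 - D * Y ^ 2 := by rw [hc]; exact hpst.mul_right _
  have hpY : ¬ (p : ℤ) ∣ Y := by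
    intro hd
    have h1 : (p : ℤ) ∣ X := by
      apply hpp.dvd_of_dvd_pow (n := 2)
      have : X ^ 2 = (X ^ 2 - D * Y ^ 2) + D * Y ^ 2 := by ring
      rw [this]
      exact dvd_add hXY (Dvd.dvd.mul_left (dvd_pow hd two_ne_zero) _)
    exact hpp.not_isUnit (hcop.isUnit_of_dvd' h1 hd)
  have hpX : ¬ (p : ℤ) ∣ X := by
    intro hd
    have h1 : (p : ℤ) ∣ D * Y ^ 2 := by
      have : D * Y ^ 2 = X ^ 2 - (X ^ 2 - D * Y ^ 2) := by ring
      rw [this]
      exact dvd_sub (dvd_pow hd two_ne_zero) hXY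
    rcases hpp.dvd_or_dvd h1 with h2 | h2
    · exact hpD h2
    · exact hpY (hpp.dvd_of_dvd_pow h2)
  have hF : jacobiSym (x * (x + v * y)) p = lamS D p := by
    have h1 : (p : ℤ) ∣ (x * Y - X * y) * (x * Y + X * y) := by
      have : (x * Y - X * y) * (x * Y + X * y)
          = Y ^ 2 * (x ^ 2 - D * y ^ 2) - y ^ 2 * (X ^ 2 - D * Y ^ 2) := by ring
      rw [this]
      exact dvd_sub (hxy.mul_left _) (hXY.mul_left _)
    have e0 : jacobiSym (x * (x + v * y)) p = jacobiSym (Y ^ 2 * (x * (x + v * y))) p :=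
      (hsq1 _ Y hpY).symm
    rcases hpp.dvd_or_dvd h1 with h2 | h2
    · have e1 : jacobiSym (Y ^ 2 * (x * (x + v * y))) p = jacobiSym (y ^ 2 * (X * (X + v * Y))) p := by
        apply hcong
        obtain ⟨k, hk⟩ := h2
        refine ⟨k * (x * Y + X * y + v * y * Y), ?_⟩
        linear_combination (x * Y + X * y + v * y * Y) * hk
      rw [e0, e1, hsq1 _ y hy, hval]
    · have e1 : jacobiSym (Y ^ 2 * (x * (x + v * y))) p = jacobiSym (y ^ 2 * (X * (X - v * Y))) p := by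
        apply hcong
        obtain ⟨k, hk⟩ := h2
        refine ⟨k * (x * Y - X * y + v * y * Y), ?_⟩
        linear_combination (x * Y - X * y + v * y * Y) * hk
      rw [e0, e1, hsq1 _ y hy]
      have e2 : jacobiSym (X * (X - v * Y)) p * jacobiSym (X * (X + v * Y)) p = 1 := by
        rw [← jacobiSym.mul_left]
        have e3 : jacobiSym (X * (X - v * Y) * (X * (X + v * Y))) p
            = jacobiSym ((X * (2 * Y)) ^ 2) p := by
          apply hcong
          obtain ⟨k, hk⟩ := hXY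
          refine ⟨X ^ 2 * k, ?_⟩
          linear_combination X ^ 2 * hk + X ^ 2 * Y ^ 2 * hDeq
        rw [e3]
        apply jacobiSym.sq_one'
        apply hcp
        intro hd
        rcases hpp.dvd_or_dvd hd with h3 | h3
        · exact hpX h3
        · rcases hpp.dvd_or_dvd h3 with h4 | h4
          · exact hp2 h4
          · exact hpY h4
      rw [hval] at e2
      rcases lamS_pm (D := D) p with h3 | h3 <;> rw [h3] at e2 ⊢ <;> linarith
  refine ⟨hF, ?_⟩
  have hpx : ¬ (p : ℤ) ∣ x := by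
    intro hd
    have h1 : (p : ℤ) ∣ D * y ^ 2 := by
      have : D * y ^ 2 = x ^ 2 - (x ^ 2 - D * y ^ 2) := by ring
      rw [this]
      exact dvd_sub (dvd_pow hd two_ne_zero) hxy
    rcases hpp.dvd_or_dvd h1 with h2 | h2
    · exact hpD h2
    · exact hy (hpp.dvd_of_dvd_pow h2)
  have hn1 : ¬ (p : ℤ) ∣ x + v * y := by
    intro hd
    have h1 : (p : ℤ) ∣ 2 * (2 * y ^ 2) := by
      have : 2 * (2 * y ^ 2) = (x + v * y) * (x - v * y) - (x ^ 2 - D * y ^ 2) := by
        linear_combination -y ^ 2 * hDeq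
      rw [this]
      exact dvd_sub (hd.mul_right _) hxy
    rcases hpp.dvd_or_dvd h1 with h2 | h2
    · exact hp2 h2
    · rcases hpp.dvd_or_dvd h2 with h3 | h3
      · exact hp2 h3
      · exact hy (hpp.dvd_of_dvd_pow h3)
  have hn2 : ¬ (p : ℤ) ∣ x + 2 * y := by
    intro hd
    have h1 : (p : ℤ) ∣ (v * y) ^ 2 := by
      have : ((v : ℤ) * y) ^ 2 = (x + 2 * y) * (x - 2 * y) - (x ^ 2 - D * y ^ 2) := by
        linear_combination -y ^ 2 * hDeq
      rw [this]
      exact dvd_sub (hd.mul_right _) hxy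
    rcases hpp.dvd_or_dvd (hpp.dvd_of_dvd_pow h1) with h2 | h2
    · exact hv h2
    · exact hy h2
  have hG : jacobiSym (x + 2 * y) p * jacobiSym (x + v * y) p = 1 := by
    have e1 : jacobiSym (2 * ((x + 2 * y) * (x + v * y))) p = jacobiSym ((x + 2 * y + v * y) ^ 2) p := by
      apply hcong
      obtain ⟨k, hk⟩ := hxy
      refine ⟨k, ?_⟩
      linear_combination hk + y ^ 2 * hDeq
    have e2 : jacobiSym ((x + 2 * y + v * y) ^ 2) p = 1 := by
      apply jacobiSym.sq_one'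
      apply hcp
      intro hd
      have h3 : (p : ℤ) ∣ 2 * ((x + 2 * y) * (x + v * y)) := by
        obtain ⟨k, hk⟩ := hxy
        obtain ⟨l, hl⟩ := hd
        refine ⟨k + l * (x + 2 * y + v * y), ?_⟩
        linear_combination hk + y ^ 2 * hDeq + (x + 2 * y + v * y) * hl
      rcases hpp.dvd_or_dvd h3 with h4 | h4
      · exact hp2 h4
      · rcases hpp.dvd_or_dvd h4 with h5 | h5
        · exact hn2 h5
        · exact hn1 h5
    rw [e2, jacobiSym.mul_left, h2p, one_mul, jacobiSym.mul_left] at e1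
    exact e1
  rw [← hF, jacobiSym.mul_left, jacobiSym.mul_left]
  have h1 := hpm (x + v * y) hn1
  linear_combination jacobiSym x p * jacobiSym (x + v * y) p * hG
    - jacobiSym x p * jacobiSym (x + 2 * y) p * h1

end Pool.Agent.NCM
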