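import Pool.Agent.NCM.CAS
import Pool.Agent.RZ.SYM

set_option autoImplicit false

/-!
Second descent, first case: `β = c2 = 1` forces `c3 = 1`.

Proof. `X^2 - 4Dαe^2 = V^2`, `X^2 + Dv^2αe^2 = c3 W^2`, `α c3 = m`, `IsCoprime X (αe)`. By `sys_loc` and
`RZ.kt_of` (`a := α`, `D := c3`): `KT m |c3|`. It remains `lam D |c3| = 0` (then `Nice.kerT`), by
`lam_zero` with `c := c3`, `x := W`, `y := V`: `c3 W^2 = X^2 = V^2` modulo `D`.
`D ∤ X`: else `D | W`, `D^2 | D v^2 α e^2`, `D | e`. So `D ∤ V`, `D ∤ W`.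
`(W/D) = 1` by `jac_D_one`: `W` is odd (`X^2 + 5e^2 = W^2` modulo `8`, `X`, `e` not both even; `X`, `e` odd gives
`6`; so `W` even is impossible) and for a prime `l | W`: `X^2 = -Dα(ve)^2`, `V^2 = -α(De)^2` modulo `l`,
`l ∤ αe` (else `l | X`); if `l | v` use `Par.jac_v`; else `(-Dα/l) = (-α/l) = 1` (`l ∤ D` as `D ∤ W`), `(D/l) = 1`.
`(V/D) = 1`: `X`, `V` have the same parity, `P = (X-V)/2`, `Q = (X+V)/2`, `P Q = D α e^2`,
`IsCoprime P Q` (a common prime `l` has `l | X`, so `l ∤ αe`, `l^2 | D`). `e = 0`: `V = ± X = ± 1`. Else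
`RZ.split_sq` (`a := Dα` squarefree): `P = a1 r^2`, `Q = a2 s^2`, `a1 a2 = Dα`; `D` divides one of `a1`, `a2` and
not the other; the other divides `α`, so it is a square modulo `D` (`jac_D_dvd`), and `V = ± P` or `± Q` modulo `D`.
-/

namespace Pool.Agent.NCM

private theorem sd1_cop {P Q : ℤ} (h : ∀ l : ℕ, l.Prime → (l : ℤ) ∣ P → (l : ℤ) ∣ Q → False) :
    IsCoprime P Q := by
  rw [Int.isCoprime_iff_gcd_eq_one]
  by_contra hne
  obtain ⟨l, hl, hld⟩ := Nat.exists_prime_and_dvd hne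
  have h1 : (l : ℤ) ∣ (Int.gcd P Q : ℤ) := by exact_mod_cast hld
  exact h l hl (h1.trans (Int.gcd_dvd_left _ _)) (h1.trans (Int.gcd_dvd_right _ _))

private theorem sd1_jac_sq {D : ℕ} (hD : D.Prime) {a s x : ℤ} (hs : ¬ (D : ℤ) ∣ s)
    (ha : jacobiSym a D = 1) (hx : (D : ℤ) ∣ x - a * s ^ 2) : jacobiSym x D = 1 := by
  have h1 : x % D = (a * s ^ 2) % D := Int.modEq_iff_dvd.2 (dvd_sub_comm.1 hx)
  rw [jacobiSym.mod_left' h1, jacobiSym.mul_left, ha, one_mul]
  apply jacobiSym.sq_one'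
  rw [← Int.isCoprime_iff_gcd_eq_one]
  exact ((Nat.prime_iff_prime_int.1 hD).coprime_iff_not_dvd.2 hs).symm

theorem sd1 {v D m : ℕ} (h : Par v D) (hm : Fam v D m) (hn : Nice D m)
    {α c₃ X V W e : ℤ} (hS : Sys v D m α 1 1 c₃ X V W e) : c₃ = 1 := by
  have hprod : α * c₃ = m := by have := hS.prod; linarith
  have he1 : X ^ 2 - 4 * D * α * e ^ 2 = V ^ 2 := by have := hS.e1; linarith
  have he2 : X ^ 2 + D * (v : ℤ) ^ 2 * α * e ^ 2 = c₃ * W ^ 2 := by have := hS.e2; linarith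
  have hcop : IsCoprime X (α * e) := by have := hS.cop; rwa [one_mul] at this
  have ha8 := hS.a8
  have hd8 := hS.d8
  have hDeq := h.eqZ
  have hDp : Prime (D : ℤ) := Nat.prime_iff_prime_int.1 h.prime
  have hcm : c₃ ∣ m := ⟨α, by rw [← hprod]; ring⟩
  have ham : α ∣ m := ⟨c₃, hprod.symm⟩
  have hDm : ¬ (D : ℤ) ∣ m := by
    intro hd
    exact hm.ndvd_D h.prime (by exact_mod_cast hd) dvd_rfl
  have hDc : ¬ (D : ℤ) ∣ c₃ := fun hd => hDm (hd.trans hcm)
  have hDa : ¬ (D : ℤ) ∣ α := fun hd => hDm (hd.trans ham)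
  have hDv : ¬ (D : ℤ) ∣ (v : ℤ) := fun hd => h.ndvd_v (by exact_mod_cast hd)
  -- a common prime of `X` and `α e`
  have hncop : ∀ l : ℕ, l.Prime → (l : ℤ) ∣ X → ¬ (l : ℤ) ∣ α * e := by
    intro l hl h1 h2
    have := hcop.isUnit_of_dvd' h1 h2
    exact (Nat.prime_iff_prime_int.1 hl).not_isUnit this
  have hDX : ¬ (D : ℤ) ∣ X := by
    intro hd
    have h1 : (D : ℤ) ∣ c₃ * W ^ 2 := by
      rw [← he2]
      exact dvd_add (dvd_pow hd two_ne_zero) ⟨(v : ℤ) ^ 2 * α * e ^ 2, by ring⟩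
    have hW := hDp.dvd_of_dvd_pow ((hDp.dvd_or_dvd h1).resolve_left hDc)
    obtain ⟨x, hx⟩ := hd
    obtain ⟨w, hw⟩ := hW
    have h2 : (D : ℤ) ∣ (v : ℤ) ^ 2 * α * e ^ 2 := by
      refine ⟨c₃ * w ^ 2 - x ^ 2, ?_⟩
      apply mul_left_cancel₀ hDp.ne_zero
      rw [hx, hw] at he2
      linear_combination he2
    rcases hDp.dvd_or_dvd h2 with h3 | h3
    · rcases hDp.dvd_or_dvd h3 with h4 | h4
      · exact hDv (hDp.dvd_of_dvd_pow h4)
      · exact hDa h4
    · exact hncop D h.prime ⟨x, hx⟩ ((hDp.dvd_of_dvd_pow h3).mul_left α)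
  have hDV : ¬ (D : ℤ) ∣ V := by
    intro hd
    apply hDX
    apply hDp.dvd_of_dvd_pow (n := 2)
    have : X ^ 2 = V ^ 2 + D * (4 * α * e ^ 2) := by linear_combination he1
    rw [this]
    exact dvd_add (dvd_pow hd two_ne_zero) ⟨_, rfl⟩
  have hDW : ¬ (D : ℤ) ∣ W := by
    intro hd
    apply hDX
    apply hDp.dvd_of_dvd_pow (n := 2)
    have : X ^ 2 = c₃ * W ^ 2 - D * ((v : ℤ) ^ 2 * α * e ^ 2) := by linear_combination he2
    rw [this]
    exact dvd_sub (Dvd.dvd.mul_left (dvd_pow hd two_ne_zero) _) ⟨_, rfl⟩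
  -- `(W / D) = 1`
  have hWodd : W % 2 = 1 := by
    by_contra hW
    obtain ⟨w, hw⟩ : (2 : ℤ) ∣ W := by omega
    obtain ⟨a', ha'⟩ : ∃ a', α = 1 + 8 * a' := ⟨α / 8, by omega⟩
    obtain ⟨D', hD'⟩ : ∃ D' : ℤ, (D : ℤ) = 5 + 8 * D' := ⟨(D : ℤ) / 8, by have := h.D8; omega⟩
    obtain ⟨v', hv'⟩ : ∃ v' : ℤ, (v : ℤ) ^ 2 = 1 + 8 * v' := ⟨D', by linarith⟩
    have hmod : (X ^ 2 + 5 * e ^ 2) % 4 = 0 := by
      have : X ^ 2 + 5 * e ^ 2 = 4 * (c₃ * w ^ 2) - 8 * ((5 * v' + 5 * a' + 40 * v' * a'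
          + D' * (1 + 8 * v') * (1 + 8 * a')) * e ^ 2) := by
        rw [hw, ha', hD', hv'] at he2
        linear_combination he2
      omega
    rcases Int.even_or_odd' X with ⟨x, hx | hx⟩ <;> rcases Int.even_or_odd' e with ⟨y, hy | hy⟩
    · refine hncop 2 Nat.prime_two ⟨x, by rw [hx]; norm_num⟩ ?_
      refine Dvd.dvd.mul_left ⟨y, by rw [hy]; norm_num⟩ α
    · rw [hx, hy] at hmod
      ring_nf at hmod
      omega
    · rw [hx, hy] at hmod
      ring_nf at hmod
      omega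
    · rw [hx, hy] at hmod
      ring_nf at hmod
      omega
  have hJW : jacobiSym W D = 1 := by
    refine jac_D_one h hWodd fun l hl hlW => ?_
    have hlp : Prime (l : ℤ) := Nat.prime_iff_prime_int.1 hl
    have hlD : ¬ (l : ℤ) ∣ (D : ℤ) := by
      intro hd
      have h1 : l ∣ D := by exact_mod_cast hd
      have h2 := (Nat.prime_dvd_prime_iff_eq hl h.prime).1 h1
      rw [h2] at hlW
      exact hDW hlW
    have hlae : ¬ (l : ℤ) ∣ α * e := by
      intro hd
      refine hncop l hl ?_ hd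
      apply hlp.dvd_of_dvd_pow (n := 2)
      have : X ^ 2 = c₃ * W ^ 2 - D * (v : ℤ) ^ 2 * e * (α * e) := by linear_combination he2
      rw [this]
      exact dvd_sub (Dvd.dvd.mul_left (dvd_pow hlW two_ne_zero) _) (hd.mul_left _)
    have hla : ¬ (l : ℤ) ∣ α := fun hd => hlae (hd.mul_right e)
    have hle : ¬ (l : ℤ) ∣ e := fun hd => hlae (hd.mul_left α)
    by_cases hlv : (l : ℤ) ∣ (v : ℤ)
    · exact h.jac_v hl (by exact_mod_cast hlv)
    · obtain ⟨w, hw⟩ := hlW
      have hX2 : X ^ 2 = c₃ * (l * w) ^ 2 - D * α * (v * e) ^ 2 := by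
        rw [hw] at he2; linear_combination he2
      have hV2 : V ^ 2 = c₃ * (l * w) ^ 2 - α * (D * e) ^ 2 := by
        rw [hw] at he2
        linear_combination he2 - he1 + (α * e ^ 2 * D) * hDeq
      have hlX : ¬ (l : ℤ) ∣ X := by
        intro hd
        have h1 : (l : ℤ) ∣ D * α * (v * e) ^ 2 := by
          have : D * α * (v * e) ^ 2 = c₃ * (l * w) ^ 2 - X ^ 2 := by linear_combination hX2
          rw [this]
          exact dvd_sub ⟨c₃ * l * w ^ 2, by ring⟩ (dvd_pow hd two_ne_zero)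
        rcases hlp.dvd_or_dvd h1 with h2 | h2
        · rcases hlp.dvd_or_dvd h2 with h3 | h3
          · exact hlD h3
          · exact hla h3
        · rcases hlp.dvd_or_dvd (hlp.dvd_of_dvd_pow h2) with h3 | h3
          · exact hlv h3
          · exact hle h3
      have hlV : ¬ (l : ℤ) ∣ V := by
        intro hd
        have h1 : (l : ℤ) ∣ α * (D * e) ^ 2 := by
          have : α * (D * e) ^ 2 = c₃ * (l * w) ^ 2 - V ^ 2 := by linear_combination hV2
          rw [this]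
          exact dvd_sub ⟨c₃ * l * w ^ 2, by ring⟩ (dvd_pow hd two_ne_zero)
        rcases hlp.dvd_or_dvd h1 with h2 | h2
        · exact hla h2
        · rcases hlp.dvd_or_dvd (hlp.dvd_of_dvd_pow h2) with h3 | h3
          · exact hlD h3
          · exact hle h3
      have j1 : jacobiSym (-(D * α)) l = 1 :=
        RZ.jac_one hl (y := v * e) (z := X) hlX ⟨-(c₃ * l * w ^ 2), by rw [hX2]; ring⟩
      have j2 : jacobiSym (-α) l = 1 :=
        RZ.jac_one hl (y := D * e) (z := V) hlV ⟨-(c₃ * l * w ^ 2), by rw [hV2]; ring⟩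
      have e3 : (-(D * α) : ℤ) = D * (-α) := by ring
      rw [e3, jacobiSym.mul_left, j2, mul_one] at j1
      exact j1
  -- `(V / D) = 1`
  have hJV : jacobiSym V D = 1 := by
    by_cases he : e = 0
    · rw [he] at hcop he1
      rw [mul_zero, isCoprime_zero_right, Int.isUnit_iff] at hcop
      have hV2 : V ^ 2 = 1 := by
        rw [← he1]
        rcases hcop with h1 | h1 <;> rw [h1] <;> norm_num
      rcases mul_eq_zero.1 (show (V - 1) * (V + 1) = 0 by linear_combination hV2) with h1 | h1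
      · rw [show V = 1 by linarith]; exact jacobiSym.one_left D
      · rw [show V = -1 by linarith]; exact h.jac_neg_one
    · obtain ⟨P, hP⟩ : ∃ P, X - V = 2 * P := by
        have h1 : (X - V) % 2 = 0 := by
          have h2 : (X - V) * (X + V) = 2 * (2 * D * α * e ^ 2) := by linear_combination he1
          have h3 : (2 : ℤ) ∣ (X - V) * (X + V) := ⟨_, h2⟩
          rcases Int.prime_two.dvd_or_dvd h3 with h4 | h4 <;> omega
        exact ⟨(X - V) / 2, by omega⟩
      obtain ⟨Q, hQ⟩ : ∃ Q, X + V = 2 * Q := ⟨V + P, by linarith⟩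
      have hXPQ : X = P + Q := by linarith
      have hVPQ : V = Q - P := by linarith
      have hPQ : P * Q = (D * α) * e ^ 2 := by
        rw [hXPQ, hVPQ] at he1
        linarith
      have hcPQ : IsCoprime P Q := by
        refine sd1_cop fun l hl hlP hlQ => ?_
        have hlp : Prime (l : ℤ) := Nat.prime_iff_prime_int.1 hl
        have hlX : (l : ℤ) ∣ X := by rw [hXPQ]; exact dvd_add hlP hlQ
        have hlae := hncop l hl hlX
        obtain ⟨P', hP'⟩ := hlP
        obtain ⟨Q', hQ'⟩ := hlQ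
        have h1 : (l : ℤ) ∣ D * α * e ^ 2 := by
          rw [← hPQ, hP']
          exact ⟨P' * Q, by ring⟩
        have hlD : (l : ℤ) ∣ D := by
          rcases hlp.dvd_or_dvd h1 with h2 | h2
          · exact (hlp.dvd_or_dvd h2).resolve_right fun h3 => hlae (h3.mul_right e)
          · exact absurd ((hlp.dvd_of_dvd_pow h2).mul_left α) hlae
        have hlD' : l = D := (Nat.prime_dvd_prime_iff_eq hl h.prime).1 (by exact_mod_cast hlD)
        apply hDX
        rw [← hlD']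
        exact hlX
      have hsfa : Squarefree α := by
        have h1 : Squarefree ((m : ℤ)) := by
          rw [← Int.squarefree_natAbs]
          simpa using hm.sqf
        exact h1.squarefree_of_dvd ham
      have hsf : Squarefree ((D : ℤ) * α) := by
        rw [squarefree_mul_iff]
        refine ⟨?_, hDp.squarefree, hsfa⟩
        exact (hDp.coprime_iff_not_dvd.2 hDa).isRelPrime
      obtain ⟨a₁, a₂, r, s, hP', hQ', haa, hrs⟩ := RZ.split_sq hPQ hcPQ hsf he
      have hDd : (D : ℤ) ∣ a₁ * a₂ := ⟨α, haa⟩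
      have hnDPQ : (D : ℤ) ∣ P → ¬ (D : ℤ) ∣ Q := by
        intro h1 h2
        exact hDp.not_isUnit (hcPQ.isUnit_of_dvd' h1 h2)
      rcases hDp.dvd_or_dvd hDd with h1 | h1
      · obtain ⟨b, hb⟩ := h1
        have h2 : b * a₂ = α := by
          apply mul_left_cancel₀ hDp.ne_zero
          rw [← haa, hb]; ring
        have hDP : (D : ℤ) ∣ P := ⟨b * r ^ 2, by rw [hP', hb]; ring⟩
        have hDs : ¬ (D : ℤ) ∣ s := by
          intro h3
          refine hnDPQ hDP ?_
          rw [hQ']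
          exact Dvd.dvd.mul_left (dvd_pow h3 two_ne_zero) _
        have ha2 : jacobiSym a₂ D = 1 := jac_D_dvd h hm (Dvd.dvd.trans ⟨b, by rw [← h2]; ring⟩ ham)
        refine sd1_jac_sq h.prime hDs ha2 ?_
        rw [hVPQ, hQ']
        obtain ⟨k, hk⟩ := hDP
        exact ⟨-k, by rw [hk]; ring⟩
      · obtain ⟨b, hb⟩ := h1
        have h2 : b * a₁ = α := by
          apply mul_left_cancel₀ hDp.ne_zero
          rw [← haa, hb]; ring
        have hDQ : (D : ℤ) ∣ Q := ⟨b * s ^ 2, by rw [hQ', hb]; ring⟩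
        have hDr : ¬ (D : ℤ) ∣ r := by
          intro h3
          refine hnDPQ ?_ hDQ
          rw [hP']
          exact Dvd.dvd.mul_left (dvd_pow h3 two_ne_zero) _
        have ha1 : jacobiSym (-a₁) D = 1 := by
          rw [h.jac_neg]
          exact jac_D_dvd h hm (Dvd.dvd.trans ⟨b, by rw [← h2]; ring⟩ ham)
        refine sd1_jac_sq h.prime hDr ha1 ?_
        rw [hVPQ, hP']
        obtain ⟨k, hk⟩ := hDQ
        exact ⟨k, by rw [hk]; ring⟩
  have hKT : RZ.KT m c₃.natAbs := by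
    refine RZ.kt_of hm.rz hprod hd8 (fun p hp hpa => ?_) (fun p hp hpc => ?_)
    · have := ((sys_loc h hm hS hp).2.1 hpa).2
      rwa [one_mul] at this
    · have := ((sys_loc h hm hS hp).2.2.2 hpc).1
      rwa [mul_one] at this
  have hlam : lam D c₃.natAbs = 0 := by
    refine lam_zero h hd8 hDW hDV ?_ (by rw [hJW, hJV]; norm_num)
    refine ⟨D * α * e ^ 2, ?_⟩
    linear_combination he1 - he2 + (- α * e ^ 2 * D) * hDeq
  have h1 := hn.kerT c₃.natAbs (Int.natAbs_dvd_natAbs.2 hcm) hKT hlam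
  omega

end Pool.Agent.NCM
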