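import Pool.Agent.NCM.CAS
import Pool.Agent.RZ.SYM

set_option autoImplicit false

/-!
Second descent, second case: `α = c3 = 1` forces `β = 1`.

Proof. `βX^2 - 4De^2 = c2 V^2`, `βX^2 + Dv^2e^2 = W^2`, `β c2 = m`, `IsCoprime (βX) e`. By `sys_loc` and
`RZ.kt_of` (`a := c2`, `D := β`): `KT m |β|`. It remains `lam D |β| = 0` (then `Nice.kerT`), by `lam_zero` with
`c := β`, `x := X`, `y := W`: `β X^2 = W^2` modulo `D`. `D ∤ X`: else `D | W`, `D^2 | D v^2 e^2`, `D | e`.
Modulo `8`: `X^2 + 5e^2 = W^2`; so either `X` odd, `e` even, or `X = 2` modulo `4`, `e` odd; `W` is odd.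
`(X/D)`: the odd part of `X` has all primes `l` with `(D/l) = 1` (`W^2 = D(ve)^2` modulo `l`, `l ∤ e`; if `l | v` use
`Par.jac_v`; `l ≠ D`), so `(X/D) = 1` if `e` even, `(2/D) = -1` if `e` odd.
`(W/D)`: `(W - De)(W + De) = c2 V^2`; `W` and `De` are coprime (`l | W`, `l | e` gives `l | βX`; `D | W` gives `D | X`).
`e` even: the factors are coprime, `RZ.split_sq`: `W - De = a1 r^2`, `a1 | c2 | m`, so `(W/D) = 1`
(`jac_D_dvd`; `V ≠ 0`, as `V = 0` gives `D | X`). `e` odd: `W ± De` even, halves coprime, `V` even,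
`W - De = 2 a1 r^2`, `(W/D) = (2/D) = -1`. In both cases `(X/D)(W/D) = 1`.
-/

namespace Pool.Agent.NCM

private theorem sd2_cop {P Q : ℤ} (h : ∀ l : ℕ, l.Prime → (l : ℤ) ∣ P → (l : ℤ) ∣ Q → False) :
    IsCoprime P Q := by
  rw [Int.isCoprime_iff_gcd_eq_one]
  by_contra hne
  obtain ⟨l, hl, hld⟩ := Nat.exists_prime_and_dvd hne
  have h1 : (l : ℤ) ∣ (Int.gcd P Q : ℤ) := by exact_mod_cast hld
  exact h l hl (h1.trans (Int.gcd_dvd_left _ _)) (h1.trans (Int.gcd_dvd_right _ _))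

private theorem sd2_jac_sq {D : ℕ} (hD : D.Prime) {a s x : ℤ} (hs : ¬ (D : ℤ) ∣ s)
    (hx : (D : ℤ) ∣ x - a * s ^ 2) : jacobiSym x D = jacobiSym a D := by
  have h1 : x % D = (a * s ^ 2) % D := Int.modEq_iff_dvd.2 (dvd_sub_comm.1 hx)
  rw [jacobiSym.mod_left' h1, jacobiSym.mul_left]
  rw [jacobiSym.sq_one', mul_one]
  rw [← Int.isCoprime_iff_gcd_eq_one]
  exact ((Nat.prime_iff_prime_int.1 hD).coprime_iff_not_dvd.2 hs).symm

theorem sd2 {v D m : ℕ} (h : Par v D) (hm : Fam v D m) (hn : Nice D m)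
    {β c₂ X V W e : ℤ} (hS : Sys v D m 1 β c₂ 1 X V W e) : β = 1 := by
  have hprod : β * c₂ = m := by have := hS.prod; linarith
  have he1 : β * X ^ 2 - 4 * D * e ^ 2 = c₂ * V ^ 2 := by have := hS.e1; linarith
  have he2 : β * X ^ 2 + D * (v : ℤ) ^ 2 * e ^ 2 = W ^ 2 := by have := hS.e2; linarith
  have hcop : IsCoprime (β * X) e := by have := hS.cop; rwa [one_mul] at this
  have hb8 := hS.b8
  have hc8 := hS.c8
  have hDeq := h.eqZ
  have hDp : Prime (D : ℤ) := Nat.prime_iff_prime_int.1 h.prime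
  have hbm : β ∣ m := ⟨c₂, hprod.symm⟩
  have hcm : c₂ ∣ m := ⟨β, by rw [← hprod]; ring⟩
  have hDm : ¬ (D : ℤ) ∣ m := by
    intro hd
    exact hm.ndvd_D h.prime (by exact_mod_cast hd) dvd_rfl
  have hDb : ¬ (D : ℤ) ∣ β := fun hd => hDm (hd.trans hbm)
  have hDv : ¬ (D : ℤ) ∣ (v : ℤ) := fun hd => h.ndvd_v (by exact_mod_cast hd)
  have hncop : ∀ l : ℕ, l.Prime → (l : ℤ) ∣ β * X → ¬ (l : ℤ) ∣ e := by
    intro l hl h1 h2
    have := hcop.isUnit_of_dvd' h1 h2
    exact (Nat.prime_iff_prime_int.1 hl).not_isUnit this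
  have hDX : ¬ (D : ℤ) ∣ X := by
    intro hd
    have h1 : (D : ℤ) ∣ W ^ 2 := by
      rw [← he2]
      exact dvd_add (Dvd.dvd.mul_left (dvd_pow hd two_ne_zero) _) ⟨(v : ℤ) ^ 2 * e ^ 2, by ring⟩
    have hW := hDp.dvd_of_dvd_pow h1
    obtain ⟨x, hx⟩ := hd
    obtain ⟨w, hw⟩ := hW
    have h2 : (D : ℤ) ∣ (v : ℤ) ^ 2 * e ^ 2 := by
      refine ⟨w ^ 2 - β * x ^ 2, ?_⟩
      apply mul_left_cancel₀ hDp.ne_zero
      rw [hx, hw] at he2
      linear_combination he2
    rcases hDp.dvd_or_dvd h2 with h3 | h3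
    · exact hDv (hDp.dvd_of_dvd_pow h3)
    · exact hncop D h.prime (Dvd.dvd.mul_left ⟨x, hx⟩ _) (hDp.dvd_of_dvd_pow h3)
  have hDW : ¬ (D : ℤ) ∣ W := by
    intro hd
    have h1 : (D : ℤ) ∣ β * X ^ 2 := by
      have : β * X ^ 2 = W ^ 2 - D * ((v : ℤ) ^ 2 * e ^ 2) := by linear_combination he2
      rw [this]
      exact dvd_sub (dvd_pow hd two_ne_zero) ⟨_, rfl⟩
    exact hDX (hDp.dvd_of_dvd_pow ((hDp.dvd_or_dvd h1).resolve_left hDb))
  have hV0 : V ≠ 0 := by
    rintro rfl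
    have h1 : (D : ℤ) ∣ β * X ^ 2 := ⟨4 * e ^ 2, by linear_combination he1⟩
    exact hDX (hDp.dvd_of_dvd_pow ((hDp.dvd_or_dvd h1).resolve_left hDb))
  -- parities
  obtain ⟨b', hb'⟩ : ∃ b', β = 1 + 8 * b' := ⟨β / 8, by omega⟩
  obtain ⟨D', hD'⟩ : ∃ D' : ℤ, (D : ℤ) = 5 + 8 * D' := ⟨(D : ℤ) / 8, by have := h.D8; omega⟩
  have hv' : (v : ℤ) ^ 2 = 1 + 8 * D' := by linarith
  have hmod : (X ^ 2 + 5 * e ^ 2 - W ^ 2) % 8 = 0 := by
    have : X ^ 2 + 5 * e ^ 2 - W ^ 2 =
        8 * (-(b' * X ^ 2) - (D' + 5 * D' + 8 * D' * D') * e ^ 2) := by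
      rw [hb', hD', hv'] at he2
      linear_combination he2
    omega
  have hcase : (X % 2 = 1 ∧ e % 2 = 0 ∧ W % 2 = 1) ∨ (X % 4 = 2 ∧ e % 2 = 1 ∧ W % 2 = 1) := by
    rcases Int.even_or_odd' X with ⟨x, hx | hx⟩ <;> rcases Int.even_or_odd' e with ⟨y, hy | hy⟩ <;>
      rcases Int.even_or_odd' W with ⟨z, hz | hz⟩
    · exfalso
      refine hncop 2 Nat.prime_two (Dvd.dvd.mul_left ⟨x, by rw [hx]; norm_num⟩ _)
        ⟨y, by rw [hy]; norm_num⟩
    · exfalso
      refine hncop 2 Nat.prime_two (Dvd.dvd.mul_left ⟨x, by rw [hx]; norm_num⟩ _)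
        ⟨y, by rw [hy]; norm_num⟩
    · exfalso
      rw [hx, hy, hz] at hmod
      ring_nf at hmod
      omega
    · right
      refine ⟨?_, by omega, by omega⟩
      rcases Int.even_or_odd' x with ⟨x', hx' | hx'⟩
      · exfalso
        rw [hx, hx', hy, hz] at hmod
        have e1 := Int.even_mul_succ_self y
        have e2 := Int.even_mul_succ_self z
        obtain ⟨y', hy'⟩ := e1
        obtain ⟨z', hz'⟩ := e2
        have : (2 * (2 * x')) ^ 2 + 5 * (2 * y + 1) ^ 2 - (2 * z + 1) ^ 2 =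
            16 * x' ^ 2 + 20 * (y * (y + 1)) - 4 * (z * (z + 1)) + 4 := by ring
        rw [this, hy', hz'] at hmod
        omega
      · omega
    · exfalso
      rw [hx, hy, hz] at hmod
      ring_nf at hmod
      omega
    · left
      omega
    · exfalso
      rw [hx, hy, hz] at hmod
      ring_nf at hmod
      omega
    · exfalso
      rw [hx, hy, hz] at hmod
      ring_nf at hmod
      omega
  -- primes of `X`
  have hlX : ∀ l : ℕ, l.Prime → (l : ℤ) ∣ X → jacobiSym (D : ℤ) l = 1 := by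
    intro l hl hlX
    have hlp : Prime (l : ℤ) := Nat.prime_iff_prime_int.1 hl
    have hlD : ¬ (l : ℤ) ∣ (D : ℤ) := by
      intro hd
      have h1 : l ∣ D := by exact_mod_cast hd
      have h2 := (Nat.prime_dvd_prime_iff_eq hl h.prime).1 h1
      rw [h2] at hlX
      exact hDX hlX
    have hle : ¬ (l : ℤ) ∣ e := hncop l hl (hlX.mul_left _)
    by_cases hlv : (l : ℤ) ∣ (v : ℤ)
    · exact h.jac_v hl (by exact_mod_cast hlv)
    · have hlW : ¬ (l : ℤ) ∣ W := by
        intro hd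
        have h1 : (l : ℤ) ∣ D * (v : ℤ) ^ 2 * e ^ 2 := by
          have : D * (v : ℤ) ^ 2 * e ^ 2 = W ^ 2 - X * (β * X) := by linear_combination he2
          rw [this]
          exact dvd_sub (dvd_pow hd two_ne_zero) (hlX.mul_right _)
        rcases hlp.dvd_or_dvd h1 with h2 | h2
        · rcases hlp.dvd_or_dvd h2 with h3 | h3
          · exact hlD h3
          · exact hlv (hlp.dvd_of_dvd_pow h3)
        · exact hle (hlp.dvd_of_dvd_pow h2)
      refine RZ.jac_one hl (y := v * e) (z := W) hlW ?_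
      have : (D : ℤ) * (v * e) ^ 2 - W ^ 2 = X * (-(β * X)) := by linear_combination he2
      rw [this]
      exact hlX.mul_right _
  have hfac : (W - D * e) * (W + D * e) = c₂ * V ^ 2 := by
    linear_combination he1 - he2 - (D * e ^ 2) * hDeq
  -- `W` and `D e` are coprime
  have hWDe : ∀ l : ℕ, l.Prime → (l : ℤ) ∣ W → ¬ (l : ℤ) ∣ D * e := by
    intro l hl hlW hlDe
    have hlp : Prime (l : ℤ) := Nat.prime_iff_prime_int.1 hl
    rcases hlp.dvd_or_dvd hlDe with h1 | h1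
    · have h2 : l ∣ D := by exact_mod_cast h1
      have h3 := (Nat.prime_dvd_prime_iff_eq hl h.prime).1 h2
      rw [h3] at hlW
      exact hDW hlW
    · refine hncop l hl ?_ h1
      have h2 : (l : ℤ) ∣ β * X * X := by
        have : β * X * X = W ^ 2 - e * (D * (v : ℤ) ^ 2 * e) := by linear_combination he2
        rw [this]
        exact dvd_sub (dvd_pow hlW two_ne_zero) (h1.mul_right _)
      rcases hlp.dvd_or_dvd h2 with h3 | h3
      · exact h3
      · exact h3.mul_left _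
  have hsf : Squarefree c₂ := by
    have h1 : Squarefree ((m : ℤ)) := by
      rw [← Int.squarefree_natAbs]
      simpa using hm.sqf
    exact h1.squarefree_of_dvd hcm
  have hJ : jacobiSym X D * jacobiSym W D = 1 := by
    rcases hcase with ⟨hX2, he2', hW2⟩ | ⟨hX4, he2', hW2⟩
    · have hJX : jacobiSym X D = 1 := jac_D_one h hX2 hlX
      have hDe2 : ((D : ℤ) * e) % 2 = 0 := by
        obtain ⟨y, hy⟩ : ∃ y, e = 2 * y := ⟨e / 2, by omega⟩
        have : (D : ℤ) * e = 2 * (D * y) := by rw [hy]; ring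
        omega
      have hc : IsCoprime (W - D * e) (W + D * e) := by
        refine sd2_cop fun l hl h1 h2 => ?_
        have hlp : Prime (l : ℤ) := Nat.prime_iff_prime_int.1 hl
        have h3 : (l : ℤ) ∣ 2 * W := by
          have : 2 * W = (W - D * e) + (W + D * e) := by ring
          rw [this]
          exact dvd_add h1 h2
        have h4 : (l : ℤ) ∣ 2 * (D * e) := by
          have : 2 * (D * e) = (W + D * e) - (W - D * e) := by ring
          rw [this]
          exact dvd_sub h2 h1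
        rcases hlp.dvd_or_dvd h3 with h5 | h5
        · have h6 : l ∣ 2 := by exact_mod_cast h5
          have h7 := (Nat.prime_dvd_prime_iff_eq hl Nat.prime_two).1 h6
          subst h7
          have h8 : (2 : ℤ) ∣ W - D * e := by exact_mod_cast h1
          omega
        · rcases hlp.dvd_or_dvd h4 with h6 | h6
          · have h6' : l ∣ 2 := by exact_mod_cast h6
            have h7 := (Nat.prime_dvd_prime_iff_eq hl Nat.prime_two).1 h6'
            subst h7
            have h8 : (2 : ℤ) ∣ W := by exact_mod_cast h5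
            omega
          · exact hWDe l hl h5 h6
      obtain ⟨a₁, a₂, r, s, hP, hQ, haa, hrs⟩ := RZ.split_sq hfac hc hsf hV0
      have hDr : ¬ (D : ℤ) ∣ r := by
        intro hd
        apply hDW
        have : W = a₁ * r ^ 2 + D * e := by linarith
        rw [this]
        exact dvd_add (Dvd.dvd.mul_left (dvd_pow hd two_ne_zero) _) ⟨_, rfl⟩
      have ha1 : jacobiSym a₁ D = 1 := jac_D_dvd h hm (Dvd.dvd.trans ⟨a₂, haa.symm⟩ hcm)
      rw [hJX, sd2_jac_sq h.prime (a := a₁) (s := r) hDr ⟨e, by linarith⟩, ha1, one_mul]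
    · obtain ⟨x, hx⟩ : ∃ x, X = 2 * x := ⟨X / 2, by omega⟩
      have hJX : jacobiSym X D = -1 := by
        rw [hx, jacobiSym.mul_left, h.jac_two]
        have : jacobiSym x D = 1 := by
          refine jac_D_one h (by omega) fun l hl hlx => hlX l hl ?_
          rw [hx]
          exact hlx.mul_left _
        rw [this]; norm_num
      have hDe2 : ((D : ℤ) * e) % 2 = 1 := by
        obtain ⟨y, hy⟩ : ∃ y, e = 2 * y + 1 := ⟨e / 2, by omega⟩
        have : (D : ℤ) * e = 2 * ((5 + 8 * D') * y + 2 + 4 * D') + 1 := by rw [hD', hy]; ring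
        omega
      obtain ⟨P, hP⟩ : ∃ P, W - D * e = 2 * P := ⟨(W - D * e) / 2, by omega⟩
      obtain ⟨Q, hQ⟩ : ∃ Q, W + D * e = 2 * Q := ⟨(W + D * e) / 2, by omega⟩
      obtain ⟨V', hV'⟩ : ∃ V', V = 2 * V' := by
        have h1 : c₂ * V ^ 2 = 2 * (2 * (P * Q)) := by rw [← hfac, hP, hQ]; ring
        have h2 : (2 : ℤ) ∣ c₂ * V ^ 2 := ⟨_, h1⟩
        have h3 : (2 : ℤ) ∣ V := by
          rcases Int.prime_two.dvd_or_dvd h2 with h3 | h3
          · omega
          · exact Int.prime_two.dvd_of_dvd_pow h3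
        exact h3
      have hPQ : P * Q = c₂ * V' ^ 2 := by
        rw [hP, hQ, hV'] at hfac
        linarith
      have hWPQ : W = P + Q := by linarith
      have hDPQ : D * e = Q - P := by linarith
      have hc : IsCoprime P Q := by
        refine sd2_cop fun l hl h1 h2 => ?_
        refine hWDe l hl ?_ ?_
        · rw [hWPQ]; exact dvd_add h1 h2
        · rw [hDPQ]; exact dvd_sub h2 h1
      have hV0' : V' ≠ 0 := by
        rintro rfl
        exact hV0 (by rw [hV']; norm_num)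
      obtain ⟨a₁, a₂, r, s, hP', hQ', haa, hrs⟩ := RZ.split_sq hPQ hc hsf hV0'
      have hWr : W = 2 * a₁ * r ^ 2 + D * e := by rw [hP'] at hP; linarith
      have hDr : ¬ (D : ℤ) ∣ r := by
        intro hd
        apply hDW
        rw [hWr]
        exact dvd_add (Dvd.dvd.mul_left (dvd_pow hd two_ne_zero) _) ⟨_, rfl⟩
      have ha1 : jacobiSym a₁ D = 1 := jac_D_dvd h hm (Dvd.dvd.trans ⟨a₂, haa.symm⟩ hcm)
      rw [hJX, sd2_jac_sq h.prime (a := 2 * a₁) (s := r) hDr ⟨e, by linarith⟩,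
        jacobiSym.mul_left, ha1, h.jac_two]
      norm_num
  have hKT : RZ.KT m β.natAbs := by
    refine RZ.kt_of hm.rz (a := c₂) (by rw [mul_comm]; exact hprod) hb8 (fun p hp hpc => ?_)
      (fun p hp hpb => ?_)
    · have := ((sys_loc h hm hS hp).2.2.1 hpc).1
      rwa [one_mul] at this
    · have := ((sys_loc h hm hS hp).1 hpb).1
      rwa [neg_one_mul] at this
  have hlam : lam D β.natAbs = 0 := by
    refine lam_zero h hb8 hDX hDW ?_ hJ
    exact ⟨-((v : ℤ) ^ 2 * e ^ 2), by linear_combination he2⟩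
  have h1 := hn.kerT β.natAbs (by
    have := Int.natAbs_dvd_natAbs.2 hbm
    simpa using this) hKT hlam
  omega

end Pool.Agent.NCM
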