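import Pool.Agent.NCM.CAS
import Pool.Agent.NCM.LMD

set_option autoImplicit false

/-!
Second descent, the last case.

Proof. `X^2 - 4De^2 = m V^2`, `X^2 + Dv^2e^2 = W^2`, `IsCoprime X e`; we may take `W > 0`. `e ≠ 0` (else `m` is a
square), `V ≠ 0` (`D` is not a square), `W^2 - D^2e^2 = m V^2 > 0`. `(W - De)(W + De) = m V^2`, the gcd of the
factors divides `2` (`RZ.split_sq` for the factors or their halves): `W - De = κ m1 r^2`, `W + De = κ m2 s^2`, `κ = 1, 2`,
`m1 m2 = m`, `m1, m2 > 0`. Claim `RA D m m1`.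
`p | m1`: `W = De` modulo `p`, so `X^2 = 4De^2`... `(2De/p) = (κ m2/p)`, i.e. `(e/p) = (m2/p)`; and
`4e(W + X) = X(X + 4e)` modulo `p`, whose symbol is `lamS D p` (`LMD.lmd` with `x := X`, `y := 2e`).
`p | m2`: `W = -De`, `(-e/p) = (m1/p)`, `-4e(W+X) = X(X - 4e)` modulo `p`, symbol `lamS D p` (`y := -2e`).
`(W + X / p) = 1` for all `p | m`: `W + X > 0`, `(W-X)(W+X) = Dv^2e^2`, a prime `l` with odd valuation in
`W + X` divides `2Dv` (else `l ∤ W - X`, as `gcd (W-X, W+X) | 2 gcd (W, X)` and `gcd (W,X)` has only primes of `v`), and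
`(2/p) = (D/p) = (q/p) = 1`; `p ∤ W + X` (`X^2 = 16e^2`, `4De^2 = 16e^2`, `D = 4`, `p | v`, excluded).
-/

namespace Pool.Agent.NCM

private theorem sd3_cop {P Q : ℤ} (h : ∀ l : ℕ, l.Prime → (l : ℤ) ∣ P → (l : ℤ) ∣ Q → False) :
    IsCoprime P Q := by
  rw [Int.isCoprime_iff_gcd_eq_one]
  by_contra hne
  obtain ⟨l, hl, hld⟩ := Nat.exists_prime_and_dvd hne
  have h1 : (l : ℤ) ∣ (Int.gcd P Q : ℤ) := by exact_mod_cast hld
  exact h l hl (h1.trans (Int.gcd_dvd_left _ _)) (h1.trans (Int.gcd_dvd_right _ _))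

private theorem sd3_congr {p : ℕ} {a b : ℤ} (h : (p : ℤ) ∣ a - b) :
    jacobiSym a p = jacobiSym b p :=
  jacobiSym.mod_left' (Int.modEq_iff_dvd.2 (dvd_sub_comm.1 h))

private theorem sd3_sqm {p : ℕ} (hp : p.Prime) {a s : ℤ} (hs : ¬ (p : ℤ) ∣ s) :
    jacobiSym (a * s ^ 2) p = jacobiSym a p := by
  rw [jacobiSym.mul_left, jacobiSym.sq_one', mul_one]
  rw [← Int.isCoprime_iff_gcd_eq_one]
  exact ((Nat.prime_iff_prime_int.1 hp).coprime_iff_not_dvd.2 hs).symm

private theorem sd3_prod {p : ℕ} {a : ℕ} (ha : a ≠ 0)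
    (hl : ∀ l : ℕ, l.Prime → l ∣ a → jacobiSym (l : ℤ) p = 1) : jacobiSym (a : ℤ) p = 1 := by
  induction a using Nat.recOnMul with
  | zero => exact absurd rfl ha
  | one => rw [Nat.cast_one]; exact jacobiSym.one_left p
  | prime q hq => exact hl q hq dvd_rfl
  | mul x y ihx ihy =>
    have hx0 : x ≠ 0 := left_ne_zero_of_mul ha
    have hy0 : y ≠ 0 := right_ne_zero_of_mul ha
    rw [Nat.cast_mul, jacobiSym.mul_left, ihx hx0 fun l hl' hlx => hl l hl' (hlx.mul_right y),
      ihy hy0 fun l hl' hly => hl l hl' (hly.mul_left x), one_mul]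

/-- the symbol of a factor of `D v^2 e^2` -/
private theorem sd3_fac {p : ℕ} (hp : p.Prime) {A B D v e : ℕ} (hN : A * B = D * v ^ 2 * e ^ 2)
    (hpA : ¬ p ∣ A) (hD0 : D ≠ 0) (hv0 : v ≠ 0) (he0 : e ≠ 0) (hDp : D.Prime)
    (h2 : jacobiSym 2 p = 1) (hD : jacobiSym (D : ℤ) p = 1)
    (hv : ∀ q : ℕ, q.Prime → q ∣ v → jacobiSym (q : ℤ) p = 1)
    (hc : ∀ l : ℕ, l.Prime → l ∣ A → l ∣ B → l = 2 ∨ l ∣ v) : jacobiSym (A : ℤ) p = 1 := by
  obtain ⟨a, b, hab, hsq⟩ := Nat.sq_mul_squarefree A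
  have hprod0 : D * v ^ 2 * e ^ 2 ≠ 0 :=
    mul_ne_zero (mul_ne_zero hD0 (pow_ne_zero 2 hv0)) (pow_ne_zero 2 he0)
  have hA0 : A ≠ 0 := by rintro rfl; rw [zero_mul] at hN; exact hprod0 hN.symm
  have hB0 : B ≠ 0 := by rintro rfl; rw [mul_zero] at hN; exact hprod0 hN.symm
  have ha0 : a ≠ 0 := by rintro rfl; rw [mul_zero] at hab; exact hA0 hab.symm
  have hb0 : b ≠ 0 := by rintro rfl; exact hA0 (by rw [← hab]; simp)
  have hpb : ¬ (p : ℤ) ∣ (b : ℤ) := by
    intro h
    have h' : p ∣ b := by exact_mod_cast h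
    apply hpA
    rw [← hab]
    exact (dvd_pow h' two_ne_zero).mul_right _
  have e1 : (A : ℤ) = (a : ℤ) * (b : ℤ) ^ 2 := by rw [← hab]; push_cast; ring
  rw [e1, sd3_sqm hp hpb]
  refine sd3_prod ha0 fun l hl hla => ?_
  by_cases hlD : l ∣ D
  · rw [(Nat.prime_dvd_prime_iff_eq hl hDp).1 hlD]; exact hD
  by_cases hlv : l ∣ v
  · exact hv l hl hlv
  by_cases hl2 : l = 2
  · rw [hl2]; exact_mod_cast h2
  exfalso
  have hlA : l ∣ A := by rw [← hab]; exact hla.mul_left _
  have hf := congrArg (fun n => n.factorization l) hN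
  have hfA : A.factorization l = 2 * b.factorization l + 1 := by
    rw [← hab, Nat.factorization_mul (pow_ne_zero 2 hb0) ha0, Nat.factorization_pow]
    have : a.factorization l = 1 := by
      have h1 := (Nat.squarefree_iff_factorization_le_one ha0).1 hsq l
      have h3 := (hl.dvd_iff_one_le_factorization ha0).1 hla
      omega
    simp [this]
  have hfD : D.factorization l = 0 := Nat.factorization_eq_zero_of_not_dvd hlD
  have hfv : v.factorization l = 0 := Nat.factorization_eq_zero_of_not_dvd hlv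
  have hf' : A.factorization l + B.factorization l =
      D.factorization l + 2 * v.factorization l + 2 * e.factorization l := by
    have : (A * B).factorization l = (D * v ^ 2 * e ^ 2).factorization l := hf
    rw [Nat.factorization_mul hA0 hB0, Nat.factorization_mul (mul_ne_zero hD0 (pow_ne_zero 2 hv0))
      (pow_ne_zero 2 he0), Nat.factorization_mul hD0 (pow_ne_zero 2 hv0), Nat.factorization_pow,
      Nat.factorization_pow] at this
    simpa using this
  have hB1 : 1 ≤ B.factorization l := by omega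
  have hlB : l ∣ B := (hl.dvd_iff_one_le_factorization hB0).2 hB1
  rcases hc l hl hlA hlB with h3 | h3
  · exact hl2 h3
  · exact hlv h3

private theorem sd3_core {v D m : ℕ} (h : Par v D) (hm : Fam v D m) (hn : Nice D m)
    {X V W e κ a b r s : ℤ} (hW : 0 < W) (he : e ≠ 0) (hcop : IsCoprime X e)
    (he1 : X ^ 2 - 4 * D * e ^ 2 = m * V ^ 2) (he2 : X ^ 2 + D * (v : ℤ) ^ 2 * e ^ 2 = W ^ 2)
    (hκ : ∀ p : ℕ, p.Prime → p ∣ m → jacobiSym κ p = 1) (ha : 0 < a) (hb : 0 < b)
    (hab : a * b = m) (hr : W - D * e = κ * a * r ^ 2) (hs : W + D * e = κ * b * s ^ 2) : False := by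
  have hDp : Prime (D : ℤ) := Nat.prime_iff_prime_int.1 h.prime
  obtain ⟨c, hc⟩ := Int.eq_ofNat_of_zero_le ha.le
  obtain ⟨d, hd⟩ := Int.eq_ofNat_of_zero_le hb.le
  have hcd : c * d = m := by
    rw [hc, hd] at hab
    exact_mod_cast hab
  have hc0 : 0 < c := by rw [hc] at ha; exact_mod_cast ha
  have hvp := h.v_pos
  -- the sum and the difference
  have hlt : X ^ 2 < W ^ 2 := by
    rw [← he2]
    have h1 : 0 < (D : ℤ) * (v : ℤ) ^ 2 * e ^ 2 := by
      have h2 : 0 < (D : ℤ) := by exact_mod_cast h.prime.pos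
      have h3 : 0 < (v : ℤ) := by exact_mod_cast hvp
      have h4 : 0 < e ^ 2 := by positivity
      positivity
    linarith
  have hA0 : 0 < W + X := by
    have := abs_lt_of_sq_lt_sq hlt hW.le
    have := (abs_lt.1 this).1
    linarith
  have hB0 : 0 < W - X := by
    have := abs_lt_of_sq_lt_sq hlt hW.le
    have := (abs_lt.1 this).2
    linarith
  obtain ⟨A, hA⟩ := Int.eq_ofNat_of_zero_le hA0.le
  obtain ⟨B, hB⟩ := Int.eq_ofNat_of_zero_le hB0.le
  have hAB : A * B = D * v ^ 2 * e.natAbs ^ 2 := by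
    have h1 : ((A : ℤ)) * B = D * (v : ℤ) ^ 2 * (e.natAbs : ℤ) ^ 2 := by
      rw [Int.natCast_natAbs, sq_abs, ← hA, ← hB]
      linear_combination (-1) * he2
    exact_mod_cast h1
  have hncop : ∀ l : ℕ, l.Prime → (l : ℤ) ∣ X → ¬ (l : ℤ) ∣ e := by
    intro l hl h1 h2
    exact (Nat.prime_iff_prime_int.1 hl).not_isUnit (hcop.isUnit_of_dvd' h1 h2)
  have hDX : ¬ (D : ℤ) ∣ X := by
    intro hd'
    have h1 : (D : ℤ) ∣ W ^ 2 := by
      rw [← he2]
      exact dvd_add (dvd_pow hd' two_ne_zero) ⟨(v : ℤ) ^ 2 * e ^ 2, by ring⟩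
    have hW' := hDp.dvd_of_dvd_pow h1
    obtain ⟨x, hx⟩ := hd'
    obtain ⟨w, hw⟩ := hW'
    have h2 : (D : ℤ) ∣ (v : ℤ) ^ 2 * e ^ 2 := by
      refine ⟨w ^ 2 - x ^ 2, ?_⟩
      apply mul_left_cancel₀ hDp.ne_zero
      rw [hx, hw] at he2
      linear_combination he2
    rcases hDp.dvd_or_dvd h2 with h3 | h3
    · exact h.ndvd_v (by exact_mod_cast hDp.dvd_of_dvd_pow h3)
    · exact hncop D h.prime ⟨x, hx⟩ (hDp.dvd_of_dvd_pow h3)
  have hsum : ∀ p : ℕ, p.Prime → p ∣ m → ¬ (p : ℤ) ∣ e → jacobiSym (W + X) p = 1 := by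
    intro p hp hpm hpe
    rw [hA]
    have hpz : Prime (p : ℤ) := Nat.prime_iff_prime_int.1 hp
    refine sd3_fac hp hAB ?_ h.prime.ne_zero hvp.ne' (by simpa using he) h.prime ?_ (hm.jacD hp hpm)
      (hm.cls hp hpm).2.2 ?_
    · intro h1
      have h2 : (p : ℤ) ∣ A * B := (by exact_mod_cast h1 : (p : ℤ) ∣ A).mul_right _
      have h3 : ((A : ℤ)) * B = D * (v : ℤ) ^ 2 * e ^ 2 := by
        rw [← hA, ← hB]
        linear_combination (-1) * he2
      rw [h3] at h2
      rcases hpz.dvd_or_dvd h2 with h4 | h4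
      · rcases hpz.dvd_or_dvd h4 with h5 | h5
        · exact hm.ndvd_D hp hpm h5
        · exact hm.ndvd_v hp hpm (hpz.dvd_of_dvd_pow h5)
      · exact hpe (hpz.dvd_of_dvd_pow h4)
    · have h8 := hm.cls8 hp hpm
      exact RZ.jac_two hp h8
    · intro l hl hlA hlB
      by_cases hl2 : l = 2
      · exact Or.inl hl2
      right
      have hlz : Prime (l : ℤ) := Nat.prime_iff_prime_int.1 hl
      have hnl2 : ¬ (l : ℤ) ∣ 2 := by
        intro h1
        have h2 : l ∣ 2 := by exact_mod_cast h1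
        exact hl2 ((Nat.prime_dvd_prime_iff_eq hl Nat.prime_two).1 h2)
      have h1 : (l : ℤ) ∣ W + X := by rw [hA]; exact_mod_cast hlA
      have h2 : (l : ℤ) ∣ W - X := by rw [hB]; exact_mod_cast hlB
      have h3 : (l : ℤ) ∣ X := by
        have h4 : (l : ℤ) ∣ 2 * X := by
          have : 2 * X = (W + X) - (W - X) := by ring
          rw [this]; exact dvd_sub h1 h2
        exact (hlz.dvd_or_dvd h4).resolve_left hnl2
      have hle := hncop l hl h3
      have h5 : (l : ℤ) ∣ D * (v : ℤ) ^ 2 * e ^ 2 := by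
        have : D * (v : ℤ) ^ 2 * e ^ 2 = (W + X) * (W - X) := by linear_combination he2
        rw [this]; exact h1.mul_right _
      rcases hlz.dvd_or_dvd h5 with h6 | h6
      · rcases hlz.dvd_or_dvd h6 with h7 | h7
        · exfalso
          have h8 : l ∣ D := by exact_mod_cast h7
          have h9 := (Nat.prime_dvd_prime_iff_eq hl h.prime).1 h8
          rw [h9] at h3
          exact hDX h3
        · exact_mod_cast hlz.dvd_of_dvd_pow h7
      · exact absurd (hlz.dvd_of_dvd_pow h6) hle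
  -- the claim
  have hloc : ∀ p : ℕ, p.Prime → p ∣ m → (p : ℤ) ∣ m ∧ ¬ (p : ℤ) ∣ e ∧ ¬ (p : ℤ) ∣ 2 * (D : ℤ) * e := by
    intro p hp hpm
    have hpz : Prime (p : ℤ) := Nat.prime_iff_prime_int.1 hp
    have hpmz : (p : ℤ) ∣ m := by exact_mod_cast hpm
    have hpe : ¬ (p : ℤ) ∣ e := by
      intro h1
      refine hncop p hp ?_ h1
      apply hpz.dvd_of_dvd_pow (n := 2)
      have : X ^ 2 = m * V ^ 2 + e * (4 * D * e) := by linear_combination he1
      rw [this]
      exact dvd_add (hpmz.mul_right _) (h1.mul_right _)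
    refine ⟨hpmz, hpe, ?_⟩
    intro h1
    rcases hpz.dvd_or_dvd h1 with h2 | h2
    · rcases hpz.dvd_or_dvd h2 with h3 | h3
      · exact hm.ndvd_two hp hpm h3
      · exact hm.ndvd_D hp hpm h3
    · exact hpe h2
  refine hn.noR c ⟨d, hcd.symm⟩ ?_
  intro p hp hpm
  have hpz : Prime (p : ℤ) := Nat.prime_iff_prime_int.1 hp
  obtain ⟨hpmz, hpe, hp2De⟩ := hloc p hp hpm
  have hJ2 : jacobiSym 2 p = 1 := RZ.jac_two hp (hm.cls8 hp hpm)
  have hJD := hm.jacD hp hpm
  have hJκ := hκ p hp hpm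
  have hJS := hsum p hp hpm hpe
  have hn2 := hm.ndvd_two hp hpm
  constructor
  · intro hpc
    -- `p | b`
    have hpb : (p : ℤ) ∣ b := by
      have h1 : (p : ℤ) ∣ a * b := by rw [hab]; exact hpmz
      rcases hpz.dvd_or_dvd h1 with h2 | h2
      · exfalso
        rw [hc] at h2
        exact hpc (by exact_mod_cast h2)
      · exact h2
    have hps : (p : ℤ) ∣ W + D * e := by
      rw [hs]
      exact (hpb.mul_left _).mul_right _
    have hpr : ¬ (p : ℤ) ∣ r := by
      intro h1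
      apply hp2De
      have : 2 * (D : ℤ) * e = (W + D * e) - κ * a * r ^ 2 := by rw [← hr]; ring
      rw [this]
      exact dvd_sub hps (Dvd.dvd.mul_left (dvd_pow h1 two_ne_zero) _)
    have g1 : jacobiSym (κ * a * r ^ 2) p = jacobiSym (-e * (2 * D)) p := by
      apply sd3_congr
      have : κ * a * r ^ 2 - -e * (2 * D) = W + D * e := by rw [← hr]; ring
      rw [this]; exact hps
    rw [sd3_sqm hp hpr, jacobiSym.mul_left, hJκ, one_mul, jacobiSym.mul_left (-e),
      jacobiSym.mul_left 2, hJ2, hJD, mul_one, mul_one] at g1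
    have g2 : jacobiSym (-e * (W + X) * 2 ^ 2) p = jacobiSym (X * (X + 2 * (-2 * e))) p := by
      apply sd3_congr
      have : -e * (W + X) * 2 ^ 2 - X * (X + 2 * (-2 * e)) =
          (W + D * e) * (-4 * e) - m * V ^ 2 := by linear_combination (-1) * he1
      rw [this]
      exact dvd_sub (hps.mul_right _) (hpmz.mul_right _)
    rw [sd3_sqm hp hn2, jacobiSym.mul_left, hJS, mul_one] at g2
    have g3 := (lmd h hp (hm.cls8 hp hpm) hJD (hm.ndvd_v hp hpm) (x := X) (y := -2 * e) (by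
      intro h1
      rcases hpz.dvd_or_dvd h1 with h2 | h2
      · exact hn2 ((dvd_neg).1 h2)
      · exact hpe h2) (by
      have : X ^ 2 - D * (-2 * e) ^ 2 = m * V ^ 2 := by linear_combination he1
      rw [this]; exact hpmz.mul_right _)).2
    rw [← hc, g1, g2, g3]
  · intro hpc
    have hpa : (p : ℤ) ∣ a := by rw [hc]; exact_mod_cast hpc
    have hpr : (p : ℤ) ∣ W - D * e := by
      rw [hr]
      exact (hpa.mul_left _).mul_right _
    have hps : ¬ (p : ℤ) ∣ s := by
      intro h1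
      apply hp2De
      have : 2 * (D : ℤ) * e = κ * b * s ^ 2 - (W - D * e) := by rw [← hs]; ring
      rw [this]
      exact dvd_sub (Dvd.dvd.mul_left (dvd_pow h1 two_ne_zero) _) hpr
    have g1 : jacobiSym (κ * b * s ^ 2) p = jacobiSym (e * (2 * D)) p := by
      apply sd3_congr
      have : κ * b * s ^ 2 - e * (2 * D) = W - D * e := by rw [← hs]; ring
      rw [this]; exact hpr
    rw [sd3_sqm hp hps, jacobiSym.mul_left, hJκ, one_mul, jacobiSym.mul_left e,
      jacobiSym.mul_left 2, hJ2, hJD, mul_one, mul_one] at g1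
    have g2 : jacobiSym (e * (W + X) * 2 ^ 2) p = jacobiSym (X * (X + 2 * (2 * e))) p := by
      apply sd3_congr
      have : e * (W + X) * 2 ^ 2 - X * (X + 2 * (2 * e)) =
          (W - D * e) * (4 * e) - m * V ^ 2 := by linear_combination (-1) * he1
      rw [this]
      exact dvd_sub (hpr.mul_right _) (hpmz.mul_right _)
    rw [sd3_sqm hp hn2, jacobiSym.mul_left, hJS, mul_one] at g2
    have g3 := (lmd h hp (hm.cls8 hp hpm) hJD (hm.ndvd_v hp hpm) (x := X) (y := 2 * e) (by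
      intro h1
      rcases hpz.dvd_or_dvd h1 with h2 | h2
      · exact hn2 h2
      · exact hpe h2) (by
      have : X ^ 2 - D * (2 * e) ^ 2 = m * V ^ 2 := by linear_combination he1
      rw [this]; exact hpmz.mul_right _)).2
    have hmc : m / c = d := by rw [← hcd, Nat.mul_div_cancel_left _ hc0]
    rw [hmc, ← hd, g1, g2, g3]

theorem sd3 {v D m : ℕ} (h : Par v D) (hm : Fam v D m) (hn : Nice D m)
    {X V W e : ℤ} (hS : Sys v D m 1 1 m 1 X V W e) : False := by
  have he1 : X ^ 2 - 4 * D * e ^ 2 = m * V ^ 2 := by have := hS.e1; linarith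
  have he2 : X ^ 2 + D * (v : ℤ) ^ 2 * e ^ 2 = W ^ 2 := by have := hS.e2; linarith
  have hcop : IsCoprime X e := by have := hS.cop; rwa [one_mul, one_mul] at this
  clear hS
  wlog hW : 0 ≤ W generalizing W
  · exact this (W := -W) (by rw [he2]; ring) (by linarith)
  have hDeq := h.eqZ
  have hDp : Prime (D : ℤ) := Nat.prime_iff_prime_int.1 h.prime
  have hncop : ∀ l : ℕ, l.Prime → (l : ℤ) ∣ X → ¬ (l : ℤ) ∣ e := by
    intro l hl h1 h2
    exact (Nat.prime_iff_prime_int.1 hl).not_isUnit (hcop.isUnit_of_dvd' h1 h2)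
  have hDX : ¬ (D : ℤ) ∣ X := by
    intro hd'
    have h1 : (D : ℤ) ∣ W ^ 2 := by
      rw [← he2]
      exact dvd_add (dvd_pow hd' two_ne_zero) ⟨(v : ℤ) ^ 2 * e ^ 2, by ring⟩
    have hW' := hDp.dvd_of_dvd_pow h1
    obtain ⟨x, hx⟩ := hd'
    obtain ⟨w, hw⟩ := hW'
    have h2 : (D : ℤ) ∣ (v : ℤ) ^ 2 * e ^ 2 := by
      refine ⟨w ^ 2 - x ^ 2, ?_⟩
      apply mul_left_cancel₀ hDp.ne_zero
      rw [hx, hw] at he2
      linear_combination he2
    rcases hDp.dvd_or_dvd h2 with h3 | h3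
    · exact h.ndvd_v (by exact_mod_cast hDp.dvd_of_dvd_pow h3)
    · exact hncop D h.prime ⟨x, hx⟩ (hDp.dvd_of_dvd_pow h3)
  have hDW : ¬ (D : ℤ) ∣ W := by
    intro hd
    apply hDX
    apply hDp.dvd_of_dvd_pow (n := 2)
    have : X ^ 2 = W ^ 2 - D * ((v : ℤ) ^ 2 * e ^ 2) := by linear_combination he2
    rw [this]
    exact dvd_sub (dvd_pow hd two_ne_zero) ⟨_, rfl⟩
  have hW0 : 0 < W := by
    rcases hW.lt_or_eq with h1 | h1
    · exact h1
    · exfalso; apply hDW; rw [← h1]; exact dvd_zero _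
  have hV0 : V ≠ 0 := by
    rintro rfl
    apply hDX
    apply hDp.dvd_of_dvd_pow (n := 2)
    exact ⟨4 * e ^ 2, by linear_combination he1⟩
  have he : e ≠ 0 := by
    rintro rfl
    have h1 : (m : ℤ) * V ^ 2 = X ^ 2 := by rw [← he1]; ring
    rw [isCoprime_zero_right, Int.isUnit_iff] at hcop
    have h2 : X ^ 2 = 1 := by rcases hcop with h2 | h2 <;> rw [h2] <;> norm_num
    rw [h2] at h1
    have h3 := Int.eq_one_or_neg_one_of_mul_eq_one h1
    have := hm.one_lt
    omega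
  have hfac : (W - D * e) * (W + D * e) = m * V ^ 2 := by
    linear_combination he1 - he2 - (D * e ^ 2) * hDeq
  have hm0 : 0 < (m : ℤ) := by have := hm.one_lt; omega
  have hpos : 0 < (W - D * e) * (W + D * e) := by rw [hfac]; positivity
  have hpos2 : 0 < W - D * e ∧ 0 < W + D * e := by
    rcases pos_and_pos_or_neg_and_neg_of_mul_pos hpos with h1 | h1
    · exact h1
    · exfalso; linarith [h1.1, h1.2]
  have hWDe : ∀ l : ℕ, l.Prime → (l : ℤ) ∣ W → ¬ (l : ℤ) ∣ D * e := by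
    intro l hl hlW hlDe
    have hlp : Prime (l : ℤ) := Nat.prime_iff_prime_int.1 hl
    rcases hlp.dvd_or_dvd hlDe with h1 | h1
    · have h2 : l ∣ D := by exact_mod_cast h1
      have h3 := (Nat.prime_dvd_prime_iff_eq hl h.prime).1 h2
      rw [h3] at hlW
      exact hDW hlW
    · refine hncop l hl ?_ h1
      apply hlp.dvd_of_dvd_pow (n := 2)
      have : X ^ 2 = W ^ 2 - e * (D * (v : ℤ) ^ 2 * e) := by linear_combination he2
      rw [this]
      exact dvd_sub (dvd_pow hlW two_ne_zero) (h1.mul_right _)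
  have hsf : Squarefree (m : ℤ) := by
    rw [← Int.squarefree_natAbs]
    simpa using hm.sqf
  have hsgn : ∀ a t : ℤ, 0 < a * t ^ 2 → 0 < a := by
    intro a t h1
    by_contra h2
    have := mul_nonpos_of_nonpos_of_nonneg (not_lt.1 h2) (sq_nonneg t)
    linarith
  by_cases hpar : (W - D * e) % 2 = 1
  · have hc : IsCoprime (W - D * e) (W + D * e) := by
      refine sd3_cop fun l hl h1 h2 => ?_
      have hlp : Prime (l : ℤ) := Nat.prime_iff_prime_int.1 hl
      have hl2 : ¬ (l : ℤ) ∣ 2 := by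
        intro h5
        have h6 : l ∣ 2 := by exact_mod_cast h5
        have h7 := (Nat.prime_dvd_prime_iff_eq hl Nat.prime_two).1 h6
        subst h7
        have h8 : (2 : ℤ) ∣ W - D * e := by exact_mod_cast h1
        omega
      have h3 : (l : ℤ) ∣ 2 * W := by
        have : 2 * W = (W - D * e) + (W + D * e) := by ring
        rw [this]
        exact dvd_add h1 h2
      have h4 : (l : ℤ) ∣ 2 * (D * e) := by
        have : 2 * (D * e) = (W + D * e) - (W - D * e) := by ring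
        rw [this]
        exact dvd_sub h2 h1
      exact hWDe l hl ((hlp.dvd_or_dvd h3).resolve_left hl2) ((hlp.dvd_or_dvd h4).resolve_left hl2)
    obtain ⟨a₁, a₂, r, s, hP, hQ, haa, hrs⟩ := RZ.split_sq hfac hc hsf hV0
    refine sd3_core h hm hn (κ := 1) (a := a₁) (b := a₂) (r := r) (s := s) hW0 he hcop he1 he2
      (fun p _ _ => jacobiSym.one_left p) (hsgn a₁ r ?_) (hsgn a₂ s ?_) haa ?_ ?_
    · rw [← hP]; exact hpos2.1
    · rw [← hQ]; exact hpos2.2
    · rw [hP]; ring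
    · rw [hQ]; ring
  · obtain ⟨P, hP⟩ : ∃ P, W - D * e = 2 * P := ⟨(W - D * e) / 2, by omega⟩
    obtain ⟨Q, hQ⟩ : ∃ Q, W + D * e = 2 * Q := ⟨P + D * e, by linarith⟩
    obtain ⟨V', hV'⟩ : ∃ V', V = 2 * V' := by
      have h1 : (m : ℤ) * V ^ 2 = 2 * (2 * (P * Q)) := by rw [← hfac, hP, hQ]; ring
      have h2 : (2 : ℤ) ∣ m * V ^ 2 := ⟨_, h1⟩
      have h3 : (2 : ℤ) ∣ V := by
        rcases Int.prime_two.dvd_or_dvd h2 with h3 | h3
        · have := hm.mod8; omega
        · exact Int.prime_two.dvd_of_dvd_pow h3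
      exact h3
    have hPQ : P * Q = m * V' ^ 2 := by
      rw [hP, hQ, hV'] at hfac
      linarith
    have hWPQ : W = P + Q := by linarith
    have hDPQ : D * e = Q - P := by linarith
    have hc : IsCoprime P Q := by
      refine sd3_cop fun l hl h1 h2 => ?_
      refine hWDe l hl ?_ ?_
      · rw [hWPQ]; exact dvd_add h1 h2
      · rw [hDPQ]; exact dvd_sub h2 h1
    have hV0' : V' ≠ 0 := by
      rintro rfl
      exact hV0 (by rw [hV']; norm_num)
    obtain ⟨a₁, a₂, r, s, hP', hQ', haa, hrs⟩ := RZ.split_sq hPQ hc hsf hV0'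
    refine sd3_core h hm hn (κ := 2) (a := a₁) (b := a₂) (r := r) (s := s) hW0 he hcop he1 he2
      (fun p hp hpm => RZ.jac_two hp (hm.cls8 hp hpm)) (hsgn a₁ r ?_) (hsgn a₂ s ?_) haa ?_ ?_
    · rw [← hP']; have := hpos2.1; linarith
    · rw [← hQ']; have := hpos2.2; linarith
    · rw [hP, hP']; ring
    · rw [hQ, hQ']; ring

end Pool.Agent.NCM
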