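import Pool.Agent.NCM.LOC1

set_option autoImplicit false

/-!
The everywhere locally soluble classes of the curve, one inclusion.

Proof. Let `b` be in `Sel`, `b | 4D^2v^2m^2` squarefree, `b c = -4D^2v^2m^2`.
`q | v` prime: if `q | b`, `loc_q` with `v = q^k v'`, `j = k - 1`, `a` a nonresidue modulo `q`
(`aE = mD(v^2-4) = -16 m` modulo `q`, `(m/q) = 1` by `jac_q_dvd`, `(-1/q) = -1`). So `q ∤ b`, hence
`b = s 2^j D^i d`, `d | m`. Place `D`: `b = D^i b'`, `(b'/D) = 1`: `i = 0` is `loc_out` (`k = 2vm`), `i = 1` is `loc_in` with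
`A = 4m`, `B = -v^2 m` (`(m/D) = (-1/D) = 1`). As `(2/D) = -1`, `(d/D) = (s/D) = 1` (`jac_D_dvd`), `j = 0`.
`p | m`, `p = 1` modulo `8`, `m = p m1`: `p ∤ d`: `loc_out`, `k = 2Dvm1`: `(±b/p) = 1`, so `(d/p) = 1` (`(D/p) = (-1/p) = 1`).
`p | d`: `loc_in` with `A = 4Dm1`, `B = -Dv^2m1`: `((b/p) m1 / p) = 1`, so `((m/d)/p) = 1`. Template `RZ/SL1.lean`.
-/

namespace Pool.Agent.NCM

open Pool.Agent.RZ (jac_one)

private theorem neg_one8 {p : ℕ} (h8 : p % 8 = 1) : jacobiSym (-1) p = 1 := by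
  have hodd : Odd p := by rw [Nat.odd_iff]; omega
  rw [jacobiSym.at_neg_one hodd, ZMod.χ₄_nat_one_mod_four (by omega)]

private theorem neg8 {p : ℕ} (h8 : p % 8 = 1) (x : ℤ) : jacobiSym (-x) p = jacobiSym x p := by
  rw [← neg_one_mul, jacobiSym.mul_left, neg_one8 h8, one_mul]

private theorem sgn8 {p : ℕ} (h8 : p % 8 = 1) {s : ℤ} (hs : s = 1 ∨ s = -1) :
    jacobiSym s p = 1 := by
  rcases hs with rfl | rfl
  · exact jacobiSym.one_left p
  · exact neg_one8 h8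

private theorem sq1 {p : ℕ} (hp : p.Prime) {x : ℤ} (hx : ¬ (p : ℤ) ∣ x) :
    jacobiSym (x ^ 2) p = 1 := by
  refine jac_one hp (y := 1) (z := x) hx ?_
  simp

private theorem pow1 {p : ℕ} {x : ℤ} (hx : jacobiSym x p = 1) (i : ℕ) :
    jacobiSym (x ^ i) p = 1 := by
  rw [jacobiSym.pow_left, hx, one_pow]

private theorem ndvd_sgn {p : ℕ} (hp : p.Prime) {s : ℤ} (hs : s = 1 ∨ s = -1) :
    ¬ (p : ℤ) ∣ s := by
  intro h
  have h1 : (p : ℤ) ∣ 1 := by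
    rcases hs with rfl | rfl
    · exact h
    · exact (dvd_neg.mp h)
  exact (Nat.prime_iff_prime_int.mp hp).not_isUnit (isUnit_of_dvd_one h1)

private theorem ndvd_mul {p : ℕ} (hp : p.Prime) {x y : ℤ} (hx : ¬ (p : ℤ) ∣ x)
    (hy : ¬ (p : ℤ) ∣ y) : ¬ (p : ℤ) ∣ x * y := by
  intro h
  rcases (Nat.prime_iff_prime_int.mp hp).dvd_or_dvd h with h | h
  · exact hx h
  · exact hy h

private theorem ndvd_pow {p : ℕ} (hp : p.Prime) {x : ℤ} (hx : ¬ (p : ℤ) ∣ x) (n : ℕ) :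
    ¬ (p : ℤ) ∣ x ^ n := fun h => hx ((Nat.prime_iff_prime_int.mp hp).dvd_of_dvd_pow h)

private theorem shape2 {m n : ℕ} (h : n ∣ 2 * m) :
    ∃ j d : ℕ, (j = 0 ∨ j = 1) ∧ d ∣ m ∧ n = 2 ^ j * d := by
  by_cases h2 : 2 ∣ n
  · obtain ⟨d, rfl⟩ := h2
    exact ⟨1, d, Or.inr rfl, (Nat.mul_dvd_mul_iff_left (by norm_num)).mp h, by rw [pow_one]⟩
  · refine ⟨0, n, Or.inl rfl, ?_, by rw [pow_zero, one_mul]⟩
    exact Nat.Coprime.dvd_of_dvd_mul_left
      ((Nat.Prime.coprime_iff_not_dvd Nat.prime_two).mpr h2).symm h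

private theorem shape {v D m : ℕ} (h : Par v D) {b : ℤ} (hsq : Squarefree b)
    (hdvd : b ∣ bE v D m) (hv : ∀ q : ℕ, q.Prime → q ∣ v → ¬ (q : ℤ) ∣ b) :
    ∃ (s : ℤ) (j i d : ℕ), (s = 1 ∨ s = -1) ∧ (j = 0 ∨ j = 1) ∧ (i = 0 ∨ i = 1) ∧ d ∣ m ∧
      b = s * 2 ^ j * (D : ℤ) ^ i * d := by
  have h1 : b ∣ 2 * (D : ℤ) * m * v := by
    apply (hsq.dvd_pow_iff_dvd two_ne_zero).mp
    have : (2 * (D : ℤ) * m * v) ^ 2 = -(bE v D m) := by unfold bE; ring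
    rw [this]
    exact (dvd_neg).mpr hdvd
  have h2 : b.natAbs ∣ 2 * D * m * v := by
    have := Int.natAbs_dvd_natAbs.mpr h1
    simpa [Int.natAbs_mul] using this
  have h3 : Nat.Coprime b.natAbs v := by
    by_contra hcon
    obtain ⟨q, hq, hqb, hqv⟩ := Nat.Prime.not_coprime_iff_dvd.1 hcon
    exact hv q hq hqv (Int.natCast_dvd.2 hqb)
  have h4 : b.natAbs ∣ 2 * D * m := h3.dvd_of_dvd_mul_right h2
  obtain ⟨s, hs, hbs⟩ : ∃ s : ℤ, (s = 1 ∨ s = -1) ∧ b = s * b.natAbs := by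
    rcases Int.natAbs_eq b with h | h
    · exact ⟨1, Or.inl rfl, by rw [one_mul]; exact h⟩
    · exact ⟨-1, Or.inr rfl, by rw [neg_one_mul]; exact h⟩
  by_cases hD : D ∣ b.natAbs
  · obtain ⟨n, hn⟩ := hD
    have h5 : n ∣ 2 * m := by
      rw [hn] at h4
      have h6 : 2 * D * m = D * (2 * m) := by ring
      rw [h6] at h4
      exact (Nat.mul_dvd_mul_iff_left h.prime.pos).mp h4
    obtain ⟨j, d, hj, hd, hnd⟩ := shape2 h5
    refine ⟨s, j, 1, d, hs, hj, Or.inr rfl, hd, ?_⟩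
    rw [hbs, hn, hnd]
    push_cast
    ring
  · have h5 : b.natAbs ∣ 2 * m := by
      have h6 : 2 * D * m = (2 * m) * D := by ring
      rw [h6] at h4
      exact Nat.Coprime.dvd_of_dvd_mul_right
        ((Nat.Prime.coprime_iff_not_dvd h.prime).mpr hD).symm h4
    obtain ⟨j, d, hj, hd, hnd⟩ := shape2 h5
    refine ⟨s, j, 0, d, hs, hj, Or.inl rfl, hd, ?_⟩
    rw [hbs, hnd]
    push_cast
    ring

open Pool.Agent.H23 in
theorem sel1_nec {v D m : ℕ} (h : Par v D) (hm : Fam v D m) {b : ℤ}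
    (hb : b ∈ Sel (aE v D m) (bE v D m)) :
    ∃ (s : ℤ) (i d : ℕ), (s = 1 ∨ s = -1) ∧ (i = 0 ∨ i = 1) ∧ d ∣ m ∧ b = s * (D : ℤ) ^ i * d ∧
      RZ.CS m d := by
  obtain ⟨hsq, hdvd, -, hloc⟩ := hb
  have hb0 : b ≠ 0 := hsq.ne_zero
  obtain ⟨c, hc⟩ := id hdvd
  have hdiv : bE v D m / b = c := by rw [hc]; exact Int.mul_ediv_cancel_left c hb0
  have hc' : b * c = -4 * (D : ℤ) ^ 2 * (v : ℤ) ^ 2 * (m : ℤ) ^ 2 := hc.symm
  have hm0 : m ≠ 0 := hm.m_ne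
  -- the primes of `v`
  have hv : ∀ q : ℕ, q.Prime → q ∣ v → ¬ (q : ℤ) ∣ b := by
    intro q hq hqv hqb
    have : Fact q.Prime := ⟨hq⟩
    have hqr : Prime (q : ℤ) := Nat.prime_iff_prime_int.mp hq
    have hq3 := h.pr3 q hq hqv
    have hq0 : (q : ℤ) ≠ 0 := hqr.ne_zero
    obtain ⟨u, hu⟩ := hqb
    have hqu : ¬ (q : ℤ) ∣ u := by
      rintro ⟨k, hk⟩
      have h1 : (q : ℤ) * q ∣ b := ⟨k, by rw [hu, hk]; ring⟩
      exact hqr.not_isUnit (hsq _ h1)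
    have hq2 : ¬ (q : ℤ) ∣ 2 := by
      intro h2
      have h2' : q ∣ 2 := by exact_mod_cast h2
      have := Nat.le_of_dvd two_pos h2'
      have := hq.two_le
      omega
    have hqD : ¬ (q : ℤ) ∣ (D : ℤ) := by
      intro h2
      rw [h.eqZ] at h2
      have h3 : (q : ℤ) ∣ (v : ℤ) ^ 2 := dvd_pow (by exact_mod_cast hqv) two_ne_zero
      have h4 : (q : ℤ) ∣ 2 ^ 2 := by
        have := dvd_sub h2 h3
        simpa using this
      exact hq2 (hqr.dvd_of_dvd_pow h4)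
    have hqm : ¬ (q : ℤ) ∣ (m : ℤ) := by
      intro h2
      have h3 : q ∣ m := by exact_mod_cast h2
      exact hm.ndvd_v hq h3 (by exact_mod_cast hqv)
    -- `v = q^(k+1) v'`
    obtain ⟨k, v', hv'q, hvk⟩ : ∃ (k v' : ℕ), ¬ q ∣ v' ∧ v = q ^ (k + 1) * v' := by
      obtain ⟨n, v', hn, hvn⟩ := Nat.exists_eq_pow_mul_and_not_dvd h.v_pos.ne' q hq.ne_one
      have hn0 : n ≠ 0 := by
        rintro rfl
        apply hn
        rw [pow_zero, one_mul] at hvn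
        rwa [← hvn]
      obtain ⟨k, rfl⟩ := Nat.exists_eq_succ_of_ne_zero hn0
      exact ⟨k, v', hn, hvn⟩
    have hv'z : ¬ (q : ℤ) ∣ (v' : ℤ) := by exact_mod_cast hv'q
    have huc : u * c = (q : ℤ) ^ (2 * k + 1) * (-4 * (D : ℤ) ^ 2 * (v' : ℤ) ^ 2 * (m : ℤ) ^ 2) := by
      apply mul_left_cancel₀ hq0
      have h1 : (q : ℤ) * (u * c) = b * c := by rw [hu]; ring
      rw [h1, hc', hvk]
      push_cast
      ring
    have hdc : (q : ℤ) ^ (2 * k + 1) ∣ c := by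
      have hcop : IsCoprime ((q : ℤ) ^ (2 * k + 1)) u :=
        (hqr.coprime_iff_not_dvd.mpr hqu).pow_left
      apply hcop.dvd_of_dvd_mul_left
      rw [huc]
      exact ⟨_, rfl⟩
    obtain ⟨w, hw⟩ := hdc
    have huw : u * w = -4 * (D : ℤ) ^ 2 * (v' : ℤ) ^ 2 * (m : ℤ) ^ 2 := by
      apply mul_left_cancel₀ (pow_ne_zero (2 * k + 1) hq0)
      rw [← huc, hw]
      ring
    have hqw : ¬ (q : ℤ) ∣ w := by
      intro h1
      have h2 : (q : ℤ) ∣ u * w := Dvd.dvd.mul_left h1 u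
      rw [huw] at h2
      have h3 : ¬ (q : ℤ) ∣ -4 := by
        intro h4
        have h5 : (q : ℤ) ∣ 2 ^ 2 := by
          have := (dvd_neg).mpr h4
          simpa using this
        exact hq2 (hqr.dvd_of_dvd_pow h5)
      exact ndvd_mul hq (ndvd_mul hq (ndvd_mul hq h3 (ndvd_pow hq hqD 2)) (ndvd_pow hq hv'z 2))
        (ndvd_pow hq hqm 2) h2
    have hja : jacobiSym (aE v D m) q = -1 := by
      have hqo : Odd q := Nat.odd_iff.2 (by omega)
      have h1 : jacobiSym (m : ℤ) q = 1 :=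
        jac_q_dvd h hm (dvd_refl (m : ℤ)) (by have := hm.mod8; omega) hq hqv
      have h2 : jacobiSym ((4 : ℤ) ^ 2) q = 1 := by
        refine sq1 hq ?_
        intro h4
        have h5 : (q : ℤ) ∣ 2 ^ 2 := by simpa using h4
        exact hq2 (hqr.dvd_of_dvd_pow h5)
      have h3 : jacobiSym (aE v D m) q = jacobiSym (-(4 ^ 2 * (m : ℤ))) q := by
        apply jacobiSym.mod_left'
        have h4 : (q : ℤ) ∣ aE v D m - (-(4 ^ 2 * (m : ℤ))) := by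
          have h5 : aE v D m - (-(4 ^ 2 * (m : ℤ))) = (v : ℤ) * (m * (v : ℤ) ^ 3) := by
            unfold aE
            rw [h.eqZ]
            ring
          rw [h5]
          exact Dvd.dvd.mul_right (by exact_mod_cast hqv) _
        exact Int.emod_eq_emod_iff_emod_sub_eq_zero.2 (Int.emod_eq_zero_of_dvd h4)
      rw [h3, jacobiSym.neg _ hqo, ZMod.χ₄_nat_three_mod_four hq3, jacobiSym.mul_left, h1, h2]
      norm_num
    have hl := hloc q
    rw [hdiv, hu, hw] at hl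
    exact loc_q k hja hqu hqw hl
  obtain ⟨s, j, i, d, hs, hj, hi, hdm, hbs⟩ := shape h hsq hdvd hv
  have hdmz : (d : ℤ) ∣ (m : ℤ) := by exact_mod_cast hdm
  -- the place `D`
  have : Fact D.Prime := ⟨h.prime⟩
  have hDr : Prime (D : ℤ) := Nat.prime_iff_prime_int.mp h.prime
  have hD0 : (D : ℤ) ≠ 0 := hDr.ne_zero
  have hD5 : 5 ≤ D := by have := h.D8; omega
  have hD2 : ¬ (D : ℤ) ∣ 2 := by
    intro h2
    have h2' : D ∣ 2 := by exact_mod_cast h2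
    have := Nat.le_of_dvd two_pos h2'
    omega
  have hDv : ¬ (D : ℤ) ∣ (v : ℤ) := by exact_mod_cast h.ndvd_v
  have hDm : ¬ (D : ℤ) ∣ (m : ℤ) := by
    intro h2
    have h3 : D ∣ m := by exact_mod_cast h2
    exact hm.ndvd_D h.prime h3 (dvd_refl _)
  have hDd : ¬ (D : ℤ) ∣ (d : ℤ) := fun h2 => hDm (h2.trans hdmz)
  have hDs : ¬ (D : ℤ) ∣ s := ndvd_sgn h.prime hs
  have hD4 : ¬ (D : ℤ) ∣ 4 := by
    intro h4
    have h5 : (D : ℤ) ∣ 2 ^ 2 := by simpa using h4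
    exact hD2 (hDr.dvd_of_dvd_pow h5)
  have hmD : jacobiSym (m : ℤ) D = 1 := jac_D_dvd h hm (dvd_refl _)
  have hdD : jacobiSym (d : ℤ) D = 1 := jac_D_dvd h hm hdmz
  have hsD : jacobiSym s D = 1 := by
    rcases hs with rfl | rfl
    · exact jacobiSym.one_left D
    · exact h.jac_neg_one
  have hDb' : ¬ (D : ℤ) ∣ s * 2 ^ j * d :=
    ndvd_mul h.prime (ndvd_mul h.prime hDs (ndvd_pow h.prime hD2 j)) hDd
  have hb'D : jacobiSym (s * 2 ^ j * d) D = 1 := by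
    have hl := hloc D
    rw [hdiv] at hl
    rcases hi with rfl | rfl
    · have hbb : b = s * 2 ^ j * d := by rw [hbs]; ring
      rw [← hbb]
      have hk : ¬ (D : ℤ) ∣ 2 * v * m := ndvd_mul h.prime (ndvd_mul h.prime hD2 hDv) hDm
      have haE : aE v D m = (D : ℤ) * (m * ((v : ℤ) ^ 2 - 4)) := by unfold aE; ring
      rw [haE] at hl
      rcases loc_out (k := 2 * v * m) (by rw [hbb]; exact hDb') hk (by rw [hc']; ring) hl
        with h2 | h2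
      · exact h2
      · rw [h.jac_neg] at h2; exact h2
    · have hbb : b = (D : ℤ) * (s * 2 ^ j * d) := by rw [hbs]; ring
      have hcc : (s * 2 ^ j * d) * c = (D : ℤ) * (-4 * (v : ℤ) ^ 2 * (m : ℤ) ^ 2) := by
        apply mul_left_cancel₀ hD0
        have h1 : (D : ℤ) * (s * 2 ^ j * d * c) = b * c := by rw [hbb]; ring
        rw [h1, hc']
        ring
      have hDc : (D : ℤ) ∣ c := by
        have h1 : (D : ℤ) ∣ (s * 2 ^ j * d) * c := ⟨_, hcc⟩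
        rcases hDr.dvd_or_dvd h1 with h1 | h1
        · exact absurd h1 hDb'
        · exact h1
      obtain ⟨c1, hc1⟩ := hDc
      have hbc1 : (s * 2 ^ j * d) * c1 = (4 * (m : ℤ)) * (-((v : ℤ) ^ 2 * m)) := by
        apply mul_left_cancel₀ hD0
        have h1 : (D : ℤ) * (s * 2 ^ j * d * c1) = (s * 2 ^ j * d) * c := by rw [hc1]; ring
        rw [h1, hcc]
        ring
      have haE : aE v D m = (D : ℤ) * -(4 * (m : ℤ) + -((v : ℤ) ^ 2 * m)) := by unfold aE; ring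
      rw [haE, hbb, hc1] at hl
      have hA : ¬ (D : ℤ) ∣ 4 * (m : ℤ) := ndvd_mul h.prime hD4 hDm
      have hB' : ¬ (D : ℤ) ∣ (v : ℤ) ^ 2 * m := ndvd_mul h.prime (ndvd_pow h.prime hDv 2) hDm
      have hB : ¬ (D : ℤ) ∣ -((v : ℤ) ^ 2 * m) := fun h2 => hB' ((dvd_neg).mp h2)
      have h22 : jacobiSym ((2 : ℤ) ^ 2) D = 1 := sq1 h.prime hD2
      have hvv : jacobiSym ((v : ℤ) ^ 2) D = 1 := sq1 h.prime hDv
      rcases loc_in hDb' hA hB hbc1 hl with h2 | h2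
      · have h3 : (s * 2 ^ j * (d : ℤ)) * (4 * (m : ℤ)) = (s * 2 ^ j * d) * 2 ^ 2 * m := by ring
        rw [h3, jacobiSym.mul_left, jacobiSym.mul_left _ (2 ^ 2), h22, hmD, mul_one, mul_one] at h2
        exact h2
      · have h3 : (s * 2 ^ j * (d : ℤ)) * (-((v : ℤ) ^ 2 * m)) =
            -((s * 2 ^ j * d) * (v : ℤ) ^ 2 * m) := by ring
        rw [h3, h.jac_neg, jacobiSym.mul_left, jacobiSym.mul_left _ ((v : ℤ) ^ 2), hvv, hmD,
          mul_one, mul_one] at h2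
        exact h2
  have hj0 : j = 0 := by
    rcases hj with hj | hj
    · exact hj
    · exfalso
      rw [hj, pow_one, jacobiSym.mul_left, jacobiSym.mul_left, hsD, hdD, h.jac_two] at hb'D
      norm_num at hb'D
  subst hj0
  have hbs' : b = s * (D : ℤ) ^ i * d := by rw [hbs]; ring
  refine ⟨s, i, d, hs, hi, hdm, hbs', ?_⟩
  intro p hp hpm h8
  have : Fact p.Prime := ⟨hp⟩
  have hpr : Prime (p : ℤ) := Nat.prime_iff_prime_int.mp hp
  have hp0 : (p : ℤ) ≠ 0 := hpr.ne_zero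
  have hp2 : ¬ (p : ℤ) ∣ 2 := hm.ndvd_two hp hpm
  have hpD : ¬ (p : ℤ) ∣ (D : ℤ) := hm.ndvd_D hp hpm
  have hpv : ¬ (p : ℤ) ∣ (v : ℤ) := hm.ndvd_v hp hpm
  have hps : ¬ (p : ℤ) ∣ s := ndvd_sgn hp hs
  have hDp : jacobiSym (D : ℤ) p = 1 := hm.jacD hp hpm
  have hDip : jacobiSym ((D : ℤ) ^ i) p = 1 := pow1 hDp i
  have hsp : jacobiSym s p = 1 := sgn8 h8 hs
  have hpse : ¬ (p : ℤ) ∣ s * (D : ℤ) ^ i := ndvd_mul hp hps (ndvd_pow hp hpD i)
  obtain ⟨m1, hm1⟩ := hpm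
  have hpm1 : ¬ p ∣ m1 := by
    rintro ⟨k, rfl⟩
    have h1 : p * p ∣ m := ⟨k, by rw [hm1]; ring⟩
    exact hp.one_lt.ne' (Nat.isUnit_iff.mp (hm.sqf p h1))
  have hpm1' : ¬ (p : ℤ) ∣ (m1 : ℤ) := by exact_mod_cast hpm1
  have hmz : (m : ℤ) = p * m1 := by rw [hm1]; push_cast; ring
  have hl := hloc p
  rw [hdiv] at hl
  constructor
  · intro hpd
    have hpd' : ¬ (p : ℤ) ∣ (d : ℤ) := by exact_mod_cast hpd
    have hpb : ¬ (p : ℤ) ∣ b := by rw [hbs']; exact ndvd_mul hp hpse hpd'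
    have hpk : ¬ (p : ℤ) ∣ 2 * D * v * m1 :=
      ndvd_mul hp (ndvd_mul hp (ndvd_mul hp hp2 hpD) hpv) hpm1'
    have haE : aE v D m = (p : ℤ) * (m1 * D * ((v : ℤ) ^ 2 - 4)) := by
      unfold aE
      rw [hmz]
      ring
    rw [haE] at hl
    have h1 : jacobiSym b p = 1 := by
      rcases loc_out (k := 2 * D * v * m1) hpb hpk (by rw [hc', hmz]; ring) hl with h2 | h2
      · exact h2
      · rw [neg8 h8] at h2; exact h2
    rw [hbs', jacobiSym.mul_left, jacobiSym.mul_left, hsp, hDip, one_mul, one_mul] at h1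
    exact h1
  · intro hpd
    obtain ⟨d1, hd1⟩ := hpd
    obtain ⟨m', hm'⟩ := hdm
    have hd0 : 0 < d := Nat.pos_of_ne_zero (fun h => hm0 (by rw [hm', h, zero_mul]))
    have hmd : m / d = m' := by rw [hm']; exact Nat.mul_div_cancel_left m' hd0
    rw [hmd]
    have hm1' : m1 = m' * d1 := by
      have h1 : p * m1 = p * (m' * d1) := by rw [← hm1, hm', hd1]; ring
      exact Nat.eq_of_mul_eq_mul_left hp.pos h1
    have hpd1 : ¬ (p : ℤ) ∣ (d1 : ℤ) := by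
      intro h
      apply hpm1'
      rw [hm1']
      push_cast
      exact Dvd.dvd.mul_left h _
    -- b = p b1, c = p c1
    have hb1 : b = (p : ℤ) * (s * (D : ℤ) ^ i * d1) := by rw [hbs', hd1]; push_cast; ring
    have hpb1 : ¬ (p : ℤ) ∣ s * (D : ℤ) ^ i * d1 := ndvd_mul hp hpse hpd1
    have hcc : (s * (D : ℤ) ^ i * d1) * c =
        (p : ℤ) * (-4 * (D : ℤ) ^ 2 * (v : ℤ) ^ 2 * (m1 : ℤ) ^ 2) := by
      apply mul_left_cancel₀ hp0
      have h1 : (p : ℤ) * (s * (D : ℤ) ^ i * d1 * c) = b * c := by rw [hb1]; ring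
      rw [h1, hc', hmz]
      ring
    have hpc : (p : ℤ) ∣ c := by
      have h1 : (p : ℤ) ∣ (s * (D : ℤ) ^ i * d1) * c := ⟨_, hcc⟩
      rcases hpr.dvd_or_dvd h1 with h1 | h1
      · exact absurd h1 hpb1
      · exact h1
    obtain ⟨c1, hc1⟩ := hpc
    have hbc1 : (s * (D : ℤ) ^ i * d1) * c1 =
        (4 * (D : ℤ) * m1) * (-((D : ℤ) * (v : ℤ) ^ 2 * m1)) := by
      apply mul_left_cancel₀ hp0
      have h1 : (p : ℤ) * (s * (D : ℤ) ^ i * d1 * c1) = (s * (D : ℤ) ^ i * d1) * c := by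
        rw [hc1]; ring
      rw [h1, hcc]
      ring
    have haE : aE v D m = (p : ℤ) * -(4 * (D : ℤ) * m1 + -((D : ℤ) * (v : ℤ) ^ 2 * m1)) := by
      unfold aE
      rw [hmz]
      ring
    rw [haE, hb1, hc1] at hl
    have hp4 : ¬ (p : ℤ) ∣ 4 := by
      intro h4
      have h5 : (p : ℤ) ∣ 2 ^ 2 := by simpa using h4
      exact hp2 (hpr.dvd_of_dvd_pow h5)
    have hA : ¬ (p : ℤ) ∣ 4 * (D : ℤ) * m1 := ndvd_mul hp (ndvd_mul hp hp4 hpD) hpm1'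
    have hB' : ¬ (p : ℤ) ∣ (D : ℤ) * (v : ℤ) ^ 2 * m1 :=
      ndvd_mul hp (ndvd_mul hp hpD (ndvd_pow hp hpv 2)) hpm1'
    have hB : ¬ (p : ℤ) ∣ -((D : ℤ) * (v : ℤ) ^ 2 * m1) := fun h2 => hB' ((dvd_neg).mp h2)
    have h22 : jacobiSym ((2 : ℤ) ^ 2) p = 1 := sq1 hp hp2
    have hvv : jacobiSym ((v : ℤ) ^ 2) p = 1 := sq1 hp hpv
    have hdd : jacobiSym ((d1 : ℤ) ^ 2) p = 1 := sq1 hp hpd1
    rcases loc_in hpb1 hA hB hbc1 hl with h2 | h2
    · have h3 : (s * (D : ℤ) ^ i * (d1 : ℤ)) * (4 * (D : ℤ) * m1) =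
          s * (D : ℤ) ^ i * D * 2 ^ 2 * (d1 : ℤ) ^ 2 * m' := by
        rw [hm1']; push_cast; ring
      rw [h3, jacobiSym.mul_left, jacobiSym.mul_left, jacobiSym.mul_left, jacobiSym.mul_left,
        jacobiSym.mul_left, hsp, hDip, hDp, h22, hdd] at h2
      simpa using h2
    · have h3 : (s * (D : ℤ) ^ i * (d1 : ℤ)) * (-((D : ℤ) * (v : ℤ) ^ 2 * m1)) =
          -(s * (D : ℤ) ^ i * D * (v : ℤ) ^ 2 * (d1 : ℤ) ^ 2 * m') := by
        rw [hm1']; push_cast; ring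
      rw [h3, neg8 h8, jacobiSym.mul_left, jacobiSym.mul_left, jacobiSym.mul_left,
        jacobiSym.mul_left, jacobiSym.mul_left, hsp, hDip, hDp, hvv, hdd] at h2
      simpa using h2

end Pool.Agent.NCM
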