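import Pool.Agent.NCM.DES
import Pool.Agent.NCM.DES2
import Pool.Agent.NCM.CAS
import Pool.Agent.NCM.SD1
import Pool.Agent.NCM.SD2
import Pool.Agent.NCM.SD3
import Pool.Agent.NCM.SL1
import Pool.Agent.NCM.SL2
import Pool.Agent.H23.Count

set_option autoImplicit false

/-!
Rank zero: `Glob (aE) (bE)` is contained in `{1, -1, Dm, -Dm}`, `Glob` of the isogenous curve in `{1}`,
`two_pow_rank`. Template `RZ/RK.lean` (`2m` replaced by `Dm`).
-/

namespace Pool.Agent.NCM

open Pool.Agent.H23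

/-- `Glob` is closed under multiplication modulo squares -/
private theorem rk_mul {a b : ℤ} (G : Good (a : ℚ) (b : ℚ)) {c d e n : ℤ} (hc : c ∈ Glob a b)
    (hd : d ∈ Glob a b) (he : Squarefree e) (hn : c * d * e = n ^ 2) : e ∈ Glob a b := by
  obtain ⟨P, hP⟩ := icl_mem_range G hc
  obtain ⟨Q, hQ⟩ := icl_mem_range G hd
  obtain ⟨e', he', h⟩ := mem_glob_of_alpha G (P + Q)
  rw [map_add, hP, hQ] at h
  have h1 : icl e = icl c + icl d := by
    rw [icl_eq (int_ne_unit hc.1), icl_eq (int_ne_unit hd.1), icl_eq (int_ne_unit he), ← sqc_mul,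
      eq_comm, sqc_eq_iff]
    refine ⟨n, ?_⟩
    simp only [Units.val_mul, Units.val_mk0]
    exact_mod_cast hn
  have h2 : icl e = icl e' := by rw [h1, h]
  have h3 := icl_injOn he he'.1 h2
  rw [h3]
  exact he'

private theorem rk_neg {x : ℤ} (h : Squarefree x) : Squarefree (-x) := by
  rw [← Int.squarefree_natAbs, Int.natAbs_neg, Int.squarefree_natAbs]
  exact h

/-- the torsion class of `(0, 0)` -/
private theorem rk_neg_one {v D m : ℕ} : (-1 : ℤ) ∈ Glob (aE v D m) (bE v D m) := by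
  refine ⟨(isUnit_one.neg).squarefree, ⟨-bE v D m, by ring⟩, 2 * D * v * m, 0, 1,
    Or.inr one_ne_zero, ?_⟩
  have : bE v D m / -1 = 4 * (D : ℤ) ^ 2 * (v : ℤ) ^ 2 * (m : ℤ) ^ 2 := by
    rw [Int.ediv_neg, Int.ediv_one]; unfold bE; ring
  rw [this]
  push_cast
  ring

/-- the torsion class of `(4 D m, 0)` -/
private theorem rk_D_m {v D m : ℕ} (h : Par v D) (hm : Fam v D m) :
    ((D : ℤ) * (m : ℤ)) ∈ Glob (aE v D m) (bE v D m) := by
  have hm0 : (m : ℤ) ≠ 0 := by exact_mod_cast hm.m_ne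
  have hD0 : (D : ℤ) ≠ 0 := by exact_mod_cast h.prime.ne_zero
  have e : bE v D m = ((D : ℤ) * m) * (-4 * D * (v : ℤ) ^ 2 * m) := by unfold bE; ring
  refine ⟨?_, ⟨_, e⟩, 0, 2, 1, Or.inr one_ne_zero, ?_⟩
  · have h1 : Squarefree (D * m) := by
      rw [Nat.squarefree_mul_iff]
      refine ⟨?_, h.prime.prime.squarefree, hm.sqf⟩
      rw [Nat.Prime.coprime_iff_not_dvd h.prime]
      intro hDm
      have := hm.ndvd_D h.prime hDm
      exact this (dvd_refl _)
    have : ((D : ℤ) * (m : ℤ)) = ((D * m : ℕ) : ℤ) := by push_cast; ring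
    rw [this]
    exact Int.squarefree_natCast.2 h1
  · have : bE v D m / ((D : ℤ) * m) = -4 * D * (v : ℤ) ^ 2 * m := by
      rw [e, Int.mul_ediv_cancel_left _ (mul_ne_zero hD0 hm0)]
    rw [this]
    unfold aE
    push_cast
    ring

/-- the classes dividing `m` that are `1` modulo `8` -/
private theorem rk_one {v D m : ℕ} (h : Par v D) (hm : Fam v D m) (hn : Nice D m) {b : ℤ}
    (hb : b ∈ Glob (aE v D m) (bE v D m)) (hbm : b ∣ m) (h8 : b % 8 = 1) : b = 1 := by
  obtain ⟨α, β, c₂, c₃, X, V, W, e, hS, hbe⟩ := sys_of_glob h hm hb hbm h8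
  rw [hbe]
  rcases sys_cases h hm hn hS with ⟨h1, h2⟩ | ⟨h1, h2⟩
  · subst h1 h2
    rw [sd1 h hm hn hS, one_mul]
  · exfalso
    subst h1 h2
    have h3 := sd2 h hm hn hS
    subst h3
    have h4 : c₂ = m := by have := hS.prod; linarith
    rw [h4] at hS
    exact sd3 h hm hn hS

private theorem rk_glob {v D m : ℕ} (h : Par v D) (hm : Fam v D m) (hn : Nice D m) :
    Glob (aE v D m) (bE v D m) ⊆
      ({1, -1, (D : ℤ) * (m : ℤ), -((D : ℤ) * (m : ℤ))} : Set ℤ) := by
  have hm0 : (m : ℤ) ≠ 0 := by exact_mod_cast hm.m_ne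
  have hD0 : (D : ℤ) ≠ 0 := by exact_mod_cast h.prime.ne_zero
  have hv0 : (v : ℤ) ≠ 0 := by have := h.v_pos; exact_mod_cast this.ne'
  have hb0 : bE v D m ≠ 0 := by
    unfold bE
    exact mul_ne_zero (mul_ne_zero (mul_ne_zero (by norm_num) (pow_ne_zero 2 hD0))
      (pow_ne_zero 2 hv0)) (pow_ne_zero 2 hm0)
  have G : Good ((aE v D m : ℤ) : ℚ) ((bE v D m : ℤ) : ℚ) := good_int hb0 (by
    rw [disc v D m h.eq]
    exact mul_ne_zero (pow_ne_zero 4 hD0) (pow_ne_zero 2 hm0))
  have hmsq : Squarefree (m : ℤ) := Int.squarefree_natCast.2 hm.sqf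
  -- the classes dividing `m`
  have hodd : ∀ x : ℤ, x ∈ Glob (aE v D m) (bE v D m) → x ∣ m → x = 1 ∨ x = -1 := by
    intro x hx hxm
    rcases hm.dvd8 hxm with h8 | h8
    · left; exact rk_one h hm hn hx hxm h8
    · right
      have h1 : -x ∈ Glob (aE v D m) (bE v D m) :=
        rk_mul G (c := x) (d := -1) (n := x) hx rk_neg_one (rk_neg hx.1) (by ring)
      have h2 := rk_one h hm hn h1 (neg_dvd.2 hxm) (by omega)
      omega
  intro b hb
  obtain ⟨s, i, d, hs, hi, hd, hbe, -⟩ := sel1_nec h hm (glob_subset_sel _ _ hb)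
  have hdz : (d : ℤ) ∣ m := by exact_mod_cast hd
  obtain ⟨n, hn'⟩ := hdz
  have hd0 : (d : ℤ) ≠ 0 := by rintro h; rw [h, zero_mul] at hn'; exact hm0 hn'
  simp only [Set.mem_insert_iff, Set.mem_singleton_iff]
  rcases hi with rfl | rfl
  · rw [pow_zero, mul_one] at hbe
    have hbm : b ∣ m := by
      rw [hbe, hn']
      rcases hs with rfl | rfl
      · rw [one_mul]; exact dvd_mul_right _ _
      · rw [neg_one_mul, neg_dvd]; exact dvd_mul_right _ _
    rcases hodd b hb hbm with h | h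
    · exact Or.inl h
    · exact Or.inr (Or.inl h)
  · rw [pow_one] at hbe
    have hsn : s * n ∈ Glob (aE v D m) (bE v D m) := by
      refine rk_mul G (c := b) (d := (D : ℤ) * m) (n := (D : ℤ) * m) hb (rk_D_m h hm) ?_ ?_
      · have h1 : Squarefree n := hmsq.squarefree_of_dvd ⟨d, by rw [hn']; ring⟩
        rcases hs with rfl | rfl
        · rwa [one_mul]
        · rw [neg_one_mul]; exact rk_neg h1
      · have hs2 : s * s = 1 := by rcases hs with rfl | rfl <;> norm_num
        rw [hbe]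
        calc s * (D : ℤ) * d * ((D : ℤ) * m) * (s * n) = (s * s) * ((D : ℤ) ^ 2 * (d * n) * m) := by
              ring
          _ = ((D : ℤ) * m) ^ 2 := by rw [hs2, ← hn']; ring
    have hsnm : s * n ∣ m := by
      rw [hn']
      rcases hs with rfl | rfl
      · rw [one_mul]; exact dvd_mul_left _ _
      · rw [neg_one_mul, neg_dvd]; exact dvd_mul_left _ _
    have h1 := hodd _ hsn hsnm
    have h2 : b = (D : ℤ) * m ∨ b = -((D : ℤ) * m) := by
      rw [hbe, hn']
      rcases hs with rfl | rfl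
      · rcases h1 with h | h
        · left
          have : n = 1 := by omega
          rw [this]; ring
        · right
          have : n = -1 := by omega
          rw [this]; ring
      · rcases h1 with h | h
        · left
          have : n = -1 := by omega
          rw [this]; ring
        · right
          have : n = 1 := by omega
          rw [this]; ring
    rcases h2 with h | h
    · exact Or.inr (Or.inr (Or.inl h))
    · exact Or.inr (Or.inr (Or.inr h))

private theorem rk_glob' {v D m : ℕ} (h : Par v D) (hm : Fam v D m) (hn : Nice D m) :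
    Glob (-2 * aE v D m) (aE v D m ^ 2 - 4 * bE v D m) ⊆ ({1} : Set ℤ) := by
  intro b hb
  obtain ⟨d, hd, hbd, h1, hK⟩ := sel2_nec h hm (glob_subset_sel _ _ hb)
  rw [Set.mem_singleton_iff]
  rcases hn.ker d hd hK with h2 | h2
  · rw [hbd, h2]; norm_num
  · exfalso
    subst h2
    rw [hbd] at hb
    obtain ⟨X, V, W, e, hS⟩ := sys_of_glob' h hm hb.2.2
    have h3 := sd2 h hm hn hS
    have h4 := hm.one_lt
    omega

theorem rank_zero {v D m : ℕ} (h : Par v D) (hm : Fam v D m) (hn : Nice D m) :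
    mwRank (aE v D m) (bE v D m) = 0 := by
  have hm0 : (m : ℤ) ≠ 0 := by exact_mod_cast hm.m_ne
  have hD0 : (D : ℤ) ≠ 0 := by exact_mod_cast h.prime.ne_zero
  have hv0 : (v : ℤ) ≠ 0 := by have := h.v_pos; exact_mod_cast this.ne'
  have hb0 : bE v D m ≠ 0 := by
    unfold bE
    exact mul_ne_zero (mul_ne_zero (mul_ne_zero (by norm_num) (pow_ne_zero 2 hD0))
      (pow_ne_zero 2 hv0)) (pow_ne_zero 2 hm0)
  have hd0 : aE v D m ^ 2 - 4 * bE v D m ≠ 0 := by
    rw [disc v D m h.eq]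
    exact mul_ne_zero (pow_ne_zero 4 hD0) (pow_ne_zero 2 hm0)
  have hr := two_pow_rank hb0 hd0
  have h1 : (Glob (aE v D m) (bE v D m)).ncard ≤ 4 := by
    refine (Set.ncard_le_ncard (rk_glob h hm hn) (Set.toFinite _)).trans ?_
    refine (Set.ncard_insert_le _ _).trans ?_
    have h2 := Set.ncard_insert_le (-1 : ℤ)
      ({(D : ℤ) * (m : ℤ), -((D : ℤ) * (m : ℤ))} : Set ℤ)
    have h3 := Set.ncard_insert_le ((D : ℤ) * (m : ℤ)) ({-((D : ℤ) * (m : ℤ))} : Set ℤ)
    rw [Set.ncard_singleton] at h3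
    omega
  have h2 : (Glob (-2 * aE v D m) (aE v D m ^ 2 - 4 * bE v D m)).ncard ≤ 1 := by
    refine (Set.ncard_le_ncard (rk_glob' h hm hn) (Set.toFinite _)).trans ?_
    rw [Set.ncard_singleton]
  have h3 : 2 ^ (mwRank (aE v D m) (bE v D m) + 2) ≤ 4 := by
    rw [hr]
    exact (Nat.mul_le_mul h1 h2).trans (by norm_num)
  by_contra hne
  have h4 : 3 ≤ mwRank (aE v D m) (bE v D m) + 2 := by omega
  have h5 : 2 ^ 3 ≤ 2 ^ (mwRank (aE v D m) (bE v D m) + 2) := Nat.pow_le_pow_right two_pos h4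
  omega

end Pool.Agent.NCM
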